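import Pool.Agent.Q62.QD.Main
import Pool.Agent.W193.BK.ES
import Pool.Agent.W240.BK.Var
import Pool.Agent.W540.BK.Fac
import Pool.Agent.W240.BK.Fluct
import Pool.Agent.W918.BK.Osc
import Pool.Agent.W240.BK.Two
import Pool.Agent.W465.BK.QB
import Pool.Agent.W475.BK.Low
import Pool.Agent.W975.BK.Sup
import Pool.Agent.W790.BK.ADM
import Pool.Agent.W475.BK.Inv
import Pool.Agent.W261.BK.Third

/-! The inputs of the starting files. -/

set_option autoImplicit false

open Pool.Agent.W788.BK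

namespace Pool.Agent.Q62.QD

theorem sES : S_ES := Pool.Agent.W193.BK.ES.es
theorem sTH : S_THIRD := Pool.Agent.W261.BK.third Pool.Agent.W540.BK.fac
theorem sFL : S_FLUCT := Pool.Agent.W240.BK.fluct (Pool.Agent.W240.BK.var Pool.Agent.W193.BK.ES.es)
theorem sIN : S_INV := Pool.Agent.W475.BK.inv
theorem sSU : S_SUP := Pool.Agent.W975.BK.sup
theorem sQB : S_QB := Pool.Agent.W465.BK.qb (Pool.Agent.W240.BK.two Pool.Agent.W918.BK.Osc.osc)
theorem sLO : S_LOW := Pool.Agent.W475.BK.low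
theorem sAD : S_ADM := Pool.Agent.W790.BK.ADM.adm
theorem sFA : S_FAC := Pool.Agent.W540.BK.fac
theorem sO : S_OSC := Pool.Agent.W918.BK.Osc.osc

end Pool.Agent.Q62.QD
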