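import Pool.Agent.TH794.HK.FinL
import Pool.Agent.TH794.HK.FinM

/-! The engines with canonical boundary values. -/

set_option autoImplicit false
set_option linter.unusedSectionVars false

open scoped BigOperators Topology
open MeasureTheory Filter Set

namespace Pool.Agent.Q62.QD

open Pool.Agent.W788.BK
open Pool.Agent.H4R2.LO (Zd)
open Pool.Agent.W788.BK.Num
open Pool.Agent.TH794.QD
open Pool.Agent.TH794.QE
open Pool.Agent.TH794.HK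
open Pool.Agent.TH311.LL2D (Bu Bu.near)

/-- the boundary value of the free resolvent -/
noncomputable def G0 (d : ℕ) (E : ℝ) : ℂ := bvl (F0 d) E

/-- the boundary value of the weighted free resolvent -/
noncomputable def G1 (d : ℕ) (E : ℝ) : ℂ := bvl (F1 d) E

/-- the bulk energies -/
def Bk (d : ℕ) (κ E : ℝ) : Prop := RegE d κ E ∧ |E| ≤ 2 * d - κ

theorem bvl_of {F : ℝ → ℂ} {E : ℝ} {g : ℂ}
    (h : Tendsto (fun t : ℝ => GF F ((E : ℂ) + (t : ℂ) * Complex.I)) (𝓝[>] 0) (𝓝 g)) :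
    bvl F E = g := h.limUnder_eq

theorem bvals (hO : S_OSC) (d : ℕ) (hd : 2 ≤ d) (κ : ℝ) (hκ : 0 < κ) (hκ1 : κ ≤ 1) (E : ℝ)
    (hE : RegE d κ E) :
    Tendsto (fun t : ℝ => GF (F0 d) ((E : ℂ) + (t : ℂ) * Complex.I)) (𝓝[>] 0) (𝓝 (G0 d E)) ∧
    Tendsto (fun t : ℝ => GF (F1 d) ((E : ℂ) + (t : ℂ) * Complex.I)) (𝓝[>] 0) (𝓝 (G1 d E)) ∧
    0 ≤ (G1 d E).im ∧ (G1 d E).im ≤ (G0 d E).im := by
  obtain ⟨γ0, γ1, h⟩ := bval hO d hd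
  obtain ⟨h1, h2, h3, h4⟩ := (h κ hκ hκ1).1 E hE
  have e0 : G0 d E = γ0 E := bvl_of h1
  have e1 : G1 d E = γ1 E := bvl_of h2
  rw [e0, e1]
  exact ⟨h1, h2, h3, h4⟩

theorem G1_low (hO : S_OSC) (d : ℕ) (hd : 2 ≤ d) (κ : ℝ) (hκ : 0 < κ) (hκ1 : κ ≤ 1) :
    ∃ m : ℝ, 0 < m ∧ ∀ E, Bk d κ E → m ≤ (G1 d E).im := by
  obtain ⟨m, hm, h⟩ := low_lim d hd κ hκ hκ1 (G1 d) fun E hE => (bvals hO d hd κ hκ hκ1 E hE).2.1
  exact ⟨m, hm, fun E hE => h E hE.1 hE.2⟩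

/-- the engine for the profile -/
theorem engP (hES : S_ES) (hTH : S_THIRD) (hFL : S_FLUCT) (hIN : S_INV)
    (hSU : S_SUP) (hQB : S_QB) (hLO : S_LOW) (hAD : S_ADM) (hFA : S_FAC) (hO : S_OSC)
    (d : ℕ) (hd : 2 ≤ d) (κ : ℝ) (hκ : 0 < κ) (hκ1 : κ ≤ 1) (b v Kp : ℝ) (hb : 0 < b)
    (hv : 0 < v) (hKp : 0 ≤ Kp) : EngK d (Bk d κ) (G0 d) (G1 d) b v Kp := by
  obtain ⟨γ0, γ1, h⟩ := engK_all hES hTH hFL hIN hSU hQB hLO hAD hFA hO d hd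
  obtain ⟨h1, -, h2⟩ := h κ hκ hκ1
  obtain ⟨y0, h3⟩ := h2 b v Kp hb hv hKp
  refine ⟨y0, fun y hy ν hν hνb hν0 Vv hVv hvV t ht1 ht2 => ?_⟩
  obtain ⟨G, hG, hP, hL⟩ := h3 y hy ν hν hνb hν0 Vv hVv hvV t ht1 ht2
  refine ⟨G, hG, hP, fun ξ hξ => ?_⟩
  have h4 := hL ξ hξ
  intro a ha E hE
  have e0 : G0 d E = γ0 E := bvl_of (h1 E hE.1).1
  have e1 : G1 d E = γ1 E := bvl_of (h1 E hE.1).2.1
  have h5 := h4 a ha E hE
  unfold Tg at h5 ⊢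
  rw [e0, e1]
  exact h5

/-- the engine for the second moment -/
theorem engM (hES : S_ES) (hTH : S_THIRD) (hFL : S_FLUCT) (hIN : S_INV)
    (hSU : S_SUP) (hQB : S_QB) (hLO : S_LOW) (hAD : S_ADM) (hFA : S_FAC) (hO : S_OSC)
    (d : ℕ) (hd : 2 ≤ d) (κ : ℝ) (hκ : 0 < κ) (hκ1 : κ ≤ 1) (b v : ℝ) (hb : 0 < b)
    (hv : 0 < v) : Eng d (RegE d κ) (Pg (G0 d) (G1 d)) b v := by
  by_cases h2 : d = 2
  · subst h2
    obtain ⟨y0, h0⟩ := engineA hES hTH hFL hIN hSU hLO hAD hFA (κ / 3) (by positivity)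
      (by linarith) b v hb hv
    refine ⟨y0, fun y hy ν hν hνb hν0 Vv hVv hvV t ht1 ht2 => ?_⟩
    obtain ⟨G, hG, hP, hL⟩ := h0 y hy ν hν hνb hν0 Vv hVv hvV t ht1 ht2
    refine ⟨G, hG, hP, fun ξ hξ a ha E hE => hL ξ hξ a ha E ?_⟩
    have e3 : 3 * (κ / 3) = κ := by ring
    rw [e3]
    rcases hE with h | h
    · exact h.2
    · exact absurd h.1 (by norm_num)
  · have hd3 : 3 ≤ d := by omega
    obtain ⟨y0, h0⟩ := engine6 hES hTH hFL hIN hSU hQB hLO hAD hFA hO d hd3 b v hb hv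
    refine ⟨y0, fun y hy ν hν hνb hν0 Vv hVv hvV t ht1 ht2 => ?_⟩
    obtain ⟨G, hG, hP, hL⟩ := h0 y hy ν hν hνb hν0 Vv hVv hvV t ht1 ht2
    refine ⟨G, hG, hP, fun ξ hξ a ha E hE => ?_⟩
    have e0 : G0 d E = GF (F0 d) (E : ℂ) := bvl_of (lim3 _ _ (hol0 hO d hd3) E)
    have e1 : G1 d E = GF (F1 d) (E : ℂ) := bvl_of (lim3 _ _ (hol1 hO d hd3) E)
    unfold Pg
    rw [e0, e1]
    refine hL ξ hξ a ha E ?_
    rcases hE with h | h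
    · exact absurd h.1 h2
    · exact h.2

end Pool.Agent.Q62.QD
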