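import Pool.Agent.Q62.QD.NonF

/-! Localized eigenfunctions in energy windows. -/

set_option autoImplicit false
set_option linter.unusedSectionVars false

open scoped BigOperators Topology InnerProductSpace
open MeasureTheory Filter Set

namespace Pool.Agent.Q62.QD

open Pool.Agent.W788.LD.Spec (S)
open Pool.Agent.H4R2.LO (Zd)
open Pool.Agent.TH794.QD
open Pool.Agent.TH794.QE

variable {d : ℕ}

/-- an orthonormal family of eigenfunctions with energies in a window -/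
structure FamW (d : ℕ) (V : Zd d → ℝ) (e η : ℝ) {ι : Type} (φ : ι → Zd d → ℂ) : Prop where
  norm : ∀ i, HasSum (fun x => ‖φ i x‖ ^ 2) 1
  orth : ∀ i j, i ≠ j → ∑' x, (starRingEnd ℂ) (φ i x) * φ j x = 0
  eig : ∀ i, ∃ E : ℝ, |E - e| ≤ η ∧ ∀ x, -S (φ i) x + (V x : ℂ) * φ i x = (E : ℂ) * φ i x

open Classical in
theorem fam_gen {ι : Type} [Fintype ι] (φ : ι → HS d) (ho : Orthonormal ℂ φ) (P : Zd d → Prop)
    (θ : ℝ) (ht : ∀ i, ∑' x, (if P x then 0 else ‖φ i x‖ ^ 2) ≤ θ) (u : HS d) :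
    ∑ i, ‖⟪φ i, u⟫_ℂ‖ ^ 2 ≤ 2 * ∑' x, (if P x then ‖u x‖ ^ 2 else 0) +
      2 * Fintype.card ι * θ * ‖u‖ ^ 2 := by
  have h1 : ∀ i, ‖⟪φ i, u⟫_ℂ‖ ^ 2 ≤ 2 * ‖⟪φ i, cutv P u⟫_ℂ‖ ^ 2 + 2 * (θ * ‖u‖ ^ 2) := by
    intro i
    have e1 : ⟪φ i, u⟫_ℂ = ⟪φ i, cutv P u⟫_ℂ + ⟪cutv (fun x => ¬ P x) (φ i), u⟫_ℂ := by
      rw [← cutv_inner, ← inner_add_right, cutv_add]
    have h2 : ‖⟪cutv (fun x => ¬ P x) (φ i), u⟫_ℂ‖ ^ 2 ≤ θ * ‖u‖ ^ 2 := by
      have h3 := norm_inner_le_norm (𝕜 := ℂ) (cutv (fun x => ¬ P x) (φ i)) u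
      refine (pow_le_pow_left₀ (norm_nonneg _) h3 2).trans ?_
      rw [mul_pow, cutv_norm]
      refine mul_le_mul_of_nonneg_right ?_ (sq_nonneg _)
      refine le_trans (le_of_eq (tsum_congr fun x => ?_)) (ht i)
      by_cases h : P x
      · rw [if_neg (not_not.2 h), if_pos h]
      · rw [if_pos h, if_neg h]
    rw [e1]
    have h4 := norm_add_le (⟪φ i, cutv P u⟫_ℂ) (⟪cutv (fun x => ¬ P x) (φ i), u⟫_ℂ)
    have h5 := pow_le_pow_left₀ (norm_nonneg _) h4 2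
    have h6 := add_sq_le (a := ‖⟪φ i, cutv P u⟫_ℂ‖) (b := ‖⟪cutv (fun x => ¬ P x) (φ i), u⟫_ℂ‖)
    linarith
  refine (Finset.sum_le_sum fun i _ => h1 i).trans ?_
  rw [Finset.sum_add_distrib, ← Finset.mul_sum, Finset.sum_const, Finset.card_univ,
    nsmul_eq_mul, ← cutv_norm]
  have h2 := ho.sum_inner_products_le (cutv P u) (s := Finset.univ)
  have h3 : (Fintype.card ι : ℝ) * (2 * (θ * ‖u‖ ^ 2)) =
      2 * Fintype.card ι * θ * ‖u‖ ^ 2 := by ring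
  rw [h3]
  linarith

open Classical in
/-- the deterministic bound -/
theorem FamW.bound {V : Zd d → ℝ} {B : ℝ} (hV : ∀ x, |V x| ≤ B) {a : Zd d} {e η R ε C : ℝ}
    (hη : 0 < η) (hR : 0 ≤ R) {u : Zd d → ℂ} (hu : Rs d V a e η u)
    (hC : η * ∑' x, ‖u x‖ ^ 2 ≤ C)
    (hnear : η * ∑' x, (if ‖x - a‖ ≤ R then ‖u x‖ ^ 2 else 0) ≤ ε)
    {ι : Type} [Fintype ι] {φ : ι → Zd d → ℂ} (hφ : FamW d V e η φ) {θ : ℝ} (hθ0 : 0 ≤ θ)
    (hθ : θ ≤ 1 / 2) (ht : ∀ i, ∑' x, (if ‖x - a‖ ≤ R then 0 else ‖φ i x‖ ^ 2) ≤ θ) :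
    ∑ i, ‖φ i a‖ ^ 2 ≤ (4 * ε + 8 * C * ((2 * R + 1) ^ d * θ)) * η := by
  have hB : 0 ≤ B := (abs_nonneg _).trans (hV 0)
  obtain ⟨Φ, hΦ⟩ : ∃ Φ : ι → HS d, Φ = fun i => hmk (φ i) (hφ.norm i).summable := ⟨_, rfl⟩
  have hΦa : ∀ i x, Φ i x = φ i x := by
    intro i x
    rw [hΦ]
    rfl
  have ho : Orthonormal ℂ Φ := by
    constructor
    · intro i
      have h1 := hs_sum (Φ i)
      simp only [hΦa] at h1
      have h2 := h1.unique (hφ.norm i)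
      rw [← pow_left_inj₀ (norm_nonneg _) zero_le_one two_ne_zero, h2, one_pow]
    · intro i j hij
      have h1 := lp.hasSum_inner (𝕜 := ℂ) (Φ i) (Φ j)
      rw [← h1.tsum_eq, ← hφ.orth i j hij]
      refine tsum_congr fun x => ?_
      rw [RCLike.inner_apply, hΦa, hΦa, mul_comm]
  obtain ⟨U, hU⟩ : ∃ U : HS d, U = hmk u hu.sq := ⟨_, rfl⟩
  have hUa : ∀ x, U x = u x := by
    intro x
    rw [hU]
    rfl
  have hs1 : HasSum (fun x : Zd d => ‖if x = a then (1 : ℂ) else 0‖ ^ 2) 1 := by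
    have := hasSum_single (f := fun x : Zd d => ‖if x = a then (1 : ℂ) else 0‖ ^ 2) a
      (fun x hx => by
        rw [if_neg hx]
        simp)
    simp only [if_true, norm_one, one_pow] at this
    exact this
  obtain ⟨δ, hδ⟩ : ∃ δ : HS d, δ = hmk (fun x => if x = a then (1 : ℂ) else 0) hs1.summable :=
    ⟨_, rfl⟩
  obtain ⟨z, hz⟩ : ∃ z : ℂ, z = (e : ℂ) + (η : ℂ) * Complex.I := ⟨_, rfl⟩
  have heq : Hop V B hB hV U - z • U = δ := by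
    ext x
    change Hop V B hB hV U x - z * U x = δ x
    have e1 : (fun y => U y) = u := by
      funext y
      exact hUa y
    rw [Hop_apply, e1, hUa, hz, hδ]
    exact hu.eq x
  have hov : ∀ i, ‖φ i a‖ ^ 2 ≤ 2 * η ^ 2 * ‖⟪Φ i, U⟫_ℂ‖ ^ 2 := by
    intro i
    obtain ⟨E, hE1, hE2⟩ := hφ.eig i
    have hei : Hop V B hB hV (Φ i) = (E : ℂ) • Φ i := by
      ext x
      rw [Hop_apply]
      have e1 : (fun y => (Φ i) y) = φ i := by
        funext y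
        exact hΦa i y
      rw [e1, hΦa, hE2 x]
      change (E : ℂ) * φ i x = (E : ℂ) * Φ i x
      rw [hΦa]
    have h6 := lp.hasSum_inner (𝕜 := ℂ) (Φ i) δ
    have h7 : ⟪Φ i, δ⟫_ℂ = ⟪Φ i a, δ a⟫_ℂ := by
      refine h6.unique (hasSum_single a fun x hx => ?_)
      have h8 : δ x = 0 := by
        rw [hδ, hmk_apply, if_neg hx]
      rw [h8, inner_zero_right]
    have h8 : δ a = 1 := by
      rw [hδ, hmk_apply, if_pos rfl]
    have h9 : ‖⟪Φ i, δ⟫_ℂ‖ = ‖φ i a‖ := by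
      rw [h7, h8, RCLike.inner_apply, one_mul, RCLike.norm_conj, hΦa]
    have h10 : ⟪Φ i, δ⟫_ℂ = ((E : ℂ) - z) * ⟪Φ i, U⟫_ℂ := by
      rw [← heq, inner_sub_right, ← Hop_symm, hei, inner_smul_left, inner_smul_right,
        Complex.conj_ofReal]
      ring
    have h11 : ‖(E : ℂ) - z‖ ^ 2 ≤ 2 * η ^ 2 := by
      rw [← Complex.normSq_eq_norm_sq, Complex.normSq_apply, hz]
      have e1 : ((E : ℂ) - ((e : ℂ) + (η : ℂ) * Complex.I)).re = E - e := by simp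
      have e2 : ((E : ℂ) - ((e : ℂ) + (η : ℂ) * Complex.I)).im = -η := by simp
      rw [e1, e2]
      have h12 : (E - e) ^ 2 ≤ η ^ 2 := by
        rw [← sq_abs]
        exact pow_le_pow_left₀ (abs_nonneg _) hE1 2
      nlinarith
    rw [← h9, h10, norm_mul, mul_pow]
    gcongr
  have hgen := fam_gen Φ ho (fun x => ‖x - a‖ ≤ R) θ (by simpa only [hΦa] using ht) U
  simp only [hUa] at hgen
  have hnU : ‖U‖ ^ 2 = ∑' x, ‖u x‖ ^ 2 := by
    rw [← (hs_sum U).tsum_eq]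
    simp only [hUa]
  rw [hnU] at hgen
  have hcard := fam_card a R hR Φ ho θ hθ (by simpa only [hΦa] using ht)
  obtain ⟨A, hA⟩ : ∃ A, A = ∑' x, (if ‖x - a‖ ≤ R then ‖u x‖ ^ 2 else 0) := ⟨_, rfl⟩
  obtain ⟨D, hD⟩ : ∃ D, D = ∑' x, ‖u x‖ ^ 2 := ⟨_, rfl⟩
  rw [← hA] at hnear hgen
  rw [← hD] at hC hgen
  have hD0 : 0 ≤ D := by rw [hD]; exact tsum_nonneg fun x => sq_nonneg _
  calc ∑ i, ‖φ i a‖ ^ 2 ≤ ∑ i, 2 * η ^ 2 * ‖⟪Φ i, U⟫_ℂ‖ ^ 2 := Finset.sum_le_sum fun i _ => hov i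
    _ = 2 * η ^ 2 * ∑ i, ‖⟪Φ i, U⟫_ℂ‖ ^ 2 := by rw [Finset.mul_sum]
    _ ≤ 2 * η ^ 2 * (2 * A + 2 * Fintype.card ι * θ * D) := by gcongr
    _ = (4 * (η * A) + 4 * Fintype.card ι * θ * (η * D)) * η := by ring
    _ ≤ (4 * ε + 4 * (2 * (2 * R + 1) ^ d) * θ * C) * η := by
        have h0 : 0 ≤ η * D := by positivity
        gcongr
    _ = _ := by ring

open Classical in
/-- counting -/
theorem count {R L ε : ℝ} (hR : 2 ≤ R) (hRL : R ≤ L) (n : ℕ) (φ : Fin n → Zd d → ℂ)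
    (y : Fin n → Zd d) (hn : ∀ i, HasSum (fun x => ‖φ i x‖ ^ 2) 1) (hy : ∀ i, ‖y i‖ ≤ L)
    (ht : ∀ i, ∑' x, (if ‖x - y i‖ ≤ R then 0 else ‖φ i x‖ ^ 2) ≤ (1 / R) ^ (d + 1))
    (hε : 0 ≤ ε) (hloc : ∀ x : Zd d, ‖x‖ ≤ L + R →
      ∑ i : {i : Fin n // ‖x - y i‖ ≤ R}, ‖φ i.1 x‖ ^ 2 ≤ ε) :
    (n : ℝ) ≤ 2 * 2 ^ d * ε * (2 * L + 1) ^ d := by
  have hR0 : 0 < R := by linarith
  have h1 : ∀ i, 1 / 2 ≤ ∑ x ∈ bal (y i) R, ‖φ i x‖ ^ 2 := by
    intro i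
    have hs := (hn i)
    have s1 : Summable fun x => if ‖x - y i‖ ≤ R then ‖φ i x‖ ^ 2 else 0 := by
      refine Summable.of_nonneg_of_le (fun x => ?_) (fun x => ?_) hs.summable
      · split_ifs <;> positivity
      · split_ifs
        · exact le_rfl
        · positivity
    have s2 : Summable fun x => if ‖x - y i‖ ≤ R then 0 else ‖φ i x‖ ^ 2 := by
      refine Summable.of_nonneg_of_le (fun x => ?_) (fun x => ?_) hs.summable
      · split_ifs <;> positivity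
      · split_ifs
        · positivity
        · exact le_rfl
    have h5 : ∑' x, (if ‖x - y i‖ ≤ R then ‖φ i x‖ ^ 2 else 0) =
        ∑ x ∈ bal (y i) R, ‖φ i x‖ ^ 2 := by
      rw [tsum_eq_sum (s := bal (y i) R)]
      · refine Finset.sum_congr rfl fun x hx => ?_
        rw [if_pos ((bal_mem (y i) R hR0.le x).1 hx)]
      · intro x hx
        rw [if_neg fun h => hx ((bal_mem (y i) R hR0.le x).2 h)]
    have h7 : ∑' x, (if ‖x - y i‖ ≤ R then ‖φ i x‖ ^ 2 else 0) +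
        ∑' x, (if ‖x - y i‖ ≤ R then 0 else ‖φ i x‖ ^ 2) = 1 := by
      rw [← s1.tsum_add s2, ← hs.tsum_eq]
      refine tsum_congr fun x => ?_
      split_ifs
      · rw [add_zero]
      · rw [zero_add]
    have h8 : (1 / R) ^ (d + 1) ≤ 1 / 2 := by
      have h9 : 1 / R ≤ 1 / 2 := by
        rw [div_le_div_iff₀ hR0 (by norm_num)]
        linarith
      calc (1 / R) ^ (d + 1) ≤ (1 / 2) ^ (d + 1) := pow_le_pow_left₀ (by positivity) h9 _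
        _ ≤ (1 / 2) ^ 1 := pow_le_pow_of_le_one (by norm_num) (by norm_num) (by omega)
        _ = 1 / 2 := pow_one _
    have := ht i
    rw [h5] at h7
    linarith
  have h2 : ∀ i, ∑ x ∈ bal (y i) R, ‖φ i x‖ ^ 2 ≤
      ∑ x ∈ bal (0 : Zd d) (L + R), (if ‖x - y i‖ ≤ R then ‖φ i x‖ ^ 2 else 0) := by
    intro i
    rw [← Finset.sum_filter]
    refine Finset.sum_le_sum_of_subset_of_nonneg ?_ fun x _ _ => sq_nonneg _
    intro x hx
    have hx1 := (bal_mem (y i) R hR0.le x).1 hx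
    rw [Finset.mem_filter, bal_mem _ _ (by linarith)]
    refine ⟨?_, hx1⟩
    rw [sub_zero]
    calc ‖x‖ = ‖(x - y i) + y i‖ := by rw [sub_add_cancel]
      _ ≤ ‖x - y i‖ + ‖y i‖ := norm_add_le _ _
      _ ≤ R + L := add_le_add hx1 (hy i)
      _ = L + R := add_comm _ _
  have h3 : ∀ x ∈ bal (0 : Zd d) (L + R),
      ∑ i, (if ‖x - y i‖ ≤ R then ‖φ i x‖ ^ 2 else 0) ≤ ε := by
    intro x hx
    rw [bal_mem _ _ (by linarith), sub_zero] at hx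
    refine le_trans (le_of_eq ?_) (hloc x hx)
    rw [← Finset.sum_filter]
    exact (Finset.sum_subtype _ (by simp) _)
  have h4 : (n : ℝ) * (1 / 2) ≤ ∑ x ∈ bal (0 : Zd d) (L + R), ε := by
    calc (n : ℝ) * (1 / 2) = ∑ i : Fin n, (1 / 2 : ℝ) := by
          rw [Finset.sum_const, Finset.card_univ, Fintype.card_fin, nsmul_eq_mul]
      _ ≤ ∑ i : Fin n, ∑ x ∈ bal (0 : Zd d) (L + R),
          (if ‖x - y i‖ ≤ R then ‖φ i x‖ ^ 2 else 0) :=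
          Finset.sum_le_sum fun i _ => (h1 i).trans (h2 i)
      _ = ∑ x ∈ bal (0 : Zd d) (L + R), ∑ i : Fin n,
          (if ‖x - y i‖ ≤ R then ‖φ i x‖ ^ 2 else 0) := Finset.sum_comm
      _ ≤ _ := Finset.sum_le_sum h3
  rw [Finset.sum_const, nsmul_eq_mul] at h4
  have h5 := bal_card (0 : Zd d) (L + R) (by linarith)
  have h6 : (2 * (L + R) + 1) ^ d ≤ (2 * (2 * L + 1)) ^ d := by
    refine pow_le_pow_left₀ (by linarith) ?_ d
    linarith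
  have h7 : ((bal (0 : Zd d) (L + R)).card : ℝ) * ε ≤ 2 ^ d * (2 * L + 1) ^ d * ε := by
    rw [← mul_pow]
    have := h5.trans h6
    gcongr
  nlinarith

end Pool.Agent.Q62.QD
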