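import Pool.Agent.Q62.QD.Time

/-! Plancherel for the characteristic function of the evolution. -/

set_option autoImplicit false
set_option linter.unusedSectionVars false

open scoped BigOperators Topology ENNReal
open MeasureTheory Filter Set

namespace Pool.Agent.Q62.QD

open Pool.Agent.W788.LD.Spec (S)
open Pool.Agent.H4R2.LO (Zd)
open Pool.Agent.TH794.QD
open Pool.Agent.TH794.QE

variable {d : ℕ} {V : Zd d → ℝ} {a : Zd d} {ψ : ℝ → Zd d → ℂ}

theorem es_int (h : Sol d V a ψ) (t : ℝ) (ht : 0 < t) (x : Zd d) :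
    IntegrableOn (fun s => Real.exp (-(2 * t) * s) * ‖ψ s x‖ ^ 2) (Ioi (0 : ℝ)) := by
  refine Integrable.mono' (exp_int (2 * t) (by linarith)) ?_ ?_
  · exact (Continuous.mul (by fun_prop) ((h.cont x).norm.pow 2)).aestronglyMeasurable
  · refine Filter.Eventually.of_forall fun s => ?_
    rw [norm_mul, Real.norm_eq_abs, abs_of_pos (Real.exp_pos _), norm_pow, norm_norm]
    exact mul_le_of_le_one_right (Real.exp_pos _).le
      (pow_le_one₀ (norm_nonneg _) (h.le_one s x))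

theorem tot_s (h : Sol d V a ψ) (t : ℝ) (ht : 0 < t) :
    ∑' x, ∫⁻ s in Ioi (0 : ℝ), ENNReal.ofReal (Real.exp (-(2 * t) * s) * ‖ψ s x‖ ^ 2) =
      ENNReal.ofReal (2 * t)⁻¹ := by
  rw [← lintegral_tsum fun x => ?_]
  · have h1 : ∀ s, ∑' x, ENNReal.ofReal (Real.exp (-(2 * t) * s) * ‖ψ s x‖ ^ 2) =
        ENNReal.ofReal (Real.exp (-(2 * t) * s)) := by
      intro s
      have h2 := (h.norm s).mul_left (Real.exp (-(2 * t) * s))
      rw [← ENNReal.ofReal_tsum_of_nonneg (fun x => by positivity) h2.summable, h2.tsum_eq, mul_one]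
    simp only [h1]
    rw [← ofReal_integral_eq_lintegral_ofReal (exp_int (2 * t) (by linarith))
      (Filter.Eventually.of_forall fun s => (Real.exp_pos _).le), exp_val (2 * t) (by linarith)]
  · have := h.cont x
    fun_prop

theorem tot_E (h : Sol d V a ψ) (t : ℝ) (ht : 0 < t) :
    ∑' x, ∫⁻ E : ℝ, ‖La ψ E t x‖ₑ ^ 2 = ENNReal.ofReal (Real.pi / t) := by
  simp only [site_lint h t ht]
  rw [ENNReal.tsum_mul_left, tot_s h t ht, ← ENNReal.ofReal_mul (by positivity)]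
  congr 1
  field_simp

theorem site_real (h : Sol d V a ψ) (t : ℝ) (ht : 0 < t) (x : Zd d) :
    Integrable (fun E => ‖La ψ E t x‖ ^ 2) ∧
    ∫ E, ‖La ψ E t x‖ ^ 2 = 2 * Real.pi *
      ∫ s in Ioi (0 : ℝ), Real.exp (-(2 * t) * s) * ‖ψ s x‖ ^ 2 := by
  have h1 := site_lint h t ht x
  have h2 : ∀ E, ‖La ψ E t x‖ₑ ^ 2 = ENNReal.ofReal (‖La ψ E t x‖ ^ 2) := by
    intro E
    rw [ENNReal.ofReal_pow (norm_nonneg _), ofReal_norm]
  simp only [h2] at h1
  rw [← ofReal_integral_eq_lintegral_ofReal (es_int h t ht x)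
    (Filter.Eventually.of_forall fun s => by positivity), ← ENNReal.ofReal_mul (by positivity)] at h1
  have hm : AEStronglyMeasurable (fun E => ‖La ψ E t x‖ ^ 2) volume :=
    ((La_cont h t ht x).norm.pow 2).aestronglyMeasurable
  have hnn : 0 ≤ᵐ[volume] fun E => ‖La ψ E t x‖ ^ 2 :=
    Filter.Eventually.of_forall fun E => sq_nonneg _
  refine ⟨⟨hm, ?_⟩, ?_⟩
  · rw [hasFiniteIntegral_iff_ofReal hnn, h1]
    exact ENNReal.ofReal_lt_top
  · rw [integral_eq_lintegral_of_nonneg_ae hnn hm, h1, ENNReal.toReal_ofReal]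
    refine mul_nonneg (by positivity) (integral_nonneg fun s => by positivity)

/-- the characteristic functional -/
noncomputable def Xw (w : Zd d → ℂ) (u : Zd d → ℂ) : ℂ := ∑' x, w x * ((‖u x‖ ^ 2 : ℝ) : ℂ)

theorem Xw_le (w u : Zd d → ℂ) (hw : ∀ x, ‖w x‖ ≤ 1) (hu : Summable fun x => ‖u x‖ ^ 2) :
    ‖Xw w u‖ ≤ ∑' x, ‖u x‖ ^ 2 := by
  unfold Xw
  refine tsum_of_norm_bounded hu.hasSum fun x => ?_
  rw [norm_mul, Complex.norm_real, Real.norm_eq_abs, abs_of_nonneg (sq_nonneg _)]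
  exact mul_le_of_le_one_left (sq_nonneg _) (hw x)

theorem XE_int (h : Sol d V a ψ) (t : ℝ) (ht : 0 < t) (w : Zd d → ℂ) (hw : ∀ x, ‖w x‖ ≤ 1) :
    Integrable fun E => Xw w (La ψ E t) := by
  have hm : Measurable fun E => Xw w (La ψ E t) := by
    unfold Xw
    refine Measurable.tsum fun x => ?_
    have := (La_cont h t ht x).measurable
    fun_prop
  refine ⟨hm.aestronglyMeasurable, ?_⟩
  unfold HasFiniteIntegral
  have h1 : ∫⁻ E, ‖Xw w (La ψ E t)‖ₑ ≤ ∫⁻ E, ∑' x, ‖La ψ E t x‖ₑ ^ 2 := by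
    refine lintegral_mono fun E => ?_
    unfold Xw
    refine (enorm_tsum_le_tsum_enorm).trans (ENNReal.tsum_le_tsum fun x => ?_)
    rw [← ofReal_norm, norm_mul, Complex.norm_real, Real.norm_eq_abs, abs_of_nonneg (sq_nonneg _)]
    have h2 : ‖La ψ E t x‖ₑ ^ 2 = ENNReal.ofReal (‖La ψ E t x‖ ^ 2) := by
      rw [ENNReal.ofReal_pow (norm_nonneg _), ofReal_norm]
    rw [h2]
    exact ENNReal.ofReal_le_ofReal (mul_le_of_le_one_left (sq_nonneg _) (hw x))
  refine h1.trans_lt ?_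
  rw [lintegral_tsum fun x => ((La_cont h t ht x).measurable.enorm.pow_const 2).aemeasurable,
    tot_E h t ht]
  exact ENNReal.ofReal_lt_top

/-- **Plancherel for the characteristic function** -/
theorem chr_planch (h : Sol d V a ψ) (t : ℝ) (ht : 0 < t) (w : Zd d → ℂ) (hw : ∀ x, ‖w x‖ ≤ 1) :
    ∫ E, Xw w (La ψ E t) =
      2 * Real.pi * ∫ s in Ioi (0 : ℝ), (Real.exp (-(2 * t) * s) : ℂ) * Xw w (ψ s) := by
  have hE : ∫ E, Xw w (La ψ E t) = ∑' x, ∫ E, w x * ((‖La ψ E t x‖ ^ 2 : ℝ) : ℂ) := by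
    unfold Xw
    refine integral_tsum (fun x => ?_) ?_
    · have := La_cont h t ht x
      exact Continuous.aestronglyMeasurable (by fun_prop)
    · refine ne_top_of_le_ne_top (b := ∑' x, ∫⁻ E : ℝ, ‖La ψ E t x‖ₑ ^ 2) ?_ ?_
      · rw [tot_E h t ht]
        exact ENNReal.ofReal_ne_top
      · refine ENNReal.tsum_le_tsum fun x => lintegral_mono fun E => ?_
        rw [← ofReal_norm, norm_mul, Complex.norm_real, Real.norm_eq_abs,
          abs_of_nonneg (sq_nonneg _)]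
        have h2 : ‖La ψ E t x‖ₑ ^ 2 = ENNReal.ofReal (‖La ψ E t x‖ ^ 2) := by
          rw [ENNReal.ofReal_pow (norm_nonneg _), ofReal_norm]
        simp only [h2]
        exact ENNReal.ofReal_le_ofReal (mul_le_of_le_one_left (sq_nonneg _) (hw x))
  have hs : ∫ s in Ioi (0 : ℝ), (Real.exp (-(2 * t) * s) : ℂ) * Xw w (ψ s) =
      ∑' x, ∫ s in Ioi (0 : ℝ), w x * ((Real.exp (-(2 * t) * s) * ‖ψ s x‖ ^ 2 : ℝ) : ℂ) := by
    have h1 : ∀ s, (Real.exp (-(2 * t) * s) : ℂ) * Xw w (ψ s) =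
        ∑' x, w x * ((Real.exp (-(2 * t) * s) * ‖ψ s x‖ ^ 2 : ℝ) : ℂ) := by
      intro s
      unfold Xw
      rw [← tsum_mul_left]
      refine tsum_congr fun x => ?_
      push_cast
      ring
    simp only [h1]
    refine integral_tsum (fun x => ?_) ?_
    · have := h.cont x
      exact Continuous.aestronglyMeasurable (by fun_prop)
    · refine ne_top_of_le_ne_top (b := ∑' x, ∫⁻ s in Ioi (0 : ℝ),
        ENNReal.ofReal (Real.exp (-(2 * t) * s) * ‖ψ s x‖ ^ 2)) ?_ ?_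
      · rw [tot_s h t ht]
        exact ENNReal.ofReal_ne_top
      · refine ENNReal.tsum_le_tsum fun x => lintegral_mono fun s => ?_
        rw [← ofReal_norm, norm_mul, Complex.norm_real, Real.norm_eq_abs,
          abs_of_nonneg (by positivity)]
        exact ENNReal.ofReal_le_ofReal (mul_le_of_le_one_left (by positivity) (hw x))
  rw [hE, hs, ← tsum_mul_left]
  refine tsum_congr fun x => ?_
  rw [integral_const_mul, integral_const_mul, integral_complex_ofReal, integral_complex_ofReal,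
    (site_real h t ht x).2]
  push_cast
  ring

/-- the total mass -/
theorem mass_planch (h : Sol d V a ψ) (t : ℝ) (ht : 0 < t) :
    Integrable (fun E => ∑' x, ‖La ψ E t x‖ ^ 2) ∧
    ∫ E, ∑' x, ‖La ψ E t x‖ ^ 2 = Real.pi / t := by
  have h1 := chr_planch h t ht (fun _ => 1) (fun _ => by simp)
  have h2 := XE_int h t ht (fun _ => 1) (fun _ => by simp)
  have h3 : ∀ u : Zd d → ℂ, Xw (fun _ => 1) u = ((∑' x, ‖u x‖ ^ 2 : ℝ) : ℂ) := by
    intro u
    unfold Xw
    simp only [one_mul]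
    rw [Complex.ofReal_tsum]
  simp only [h3] at h1 h2
  have h4 : ∀ s, ∑' x, ‖ψ s x‖ ^ 2 = 1 := fun s => (h.norm s).tsum_eq
  simp only [h4] at h1
  constructor
  · have h5 := h2.re
    simpa using h5
  · rw [integral_complex_ofReal] at h1
    have h6 : ∫ s in Ioi (0 : ℝ), (Real.exp (-(2 * t) * s) : ℂ) * ((1 : ℝ) : ℂ) =
        (((2 * t)⁻¹ : ℝ) : ℂ) := by
      simp only [Complex.ofReal_one, mul_one]
      have h7 := exp_val (2 * t) (by linarith)
      rw [← h7, ← integral_complex_ofReal]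
    rw [h6] at h1
    have h8 : (((∫ E, ∑' x, ‖La ψ E t x‖ ^ 2 : ℝ)) : ℂ) = ((Real.pi / t : ℝ) : ℂ) := by
      rw [h1]
      push_cast
      have : (t : ℂ) ≠ 0 := by exact_mod_cast ht.ne'
      field_simp
    exact_mod_cast h8

end Pool.Agent.Q62.QD
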