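import Pool.Agent.Q62.QD.Eng

/-! The density of states of the free operator. -/

set_option autoImplicit false
set_option linter.unusedSectionVars false

open scoped BigOperators Topology
open MeasureTheory Filter Set

namespace Pool.Agent.Q62.QD

open Pool.Agent.W788.BK
open Pool.Agent.H4R2.LO (Zd)
open Pool.Agent.TH794.QD
open Pool.Agent.TH794.QE
open Pool.Agent.TH794.HK
open Pool.Agent.TH311.LL2D (Bu Bu.near)

/-- the Poisson kernel -/
noncomputable def pk (t y : ℝ) : ℝ := t / (y ^ 2 + t ^ 2)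

theorem pk_nonneg (t y : ℝ) (ht : 0 < t) : 0 ≤ pk t y := by
  unfold pk
  positivity

theorem pk_le (t y : ℝ) (ht : 0 < t) : pk t y ≤ t⁻¹ := by
  unfold pk
  rw [div_le_iff₀ (by positivity)]
  have : t⁻¹ * t ^ 2 = t := by field_simp
  nlinarith [mul_nonneg (inv_pos.2 ht).le (sq_nonneg y)]

theorem pk_ge (t y : ℝ) (ht : 0 < t) (hy : |y| ≤ t) : (2 * t)⁻¹ ≤ pk t y := by
  unfold pk
  rw [le_div_iff₀ (by positivity)]
  have h1 : y ^ 2 ≤ t ^ 2 := by
    rw [← sq_abs]
    exact pow_le_pow_left₀ (abs_nonneg _) hy 2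
  calc (2 * t)⁻¹ * (y ^ 2 + t ^ 2) ≤ (2 * t)⁻¹ * (2 * t ^ 2) := by
        gcongr
        linarith
    _ = t := by field_simp

theorem pk_cont (t : ℝ) (ht : 0 < t) : Continuous (pk t) := by
  unfold pk
  refine Continuous.div continuous_const (by fun_prop) fun y => ?_
  positivity

instance (d : ℕ) : IsProbabilityMeasure (cube d) := by
  unfold cube
  have : IsProbabilityMeasure (volume.restrict (Set.Icc (0 : ℝ) 1)) := ⟨by simp⟩
  infer_instance

theorem pk_int {d : ℕ} (t E : ℝ) (ht : 0 < t) : Integrable (fun k => pk t (sym k - E)) (cube d) := by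
  refine Integrable.of_bound (C := t⁻¹) ?_ ?_
  · exact ((pk_cont t ht).comp ((sym_cont d).sub continuous_const)).aestronglyMeasurable
  · refine Filter.Eventually.of_forall fun k => ?_
    rw [Real.norm_eq_abs, abs_of_nonneg (pk_nonneg _ _ ht)]
    exact pk_le _ _ ht

theorem GF0_im (d : ℕ) (E t : ℝ) (ht : 0 < t) :
    (GF (F0 d) ((E : ℂ) + (t : ℂ) * Complex.I)).im = ∫ k, pk t (sym k - E) ∂(cube d) := by
  rw [GF0_cube d _ (by simpa using ht)]
  have h1 : ∀ k : Fin d → ℝ, ((((sym k : ℂ) - ((E : ℂ) + (t : ℂ) * Complex.I))⁻¹).im) =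
      pk t (sym k - E) := by
    intro k
    rw [Complex.inv_im, Complex.normSq_apply]
    unfold pk
    simp
    ring
  have h2 : Integrable (fun k => ((sym k : ℂ) - ((E : ℂ) + (t : ℂ) * Complex.I))⁻¹) (cube d) := by
    refine Integrable.of_bound (C := t⁻¹) ?_ ?_
    · refine (Continuous.inv₀ ?_ ?_).aestronglyMeasurable
      · have := sym_cont d
        fun_prop
      · intro k hk
        have := congrArg Complex.im hk
        simp at this
        linarith
    · refine Filter.Eventually.of_forall fun k => ?_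
      rw [norm_inv]
      refine inv_anti₀ ht ?_
      refine le_trans ?_ (Complex.abs_im_le_norm _)
      simp [abs_of_pos ht]
  have h3 := integral_im h2
  simp only [RCLike.im_eq_complex_im] at h3
  rw [← h3]
  exact integral_congr_ae (Filter.Eventually.of_forall h1)

/-- the free amplitude decays -/
theorem F0_le (hO : S_OSC) (d : ℕ) (hd : 2 ≤ d) (s : ℝ) (hs : 0 < s) :
    ‖F0 d s‖ ≤ 50 * s ^ (-(1 / 2) : ℝ) := by
  unfold F0
  have h1 := pp_decay hO s
  have h2 : ‖pp s ^ d‖ ≤ ‖pp s‖ ^ 2 := by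
    rw [norm_pow]
    exact pow_le_pow_of_le_one (norm_nonneg _) (pp_le s) hd
  refine h2.trans ?_
  have h3 : ‖pp s‖ ^ 2 ≤ (10 / Real.sqrt (1 + |s|)) ^ 2 := pow_le_pow_left₀ (norm_nonneg _) h1 2
  refine h3.trans ?_
  rw [div_pow, Real.sq_sqrt (by positivity), abs_of_pos hs, Real.rpow_neg hs.le,
    ← Real.sqrt_eq_rpow, ← div_eq_mul_inv, div_le_div_iff₀ (by positivity) (by positivity)]
  have h4 : 0 ≤ (Real.sqrt s - 1) ^ 2 := sq_nonneg _
  have h5 := Real.sq_sqrt hs.le
  nlinarith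

theorem GF0_le (hO : S_OSC) (d : ℕ) (hd : 2 ≤ d) (E t : ℝ) (ht : 0 < t) :
    ‖GF (F0 d) ((E : ℂ) + (t : ℂ) * Complex.I)‖ ≤ 100 * t ^ (-(1 / 2) : ℝ) := by
  unfold GF
  rw [norm_mul, Complex.norm_I, one_mul]
  have hi : IntegrableOn (fun s : ℝ => s ^ (-(1 / 2) : ℝ) * Real.exp (-t * s ^ (1 : ℝ))) (Ioi 0) :=
    integrableOn_rpow_mul_exp_neg_mul_rpow (by norm_num) one_pos ht
  simp only [Real.rpow_one] at hi
  have hv := Real.integral_rpow_mul_exp_neg_mul_Ioi (a := 1 / 2) (r := t) (by norm_num) ht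
  have h1 : ∀ᵐ s ∂(volume.restrict (Ioi (0 : ℝ))),
      ‖F0 d s * Complex.exp (Complex.I * ((E : ℂ) + (t : ℂ) * Complex.I) * s)‖ ≤
        50 * (s ^ (-(1 / 2) : ℝ) * Real.exp (-t * s)) := by
    filter_upwards [ae_restrict_mem measurableSet_Ioi] with s hs
    have hs0 : 0 < s := hs
    rw [norm_mul, Complex.norm_exp]
    have h2 : (Complex.I * ((E : ℂ) + (t : ℂ) * Complex.I) * s).re = -t * s := by simp
    rw [h2, ← mul_assoc]
    exact mul_le_mul_of_nonneg_right (F0_le hO d hd s hs0) (Real.exp_pos _).le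
  refine (norm_integral_le_of_norm_le (hi.const_mul 50) h1).trans ?_
  rw [integral_const_mul]
  have h3 : ∫ s in Ioi (0 : ℝ), s ^ (-(1 / 2) : ℝ) * Real.exp (-t * s) =
      (1 / t) ^ (1 / 2 : ℝ) * Real.Gamma (1 / 2) := by
    rw [← hv]
    refine integral_congr_ae (Filter.Eventually.of_forall fun s => ?_)
    simp only
    rw [neg_mul]
    norm_num
  rw [h3, Real.Gamma_one_half_eq, one_div, Real.inv_rpow ht.le, ← Real.rpow_neg ht.le]
  have h4 : Real.sqrt Real.pi ≤ 2 := by
    rw [Real.sqrt_le_left (by norm_num)]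
    linarith [Real.pi_lt_four]
  have h5 : 0 < t ^ (-(1 / 2) : ℝ) := Real.rpow_pos_of_pos ht _
  nlinarith

/-- **regularity of the density of states** -/
theorem dos_reg (hO : S_OSC) (d : ℕ) (hd : 2 ≤ d) (c t : ℝ) (ht : 0 < t) :
    (cube d).real {k | |sym k - c| ≤ t} ≤ 200 * t ^ (1 / 2 : ℝ) := by
  have h1 := GF0_im d c t ht
  have h2 := (Complex.abs_im_le_norm _).trans (GF0_le hO d hd c t ht)
  have hm : MeasurableSet {k : Fin d → ℝ | |sym k - c| ≤ t} := by
    have := sym_cont d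
    exact measurableSet_le (by fun_prop) measurable_const
  have h3 : (2 * t)⁻¹ * (cube d).real {k | |sym k - c| ≤ t} ≤ ∫ k, pk t (sym k - c) ∂(cube d) := by
    have h4 : (2 * t)⁻¹ * (cube d).real {k | |sym k - c| ≤ t} =
        ∫ _k in {k : Fin d → ℝ | |sym k - c| ≤ t}, (2 * t)⁻¹ ∂(cube d) := by
      rw [setIntegral_const, smul_eq_mul, mul_comm]
    rw [h4]
    refine (setIntegral_mono_on (integrable_const _).integrableOn (pk_int t c ht).integrableOn hm
      fun k hk => pk_ge t _ ht hk).trans ?_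
    exact setIntegral_le_integral (pk_int t c ht)
      (Filter.Eventually.of_forall fun k => pk_nonneg _ _ ht)
  have h5 : (2 * t)⁻¹ * (cube d).real {k | |sym k - c| ≤ t} ≤ 100 * t ^ (-(1 / 2) : ℝ) := by
    rw [← h1] at h3
    exact h3.trans ((le_abs_self _).trans h2)
  have h6 : (cube d).real {k | |sym k - c| ≤ t} =
      (2 * t) * ((2 * t)⁻¹ * (cube d).real {k | |sym k - c| ≤ t}) := by
    field_simp
  rw [h6]
  refine (mul_le_mul_of_nonneg_left h5 (by positivity)).trans (le_of_eq ?_)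
  have h7 : t ^ (1 / 2 : ℝ) = t * t ^ (-(1 / 2) : ℝ) := by
    have := Real.rpow_add ht 1 (-(1 / 2))
    rw [Real.rpow_one] at this
    rw [← this]
    norm_num
  rw [h7]
  ring

end Pool.Agent.Q62.QD
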