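import Mathlib

/-! Sums of decaying exponentials are dense in `L¹(0, ∞)`. -/

set_option autoImplicit false

open scoped BigOperators Topology Polynomial
open MeasureTheory Filter Set

namespace Pool.Agent.Q62.QD

theorem img_exp : (fun τ : ℝ => Real.exp (-τ)) '' Ioi 0 = Ioo 0 1 := by
  ext y
  constructor
  · rintro ⟨τ, hτ, rfl⟩
    have h : (0 : ℝ) < τ := hτ
    exact ⟨Real.exp_pos _, by
      simp only
      rw [Real.exp_lt_one_iff]
      linarith⟩
  · intro hy
    refine ⟨-Real.log y, ?_, ?_⟩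
    · have := Real.log_neg hy.1 hy.2
      simp only [mem_Ioi]
      linarith
    · simp only
      rw [neg_neg, Real.exp_log hy.1]

theorem dexp (τ : ℝ) : HasDerivWithinAt (fun τ : ℝ => Real.exp (-τ)) (-Real.exp (-τ)) (Ioi 0) τ := by
  have h1 : HasDerivAt (fun τ : ℝ => Real.exp (-τ)) (Real.exp (-τ) * (-1)) τ :=
    (hasDerivAt_neg τ).exp
  rw [mul_neg, mul_one] at h1
  exact h1.hasDerivWithinAt

theorem inj_exp : InjOn (fun τ : ℝ => Real.exp (-τ)) (Ioi 0) := by
  intro x _ y _ h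
  have h1 := Real.exp_injective h
  linarith

theorem cv_int (g : ℝ → ℝ) : IntegrableOn g (Ioo 0 1) ↔
    IntegrableOn (fun τ => Real.exp (-τ) * g (Real.exp (-τ))) (Ioi 0) := by
  have h1 := integrableOn_image_iff_integrableOn_abs_deriv_smul (measurableSet_Ioi (a := (0 : ℝ)))
    (fun x _ => dexp x) inj_exp g
  rw [img_exp] at h1
  rw [h1]
  simp only [abs_neg, abs_of_pos (Real.exp_pos _), smul_eq_mul]

theorem cv_val (g : ℝ → ℝ) : ∫ y in Ioo (0 : ℝ) 1, g y =
    ∫ τ in Ioi (0 : ℝ), Real.exp (-τ) * g (Real.exp (-τ)) := by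
  have h1 := integral_image_eq_integral_abs_deriv_smul (measurableSet_Ioi (a := (0 : ℝ)))
    (fun x _ => dexp x) inj_exp g
  rw [img_exp] at h1
  rw [h1]
  simp only [abs_neg, abs_of_pos (Real.exp_pos _), smul_eq_mul]

/-- **density of the exponentials** -/
theorem exp_dense (φ : ℝ → ℝ) (hφ : IntegrableOn φ (Ioi 0)) (ε : ℝ) (hε : 0 < ε) :
    ∃ p : ℝ[X], IntegrableOn (fun τ => φ τ - Real.exp (-τ) * p.eval (Real.exp (-τ))) (Ioi 0) ∧
      ∫ τ in Ioi (0 : ℝ), |φ τ - Real.exp (-τ) * p.eval (Real.exp (-τ))| ≤ ε := by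
  obtain ⟨g, hg⟩ : ∃ g : ℝ → ℝ, g = fun y => y⁻¹ * φ (-Real.log y) := ⟨_, rfl⟩
  have hgφ : ∀ τ, Real.exp (-τ) * g (Real.exp (-τ)) = φ τ := by
    intro τ
    rw [hg]
    simp only
    rw [Real.log_exp, neg_neg, ← mul_assoc, mul_inv_cancel₀ (Real.exp_pos _).ne', one_mul]
  have hgi : IntegrableOn g (Ioo 0 1) := by
    rw [cv_int]
    simp only [hgφ]
    exact hφ
  obtain ⟨f, hf, hfi⟩ := Integrable.exists_boundedContinuous_integral_sub_le hgi
    (half_pos hε)
  obtain ⟨p, hp⟩ := exists_polynomial_near_of_continuousOn 0 1 f f.continuous.continuousOn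
    (ε / 2) (half_pos hε)
  have hpi : IntegrableOn (fun y => p.eval y) (Ioo (0 : ℝ) 1) :=
    (p.continuous.integrableOn_Icc (a := 0) (b := 1)).mono_set Ioo_subset_Icc_self
  have hd : ∀ τ, φ τ - Real.exp (-τ) * p.eval (Real.exp (-τ)) =
      Real.exp (-τ) * (g (Real.exp (-τ)) - p.eval (Real.exp (-τ))) := by
    intro τ
    rw [mul_sub, hgφ]
  have hd2 : ∀ τ, |φ τ - Real.exp (-τ) * p.eval (Real.exp (-τ))| =
      Real.exp (-τ) * |g (Real.exp (-τ)) - p.eval (Real.exp (-τ))| := by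
    intro τ
    rw [hd, abs_mul, abs_of_pos (Real.exp_pos _)]
  refine ⟨p, ?_, ?_⟩
  · simp only [hd]
    exact (cv_int fun y => g y - p.eval y).1 (hgi.sub hpi)
  · simp only [hd2]
    rw [← cv_val fun y => |g y - p.eval y|]
    have h1 : ∫ y in Ioo (0 : ℝ) 1, |g y - p.eval y| ≤
        ∫ y in Ioo (0 : ℝ) 1, (‖g y - f y‖ + ε / 2) := by
      refine integral_mono_ae (hgi.sub hpi).abs ((hgi.sub hfi).norm.add (integrable_const _)) ?_
      filter_upwards [ae_restrict_mem measurableSet_Ioo] with y hy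
      have h2 := hp y (Ioo_subset_Icc_self hy)
      have h3 : g y - p.eval y = (g y - f y) - (p.eval y - f y) := by ring
      rw [h3, Real.norm_eq_abs]
      refine (abs_sub _ _).trans ?_
      linarith
    refine h1.trans ?_
    have h4 : Integrable (fun y => ‖g y - f y‖) (volume.restrict (Ioo (0 : ℝ) 1)) :=
      (hgi.sub hfi).norm
    rw [integral_add h4 (integrable_const _), integral_const]
    have h5 : (volume.restrict (Ioo (0 : ℝ) 1)).real univ = 1 := by simp
    rw [h5, one_smul]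
    linarith

end Pool.Agent.Q62.QD
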