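import Pool.Agent.TH794.QE.FinA

/-! The resolvent far from the spectrum. -/

set_option autoImplicit false
set_option linter.unusedSectionVars false

open scoped BigOperators Topology
open MeasureTheory Filter Set

namespace Pool.Agent.Q62.QD

open Pool.Agent.W788.LD.Spec (S)
open Pool.Agent.H4R2.LO (Zd)
open Pool.Agent.TH794.QD
open Pool.Agent.TH794.QE

variable {d : ℕ}

/-- the sum over the neighbours as an operator on the Hilbert space -/
noncomputable def SH (d : ℕ) : HS d →L[ℂ] HS d :=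
  ∑ i : Fin d, (Tr (Pi.single i 1) + Tr (-Pi.single i 1))

theorem Tr_norm (e : Zd d) (u : HS d) : ‖Tr e u‖ ≤ ‖u‖ :=
  hmk_le _ (tr_sum e u) _ (norm_nonneg _) (tr_tsum e u).le

theorem SH_norm (u : HS d) : ‖SH d u‖ ≤ 2 * d * ‖u‖ := by
  unfold SH
  rw [_root_.sum_apply]
  refine (norm_sum_le _ _).trans ?_
  have h : ∀ i ∈ (Finset.univ : Finset (Fin d)),
      ‖(Tr (Pi.single i 1) + Tr (-Pi.single i 1) : HS d →L[ℂ] HS d) u‖ ≤ 2 * ‖u‖ := by
    intro i _
    rw [_root_.add_apply]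
    refine (norm_add_le _ _).trans ?_
    linarith [Tr_norm (Pi.single i 1) u, Tr_norm (-Pi.single i 1) u]
  refine (Finset.sum_le_sum h).trans (le_of_eq ?_)
  rw [Finset.sum_const, Finset.card_univ, Fintype.card_fin, nsmul_eq_mul]
  ring

theorem SH_apply (u : HS d) (x : Zd d) : SH d u x = S (fun y => u y) x := by
  rw [← evl_apply x (SH d u)]
  unfold SH S
  rw [_root_.sum_apply, map_sum]
  refine Finset.sum_congr rfl fun i _ => ?_
  rw [_root_.add_apply, map_add, evl_apply, evl_apply, Tr_apply, Tr_apply,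
    sub_eq_add_neg]

/-- **coercivity** -/
theorem coer {W u f : Zd d → ℂ} {δ A : ℝ} (hδ : 0 < δ)
    (hu : Summable fun x => ‖u x‖ ^ 2) (hf : Summable fun x => ‖f x‖ ^ 2)
    (hA : 0 ≤ A) (hfA : ∑' x, ‖f x‖ ^ 2 ≤ A ^ 2)
    (hW : ∀ x, 2 * (d : ℝ) + δ ≤ ‖W x‖) (h : ∀ x, -S u x + W x * u x = f x) :
    ∑' x, ‖u x‖ ^ 2 ≤ (A / δ) ^ 2 := by
  obtain ⟨U, hU⟩ : ∃ U : HS d, U = hmk u hu := ⟨_, rfl⟩
  obtain ⟨F, hF⟩ : ∃ F : HS d, F = hmk f hf := ⟨_, rfl⟩
  have hUx : ∀ x, U x = u x := fun x => by rw [hU]; rfl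
  have hFx : ∀ x, F x = f x := fun x => by rw [hF]; rfl
  obtain ⟨T, hT⟩ : ∃ T : HS d, T = F + SH d U := ⟨_, rfl⟩
  have hTx : ∀ x, T x = W x * u x := by
    intro x
    have h1 : T x = F x + SH d U x := by rw [hT]; rfl
    rw [h1, hFx, SH_apply, ← h x]
    have h2 : (fun y => U y) = u := funext hUx
    rw [h2]
    ring
  have hd : (0 : ℝ) ≤ d := Nat.cast_nonneg d
  have hUN := hs_sum U
  have hTN := hs_sum T
  have h3 : (2 * (d : ℝ) + δ) * ‖U‖ ≤ ‖T‖ := by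
    refine (pow_le_pow_iff_left₀ (by positivity) (norm_nonneg _) two_ne_zero).1 ?_
    rw [mul_pow]
    have h4 := hUN.mul_left ((2 * (d : ℝ) + δ) ^ 2)
    refine hasSum_le (fun x => ?_) h4 hTN
    rw [hTx, norm_mul, mul_pow, hUx]
    have := hW x
    gcongr
  have h5 : ‖T‖ ≤ ‖F‖ + 2 * d * ‖U‖ := by
    rw [hT]
    exact (norm_add_le _ _).trans (by linarith [SH_norm U])
  have h6 : ‖F‖ ≤ A := by
    rw [hF]
    exact hmk_le _ hf _ hA hfA
  have h7 : ‖U‖ ≤ A / δ := by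
    rw [le_div_iff₀ hδ]
    nlinarith
  have h8 : ∑' x, ‖u x‖ ^ 2 = ‖U‖ ^ 2 := by
    rw [← hUN.tsum_eq]
    exact tsum_congr fun x => by rw [hUx]
  rw [h8]
  exact pow_le_pow_left₀ (norm_nonneg _) h7 2

/-- the commutator of the sum over the neighbours and a coordinate -/
theorem S_coord (u : Zd d → ℂ) (a : Zd d) (j : Fin d) (x : Zd d) :
    S (fun y => (((y j : ℝ) - a j : ℝ) : ℂ) * u y) x =
      (((x j : ℝ) - a j : ℝ) : ℂ) * S u x + (u (x + Pi.single j 1) - u (x - Pi.single j 1)) := by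
  classical
  unfold S
  rw [Finset.mul_sum, ← Finset.sum_erase_add _ _ (Finset.mem_univ j),
    ← Finset.sum_erase_add _ _ (Finset.mem_univ j)]
  have h1 : ∑ i ∈ Finset.univ.erase j,
      ((((((x + Pi.single i 1 : Zd d) j : ℤ) : ℝ) - a j : ℝ) : ℂ) * u (x + Pi.single i 1) +
      (((((x - Pi.single i 1 : Zd d) j : ℤ) : ℝ) - a j : ℝ) : ℂ) * u (x - Pi.single i 1)) =
      ∑ i ∈ Finset.univ.erase j, ((((x j : ℝ) - a j : ℝ) : ℂ) *
        (u (x + Pi.single i 1) + u (x - Pi.single i 1))) := by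
    refine Finset.sum_congr rfl fun i hi => ?_
    have hij : j ≠ i := (Finset.ne_of_mem_erase hi).symm
    rw [Pi.add_apply, Pi.sub_apply, Pi.single_eq_of_ne hij, add_zero, sub_zero]
    ring
  rw [h1]
  have h2 : (x + Pi.single j 1 : Zd d) j = x j + 1 := by
    rw [Pi.add_apply, Pi.single_eq_same]
  have h3 : (x - Pi.single j 1 : Zd d) j = x j - 1 := by
    rw [Pi.sub_apply, Pi.single_eq_same]
  simp only [h2, h3]
  push_cast
  ring

theorem diff_sum (u : Zd d → ℂ) (j : Fin d) (hu : Summable fun x => ‖u x‖ ^ 2) (B : ℝ)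
    (hB : 0 ≤ B) (huB : ∑' x, ‖u x‖ ^ 2 ≤ B ^ 2) :
    (Summable fun x : Zd d => ‖-(u (x + Pi.single j 1) - u (x - Pi.single j 1))‖ ^ 2) ∧
    ∑' x : Zd d, ‖-(u (x + Pi.single j 1) - u (x - Pi.single j 1))‖ ^ 2 ≤ (2 * B) ^ 2 := by
  obtain ⟨U, hU⟩ : ∃ U : HS d, U = hmk u hu := ⟨_, rfl⟩
  have hUx : ∀ x, U x = u x := fun x => by rw [hU]; rfl
  obtain ⟨T, hT⟩ : ∃ T : HS d, T = -(Tr (Pi.single j 1) U - Tr (-Pi.single j 1) U) := ⟨_, rfl⟩
  have hTx : ∀ x, T x = -(u (x + Pi.single j 1) - u (x - Pi.single j 1)) := by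
    intro x
    have h1 : T x = -(Tr (Pi.single j 1) U x - Tr (-Pi.single j 1) U x) := by rw [hT]; rfl
    rw [h1, Tr_apply, Tr_apply, hUx, hUx, sub_eq_add_neg x]
  have hTN := hs_sum T
  have h2 : ‖T‖ ≤ 2 * B := by
    rw [hT, norm_neg]
    refine (norm_sub_le _ _).trans ?_
    have h3 : ‖U‖ ≤ B := by
      rw [hU]
      exact hmk_le _ hu _ hB huB
    linarith [Tr_norm (Pi.single j 1) U, Tr_norm (-Pi.single j 1) U]
  have h4 : (fun x => ‖T x‖ ^ 2) =
      fun x => ‖-(u (x + Pi.single j 1) - u (x - Pi.single j 1))‖ ^ 2 := by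
    funext x
    rw [hTx]
  rw [h4] at hTN
  refine ⟨hTN.summable, ?_⟩
  rw [hTN.tsum_eq]
  exact pow_le_pow_left₀ (norm_nonneg _) h2 2

/-- **the second moment of the resolvent far from the spectrum** -/
theorem far {V : Zd d → ℝ} {a : Zd d} {e η δ : ℝ} {u : Zd d → ℂ} (h : Rs d V a e η u)
    (hη : 0 < η) (hη1 : η ≤ 1) (hδ : 0 < δ) (hV : ∀ x, 2 * (d : ℝ) + δ ≤ |V x - e|)
    (j : Fin d) : QM a j u ≤ 4 / δ ^ 4 := by
  have hWn : ∀ x, 2 * (d : ℝ) + δ ≤ ‖(V x : ℂ) - ((e : ℂ) + (η : ℂ) * Complex.I)‖ := by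
    intro x
    refine (hV x).trans ?_
    have h1 : ((V x : ℂ) - ((e : ℂ) + (η : ℂ) * Complex.I)).re = V x - e := by simp
    rw [← h1]
    exact Complex.abs_re_le_norm _
  -- the resolvent
  have hf1 : HasSum (fun x : Zd d => ‖if x = a then (1 : ℂ) else 0‖ ^ 2) 1 := by
    have := hasSum_single (f := fun x : Zd d => ‖if x = a then (1 : ℂ) else 0‖ ^ 2) a
      (fun x hx => by
        rw [if_neg hx]
        simp)
    simp only [if_true, norm_one, one_pow] at this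
    exact this
  have h1 := coer (W := fun x => (V x : ℂ) - ((e : ℂ) + (η : ℂ) * Complex.I)) (u := u)
    (f := fun x => if x = a then (1 : ℂ) else 0) (A := 1) hδ h.sq hf1.summable zero_le_one
    (by rw [hf1.tsum_eq]; norm_num) hWn (fun x => by
      rw [← h.eq x]
      ring)
  obtain ⟨s1, s2⟩ := diff_sum u j h.sq (1 / δ) (by positivity) h1
  have s3 := (QM_eq h (fun x => -V x) 0 1 (fun x => by ring) hη hη1 j).1
  have e3 : (fun x => ((x j : ℝ) - a j) ^ 2 * ‖u x‖ ^ 2) =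
      fun x => ‖(((x j : ℝ) - a j : ℝ) : ℂ) * u x‖ ^ 2 := by
    funext x
    rw [norm_mul, mul_pow, Complex.norm_real, Real.norm_eq_abs, sq_abs]
  rw [e3] at s3
  have h2 := coer (W := fun x => (V x : ℂ) - ((e : ℂ) + (η : ℂ) * Complex.I))
    (u := fun x => (((x j : ℝ) - a j : ℝ) : ℂ) * u x)
    (f := fun x => -(u (x + Pi.single j 1) - u (x - Pi.single j 1))) (A := 2 * (1 / δ)) hδ
    s3 s1 (by positivity) s2 hWn (fun x => by
      rw [S_coord]
      have h3 := h.eq x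
      by_cases hx : x = a
      · subst hx
        simp
      · rw [if_neg hx] at h3
        linear_combination (((x j : ℝ) - a j : ℝ) : ℂ) * h3)
  unfold QM
  rw [e3]
  refine h2.trans (le_of_eq ?_)
  field_simp
  norm_num

end Pool.Agent.Q62.QD
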