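import Pool.Agent.Q62.QD.Mass

/-! The boundary values of the free resolvent on the whole band. -/

set_option autoImplicit false
set_option linter.unusedSectionVars false

open scoped BigOperators Topology
open MeasureTheory Filter Set

namespace Pool.Agent.Q62.QD

open Pool.Agent.W788.BK
open Pool.Agent.H4R2.LO (Zd)
open Pool.Agent.TH794.QD
open Pool.Agent.TH794.QE
open Pool.Agent.TH794.HK

/-- the band -/
def Ba (d : ℕ) : Set ℝ := Ioo (-(2 * (d : ℝ))) (2 * d)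

theorem Sk_Ba (d : ℕ) (κ : ℝ) (hκ : 0 < κ) : Sk d κ ⊆ Ba d := by
  intro E hE
  have h := Sk_sub d κ hE
  exact ⟨by linarith [h.1], by linarith [h.2]⟩

theorem res_Sk (d : ℕ) (κ : ℝ) (hκ : 0 < κ) :
    (volume.restrict (Ba d)).restrict (Sk d κ) = volume.restrict (Sk d κ) := by
  rw [Measure.restrict_restrict (Sk_meas d κ), inter_eq_left.2 (Sk_Ba d κ hκ)]

theorem k_pos (n : ℕ) : 0 < 1 / ((n : ℝ) + 1) := by positivity

theorem k_le (n : ℕ) : 1 / ((n : ℝ) + 1) ≤ 1 := by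
  rw [div_le_one (by positivity)]
  have : (0 : ℝ) ≤ n := Nat.cast_nonneg n
  linarith

theorem mem_Sk_ev (d : ℕ) (hd : 2 ≤ d) (E : ℝ) (hE : E ∈ Ba d) (h0 : E ≠ 0) :
    ∀ᶠ n : ℕ in atTop, E ∈ Sk d (1 / ((n : ℝ) + 1)) := by
  have h1 : 0 < |E| := abs_pos.2 h0
  have h2 : 0 < 2 * (d : ℝ) - |E| := by
    have := abs_lt.2 ⟨hE.1, hE.2⟩
    linarith
  have l1 := tendsto_one_div_add_atTop_nhds_zero_nat (𝕜 := ℝ)
  filter_upwards [l1.eventually_le_const h1, l1.eventually_le_const h2] with n h3 h4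
  refine ⟨?_, by linarith⟩
  by_cases hd2 : d = 2
  · subst hd2
    refine Or.inl ⟨rfl, h3, ?_⟩
    push_cast at h4
    linarith
  · refine Or.inr ⟨by omega, ?_⟩
    have : (0 : ℝ) ≤ d := Nat.cast_nonneg d
    linarith [abs_nonneg E, k_pos n]

theorem cover (d : ℕ) (hd : 2 ≤ d) :
    AECover (volume.restrict (Ba d)) atTop fun n : ℕ => Sk d (1 / ((n : ℝ) + 1)) where
  ae_eventually_mem := by
    have h1 : ∀ᵐ E ∂(volume : Measure ℝ), E ≠ 0 := by
      rw [ae_iff]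
      simp
    filter_upwards [ae_restrict_mem (measurableSet_Ioo (a := -(2 * (d : ℝ))) (b := 2 * d)),
      ae_restrict_of_ae h1] with E h2 h3
    exact mem_Sk_ev d hd E h2 h3
  measurableSet n := Sk_meas d _

theorem G0_nn (hO : S_OSC) (d : ℕ) (hd : 2 ≤ d) :
    ∀ᵐ E ∂(volume.restrict (Ba d)), 0 ≤ (G1 d E).im ∧ (G1 d E).im ≤ (G0 d E).im ∧
      0 < (G0 d E).im := by
  filter_upwards [(cover d hd).ae_eventually_mem] with E hE
  obtain ⟨n, hn⟩ := hE.exists
  have h1 := bvals hO d hd _ (k_pos n) (k_le n) E hn.1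
  obtain ⟨m, hm, h2⟩ := G1_low hO d hd _ (k_pos n) (k_le n)
  exact ⟨h1.2.2.1, h1.2.2.2, hm.trans_le ((h2 E hn).trans h1.2.2.2)⟩

theorem G0_intB (hO : S_OSC) (d : ℕ) (hd : 2 ≤ d) :
    Integrable (fun E => (G0 d E).im) (volume.restrict (Ba d)) := by
  refine (cover d hd).integrable_of_integral_bounded_of_nonneg_ae Real.pi (fun n => ?_) ?_ ?_
  · unfold IntegrableOn
    rw [res_Sk d _ (k_pos n)]
    exact G0_int hO d hd _ (k_pos n) (k_le n)
  · filter_upwards [G0_nn hO d hd] with E hE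
    exact hE.2.2.le
  · refine Filter.Eventually.of_forall fun n => ?_
    rw [res_Sk d _ (k_pos n)]
    exact (mass hO d hd _ (k_pos n) (k_le n)).2

theorem G0_totB (hO : S_OSC) (d : ℕ) (hd : 2 ≤ d) : ∫ E in Ba d, (G0 d E).im ≤ Real.pi := by
  have l1 := (cover d hd).integral_tendsto_of_countably_generated (G0_intB hO d hd)
  refine le_of_tendsto l1 (Filter.Eventually.of_forall fun n => ?_)
  rw [res_Sk d _ (k_pos n)]
  exact (mass hO d hd _ (k_pos n) (k_le n)).2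

/-- **the mass near the exceptional energies** -/
theorem G0_rest (hO : S_OSC) (d : ℕ) (hd : 2 ≤ d) (κ : ℝ) (hκ : 0 < κ) (hκ1 : κ ≤ 1) :
    ∫ E in Ba d \ Sk d κ, (G0 d E).im ≤ Real.pi * (600 * (2 * κ) ^ (1 / 2 : ℝ)) := by
  have h1 := setIntegral_sdiff (Sk_meas d κ) (G0_intB hO d hd) (Sk_Ba d κ hκ)
  rw [h1]
  have h2 := G0_totB hO d hd
  have h3 := (mass hO d hd κ hκ hκ1).1
  linarith

/-- **the total mass** -/
theorem G0_tot (hO : S_OSC) (d : ℕ) (hd : 2 ≤ d) : ∫ E in Ba d, (G0 d E).im = Real.pi := by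
  refine le_antisymm (G0_totB hO d hd) ?_
  have l1 := (cover d hd).integral_tendsto_of_countably_generated (G0_intB hO d hd)
  have hc : Continuous fun κ : ℝ => Real.pi * (1 - 600 * (2 * κ) ^ (1 / 2 : ℝ)) := by
    have := Real.continuous_rpow_const (show (0 : ℝ) ≤ 1 / 2 by norm_num)
    fun_prop
  have l2 := (hc.tendsto 0).comp (tendsto_one_div_add_atTop_nhds_zero_nat (𝕜 := ℝ))
  rw [mul_zero, Real.zero_rpow (by norm_num), mul_zero, sub_zero, mul_one] at l2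
  refine le_of_tendsto_of_tendsto l2 l1 (Filter.Eventually.of_forall fun n => ?_)
  simp only [Function.comp]
  rw [res_Sk d _ (k_pos n)]
  exact (mass hO d hd _ (k_pos n) (k_le n)).1

/-- the diffusion constant -/
noncomputable def Dc (d : ℕ) (E : ℝ) : ℝ := (G1 d E).im / (G0 d E).im ^ 2

theorem G_meas (hO : S_OSC) (d : ℕ) (hd : 2 ≤ d) :
    AEMeasurable (fun E => (G0 d E).im) (volume.restrict (Ba d)) ∧
    AEMeasurable (fun E => (G1 d E).im) (volume.restrict (Ba d)) := by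
  refine ⟨(G0_intB hO d hd).aemeasurable, ?_⟩
  refine (cover d hd).aemeasurable fun n => ?_
  rw [res_Sk d _ (k_pos n)]
  exact (Complex.continuous_im.comp_continuousOn ((G1_cont hO d hd _ (k_pos n) (k_le n)).mono
    (Sk_Reg d _))).aemeasurable (Sk_meas d _)

theorem Dc_meas (hO : S_OSC) (d : ℕ) (hd : 2 ≤ d) :
    AEMeasurable (Dc d) (volume.restrict (Ba d)) := by
  obtain ⟨h0, h1⟩ := G_meas hO d hd
  unfold Dc
  exact h1.div (h0.pow_const 2)

theorem Dc_nn (hO : S_OSC) (d : ℕ) (hd : 2 ≤ d) :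
    ∀ᵐ E ∂(volume.restrict (Ba d)), 0 ≤ Dc d E := by
  filter_upwards [G0_nn hO d hd] with E hE
  exact div_nonneg hE.1 (sq_nonneg _)

end Pool.Agent.Q62.QD
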