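import Pool.Agent.Q62.QD.Full
import Pool.Agent.Q62.QD.Chr
import Pool.Agent.Q62.QD.Expd

/-! From the resolvent to time averages of the evolution. -/

set_option autoImplicit false
set_option linter.unusedSectionVars false

open scoped BigOperators Topology
open MeasureTheory Filter Set

namespace Pool.Agent.Q62.QD

open Pool.Agent.W788.BK
open Pool.Agent.W788.LD.Spec (S)
open Pool.Agent.H4R2.LO (Zd)
open Pool.Agent.TH794.QD
open Pool.Agent.TH794.QE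
open Pool.Agent.TH794.HK

variable {d : ℕ} {V : Zd d → ℝ} {a : Zd d} {ψ : ℝ → Zd d → ℂ}

theorem Xw_I (w u : Zd d → ℂ) : Xw w (fun x => Complex.I * u x) = Xw w u := by
  unfold Xw
  refine tsum_congr fun x => ?_
  rw [norm_mul, Complex.norm_I, one_mul]

/-- **the Laplace transform of the characteristic function of the evolution** -/
theorem lap1 (hO : S_OSC) (hd : 2 ≤ d) (κ : ℝ) (hκ : 0 < κ) (hκ1 : κ ≤ 1)
    (h : Sol d V a ψ) (z0 η δ : ℝ) (hη : 0 < η) (hδ : 0 ≤ δ) (w : Zd d → ℂ)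
    (hw : ∀ x, ‖w x‖ ≤ 1) (T : ℝ → ℝ) (hT : IntegrableOn T (Sk d κ))
    (h1 : ∀ E ∈ Sk d κ, ∀ u, Rs d V a (z0 - E) η u → ‖(η : ℂ) * Xw w u - ((T E : ℝ) : ℂ)‖ ≤ δ)
    (h0 : ∀ E ∈ Sk d κ, ∀ u, Rs d V a (z0 - E) η u →
      |η * ∑' x, ‖u x‖ ^ 2 - (G0 d E).im| ≤ δ) :
    ‖((2 * η : ℝ) : ℂ) * (∫ s in Ioi (0 : ℝ), (Real.exp (-(2 * η) * s) : ℂ) * Xw w (ψ s)) -
      ((1 / Real.pi * ∫ E in Sk d κ, T E : ℝ) : ℂ)‖ ≤
      3 * d * δ + 600 * (2 * κ) ^ (1 / 2 : ℝ) := by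
  have hpi := Real.pi_gt_three
  have hpi0 := Real.pi_pos
  have hm := Sk_meas d κ
  have hfin : volume (Sk d κ) < ⊤ := (Sk_compact d κ).measure_lt_top
  have hvol := vol_Sk d κ hκ
  have hRs : ∀ E, Rs d V a (z0 - E) η (fun x => Complex.I * La ψ (z0 - E) η x) := fun E =>
    ⟨La_sum h _ η hη, La_eq h _ η hη⟩
  -- the functions of the energy
  obtain ⟨F, hF⟩ : ∃ F : ℝ → ℂ, F = fun E => (η : ℂ) * Xw w (La ψ (z0 - E) η) := ⟨_, rfl⟩
  obtain ⟨Y, hY⟩ : ∃ Y : ℝ → ℝ, Y = fun E => η * ∑' x, ‖La ψ (z0 - E) η x‖ ^ 2 := ⟨_, rfl⟩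
  have hFi : Integrable F := by
    rw [hF]
    exact ((XE_int h η hη w hw).comp_sub_left z0).const_mul _
  obtain ⟨m1, m2⟩ := mass_planch h η hη
  have hYi : Integrable Y := by
    rw [hY]
    exact (m1.comp_sub_left z0).const_mul _
  have hYv : ∫ E, Y E = Real.pi := by
    rw [hY, integral_const_mul,
      integral_sub_left_eq_self (fun E => ∑' x, ‖La ψ E η x‖ ^ 2) volume z0, m2]
    field_simp
  have hFv : ∫ E, F E = (Real.pi : ℂ) * (((2 * η : ℝ) : ℂ) *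
      ∫ s in Ioi (0 : ℝ), (Real.exp (-(2 * η) * s) : ℂ) * Xw w (ψ s)) := by
    rw [hF, integral_const_mul,
      integral_sub_left_eq_self (fun E => Xw w (La ψ E η)) volume z0, chr_planch h η hη w hw]
    push_cast
    ring
  have hFY : ∀ E, ‖F E‖ ≤ Y E := by
    intro E
    rw [hF, hY]
    simp only
    rw [norm_mul, Complex.norm_real, Real.norm_eq_abs, abs_of_pos hη]
    refine mul_le_mul_of_nonneg_left ?_ hη.le
    refine Xw_le w _ hw ?_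
    have := La_sum h (z0 - E) η hη
    simpa [norm_mul] using this
  -- the bulk
  have hb1 : ‖∫ E in Sk d κ, (F E - ((T E : ℝ) : ℂ))‖ ≤ δ * (4 * d) := by
    refine (norm_setIntegral_le_of_norm_le_const hfin (C := δ) fun E hE => ?_).trans ?_
    · have h2 := h1 E hE _ (hRs E)
      rw [Xw_I] at h2
      rw [hF]
      exact h2
    · exact mul_le_mul_of_nonneg_left hvol hδ
  have hb2 : |∫ E in Sk d κ, (Y E - (G0 d E).im)| ≤ δ * (4 * d) := by
    rw [← Real.norm_eq_abs]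
    refine (norm_setIntegral_le_of_norm_le_const hfin (C := δ) fun E hE => ?_).trans ?_
    · have h2 := h0 E hE _ (hRs E)
      simp only [norm_mul, Complex.norm_I, one_mul] at h2
      rw [hY, Real.norm_eq_abs]
      exact h2
    · exact mul_le_mul_of_nonneg_left hvol hδ
  rw [integral_sub hYi.integrableOn (G0_int hO d hd κ hκ hκ1)] at hb2
  have hTc : IntegrableOn (fun E => ((T E : ℝ) : ℂ)) (Sk d κ) := hT.ofReal
  rw [integral_sub hFi.integrableOn hTc, integral_complex_ofReal] at hb1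
  have hmass := (mass hO d hd κ hκ hκ1).1
  -- the rest
  have hr : ‖∫ E in (Sk d κ)ᶜ, F E‖ ≤
      Real.pi * (600 * (2 * κ) ^ (1 / 2 : ℝ)) + δ * (4 * d) := by
    have h2 : ‖∫ E in (Sk d κ)ᶜ, F E‖ ≤ ∫ E in (Sk d κ)ᶜ, Y E :=
      norm_integral_le_of_norm_le hYi.integrableOn (Filter.Eventually.of_forall hFY)
    have h3 := integral_add_compl hm hYi
    rw [hYv] at h3
    have h4 := (abs_le.1 hb2).1
    linarith
  have hsplit := integral_add_compl hm hFi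
  rw [hFv] at hsplit
  obtain ⟨A, hA⟩ : ∃ A : ℂ, A = ((2 * η : ℝ) : ℂ) *
    ∫ s in Ioi (0 : ℝ), (Real.exp (-(2 * η) * s) : ℂ) * Xw w (ψ s) := ⟨_, rfl⟩
  rw [← hA] at hsplit ⊢
  obtain ⟨B, hB⟩ : ∃ B : ℝ, B = ∫ E in Sk d κ, T E := ⟨_, rfl⟩
  rw [← hB] at hb1 ⊢
  obtain ⟨I1, hI1⟩ : ∃ I1 : ℂ, I1 = ∫ E in Sk d κ, F E := ⟨_, rfl⟩
  obtain ⟨I2, hI2⟩ : ∃ I2 : ℂ, I2 = ∫ E in (Sk d κ)ᶜ, F E := ⟨_, rfl⟩
  rw [← hI1] at hb1 hsplit
  rw [← hI2] at hr hsplit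
  have h5 : (Real.pi : ℂ) ≠ 0 := by exact_mod_cast hpi0.ne'
  have h6 : A - ((1 / Real.pi * B : ℝ) : ℂ) = (1 / Real.pi : ℝ) * ((I1 - (B : ℂ)) + I2) := by
    have h7 : A = (1 / Real.pi : ℝ) * (I1 + I2) := by
      rw [hsplit]
      push_cast
      field_simp
    rw [h7]
    push_cast
    ring
  rw [h6, norm_mul, Complex.norm_real, Real.norm_eq_abs, abs_of_pos (by positivity)]
  have h8 : ‖(I1 - (B : ℂ)) + I2‖ ≤ Real.pi * (600 * (2 * κ) ^ (1 / 2 : ℝ)) + 8 * d * δ := by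
    refine (norm_add_le _ _).trans ?_
    linarith
  calc 1 / Real.pi * ‖(I1 - (B : ℂ)) + I2‖ ≤
      1 / Real.pi * (Real.pi * (600 * (2 * κ) ^ (1 / 2 : ℝ)) + 8 * d * δ) := by gcongr
    _ = 600 * (2 * κ) ^ (1 / 2 : ℝ) + 8 / Real.pi * (d * δ) := by
        field_simp
    _ ≤ 600 * (2 * κ) ^ (1 / 2 : ℝ) + 3 * (d * δ) := by
        have h9 : 8 / Real.pi ≤ 3 := by
          rw [div_le_iff₀ hpi0]
          linarith
        have : 0 ≤ (d : ℝ) * δ := by positivity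
        nlinarith
    _ = _ := by ring

end Pool.Agent.Q62.QD
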