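import Pool.Agent.Q62.QD.Lap1

/-! From the Laplace transform to general time averages. -/

set_option autoImplicit false
set_option linter.unusedSectionVars false

open scoped BigOperators Topology Polynomial
open MeasureTheory Filter Set

namespace Pool.Agent.Q62.QD

open Pool.Agent.W788.BK
open Pool.Agent.W788.LD.Spec (S)
open Pool.Agent.H4R2.LO (Zd)
open Pool.Agent.TH794.QD
open Pool.Agent.TH794.QE
open Pool.Agent.TH794.HK

variable {d : ℕ} {V : Zd d → ℝ} {a : Zd d} {ψ : ℝ → Zd d → ℂ}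

/-- Fubini for mixtures of exponentials -/
theorem mix (μ : Measure ℝ) [SFinite μ] (f D : ℝ → ℝ) (hf : Integrable f μ)
    (hD : AEMeasurable D μ) (hD0 : ∀ᵐ E ∂μ, 0 ≤ D E) (k : ℝ) (hk : 0 < k) :
    ∫ τ in Ioi (0 : ℝ), Real.exp (-k * τ) * ∫ E, f E * Real.exp (-D E * τ) ∂μ =
      ∫ E, f E / (k + D E) ∂μ := by
  have h1 : ∀ τ : ℝ, Real.exp (-k * τ) * ∫ E, f E * Real.exp (-D E * τ) ∂μ =
      ∫ E, Real.exp (-k * τ) * (f E * Real.exp (-D E * τ)) ∂μ := fun τ =>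
    (integral_const_mul _ _).symm
  simp only [h1]
  rw [integral_integral_swap]
  · refine integral_congr_ae ?_
    filter_upwards [hD0] with E hE
    have h2 : ∀ τ : ℝ, Real.exp (-k * τ) * (f E * Real.exp (-D E * τ)) =
        f E * Real.exp (-(k + D E) * τ) := by
      intro τ
      have h3 : -(k + D E) * τ = -k * τ + -D E * τ := by ring
      rw [h3, Real.exp_add]
      ring
    simp only [h2]
    rw [integral_const_mul, exp_val _ (by linarith), div_eq_mul_inv]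
  · have hb : Integrable (fun z : ℝ × ℝ => Real.exp (-k * z.1) * f z.2)
        ((volume.restrict (Ioi (0 : ℝ))).prod μ) := (exp_int k hk).mul_prod hf
    refine hb.mono ?_ ?_
    · unfold Function.uncurry
      have m1 : AEMeasurable (fun z : ℝ × ℝ => f z.2) ((volume.restrict (Ioi (0 : ℝ))).prod μ) :=
        hf.aemeasurable.comp_snd
      have m2 : AEMeasurable (fun z : ℝ × ℝ => D z.2) ((volume.restrict (Ioi (0 : ℝ))).prod μ) :=
        hD.comp_snd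
      have m3 : Measurable fun z : ℝ × ℝ => Real.exp (-k * z.1) := by fun_prop
      have m4 : Measurable fun z : ℝ × ℝ => z.1 := measurable_fst
      exact (m3.aemeasurable.mul (m1.mul (m2.neg.mul m4.aemeasurable).exp)).aestronglyMeasurable
    · have h4 : ∀ᵐ z ∂((volume.restrict (Ioi (0 : ℝ))).prod μ), z.1 ∈ Ioi (0 : ℝ) :=
        Measure.quasiMeasurePreserving_fst.ae (ae_restrict_mem measurableSet_Ioi)
      have h5 : ∀ᵐ z ∂((volume.restrict (Ioi (0 : ℝ))).prod μ), 0 ≤ D z.2 :=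
        Measure.quasiMeasurePreserving_snd.ae hD0
      filter_upwards [h4, h5] with z hz1 hz2
      have hz3 : (0 : ℝ) < z.1 := hz1
      unfold Function.uncurry
      rw [norm_mul, norm_mul, norm_mul]
      refine mul_le_mul_of_nonneg_left ?_ (norm_nonneg _)
      refine mul_le_of_le_one_right (norm_nonneg _) ?_
      rw [Real.norm_eq_abs, abs_of_pos (Real.exp_pos _)]
      refine Real.exp_le_one_iff.2 ?_
      rw [neg_mul, neg_nonpos]
      positivity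

/-- the limit -/
noncomputable def Nq (d : ℕ) (Q τ : ℝ) : ℝ :=
  1 / Real.pi * ∫ E in Ba d, (G0 d E).im * Real.exp (-(2 * Q * Dc d E) * τ)

theorem Nq_lap (hO : S_OSC) (d : ℕ) (hd : 2 ≤ d) (Q : ℝ) (hQ : 0 ≤ Q) (k : ℝ) (hk : 0 < k) :
    ∫ τ in Ioi (0 : ℝ), Real.exp (-k * τ) * Nq d Q τ =
      1 / Real.pi * ∫ E in Ba d, (G0 d E).im / (k + 2 * Q * Dc d E) := by
  have h1 := mix (volume.restrict (Ba d)) (fun E => (G0 d E).im) (fun E => 2 * Q * Dc d E)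
    (G0_intB hO d hd) ((Dc_meas hO d hd).const_mul _)
    (by filter_upwards [Dc_nn hO d hd] with E hE; positivity) k hk
  rw [← h1, ← integral_const_mul]
  refine integral_congr_ae (Filter.Eventually.of_forall fun τ => ?_)
  simp only
  unfold Nq
  ring

theorem Nq_meas (d : ℕ) (Q : ℝ) (hO : S_OSC) (hd : 2 ≤ d) :
    AEStronglyMeasurable (Nq d Q) (volume.restrict (Ioi (0 : ℝ))) := by
  unfold Nq
  refine AEStronglyMeasurable.const_mul ?_ _
  have m1 : AEMeasurable (fun z : ℝ × ℝ => (G0 d z.2).im)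
      ((volume.restrict (Ioi (0 : ℝ))).prod (volume.restrict (Ba d))) :=
    (G0_intB hO d hd).aemeasurable.comp_snd
  have m2 : AEMeasurable (fun z : ℝ × ℝ => Dc d z.2)
      ((volume.restrict (Ioi (0 : ℝ))).prod (volume.restrict (Ba d))) :=
    (Dc_meas hO d hd).comp_snd
  have m4 : Measurable fun z : ℝ × ℝ => z.1 := measurable_fst
  have m5 : AEStronglyMeasurable (fun z : ℝ × ℝ => (G0 d z.2).im *
      Real.exp (-(2 * Q * Dc d z.2) * z.1))
      ((volume.restrict (Ioi (0 : ℝ))).prod (volume.restrict (Ba d))) :=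
    (m1.mul ((m2.const_mul (2 * Q)).neg.mul m4.aemeasurable).exp).aestronglyMeasurable
  exact m5.integral_prod_right'

theorem Nq_bd (hO : S_OSC) (d : ℕ) (hd : 2 ≤ d) (Q : ℝ) (hQ : 0 ≤ Q) (τ : ℝ) (hτ : 0 ≤ τ) :
    0 ≤ Nq d Q τ ∧ Nq d Q τ ≤ 1 := by
  have hpi := Real.pi_pos
  have hnn := G0_nn hO d hd
  have hD := Dc_nn hO d hd
  unfold Nq
  constructor
  · refine mul_nonneg (by positivity) (integral_nonneg_of_ae ?_)
    filter_upwards [hnn] with E hE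
    exact mul_nonneg hE.2.2.le (Real.exp_pos _).le
  · have h1 : ∫ E in Ba d, (G0 d E).im * Real.exp (-(2 * Q * Dc d E) * τ) ≤
        ∫ E in Ba d, (G0 d E).im := by
      refine integral_mono_of_nonneg ?_ (G0_intB hO d hd) ?_
      · filter_upwards [hnn] with E hE
        exact mul_nonneg hE.2.2.le (Real.exp_pos _).le
      · filter_upwards [hnn, hD] with E hE hDE
        refine mul_le_of_le_one_right hE.2.2.le (Real.exp_le_one_iff.2 ?_)
        rw [neg_mul, neg_nonpos]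
        positivity
    calc 1 / Real.pi * ∫ E in Ba d, (G0 d E).im * Real.exp (-(2 * Q * Dc d E) * τ) ≤
        1 / Real.pi * Real.pi := by
          gcongr
          exact h1.trans (G0_totB hO d hd)
      _ = 1 := by field_simp

/-- rescaling the time -/
theorem resc (w : Zd d → ℂ) (T0 k : ℝ) (hT0 : 0 < T0) :
    ((2 * (k / (2 * T0)) : ℝ) : ℂ) *
      (∫ s in Ioi (0 : ℝ), (Real.exp (-(2 * (k / (2 * T0))) * s) : ℂ) * Xw w (ψ s)) =
    (k : ℂ) * ∫ τ in Ioi (0 : ℝ), (Real.exp (-k * τ) : ℂ) * Xw w (ψ (T0 * τ)) := by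
  have h1 := integral_comp_mul_left_Ioi
    (fun s => (Real.exp (-(2 * (k / (2 * T0))) * s) : ℂ) * Xw w (ψ s)) 0 hT0
  rw [mul_zero] at h1
  have h2 : ∀ τ : ℝ, Real.exp (-(2 * (k / (2 * T0))) * (T0 * τ)) = Real.exp (-k * τ) := by
    intro τ
    congr 1
    field_simp
  simp only [h2] at h1
  rw [h1]
  simp only [Complex.real_smul]
  have h3 : (T0 : ℂ) ≠ 0 := by exact_mod_cast hT0.ne'
  push_cast
  field_simp

/-- the target of the resolvent -/
noncomputable def Tk (d : ℕ) (Q k E : ℝ) : ℝ := (G0 d E).im / (1 + 2 * Q / k * Dc d E)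

theorem Tk_meas (hO : S_OSC) (d : ℕ) (hd : 2 ≤ d) (Q k : ℝ) :
    AEMeasurable (Tk d Q k) (volume.restrict (Ba d)) := by
  unfold Tk
  exact (G0_intB hO d hd).aemeasurable.div (((Dc_meas hO d hd).const_mul _).const_add _)

theorem Tk_bd (hO : S_OSC) (d : ℕ) (hd : 2 ≤ d) (Q k : ℝ) (hQ : 0 ≤ Q) (hk : 0 < k) :
    ∀ᵐ E ∂(volume.restrict (Ba d)), 0 ≤ Tk d Q k E ∧ Tk d Q k E ≤ (G0 d E).im := by
  filter_upwards [G0_nn hO d hd, Dc_nn hO d hd] with E h1 h2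
  have h3 : 0 ≤ 2 * Q / k * Dc d E := by positivity
  unfold Tk
  exact ⟨div_nonneg h1.2.2.le (by linarith), div_le_self h1.2.2.le (by linarith)⟩

theorem Tk_int (hO : S_OSC) (d : ℕ) (hd : 2 ≤ d) (Q k : ℝ) (hQ : 0 ≤ Q) (hk : 0 < k) :
    Integrable (Tk d Q k) (volume.restrict (Ba d)) := by
  refine (G0_intB hO d hd).mono' (Tk_meas hO d hd Q k).aestronglyMeasurable ?_
  filter_upwards [Tk_bd hO d hd Q k hQ hk] with E hE
  rw [Real.norm_eq_abs, abs_of_nonneg hE.1]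
  exact hE.2

/-- **one exponential** -/
theorem one_exp (hO : S_OSC) (hd : 2 ≤ d) (κ : ℝ) (hκ : 0 < κ) (hκ1 : κ ≤ 1)
    (h : Sol d V a ψ) (z0 T0 δ Q k : ℝ) (hT0 : 0 < T0) (hδ : 0 ≤ δ) (hQ : 0 ≤ Q) (hk : 1 ≤ k)
    (w : Zd d → ℂ) (hw : ∀ x, ‖w x‖ ≤ 1)
    (h1 : ∀ E ∈ Sk d κ, ∀ u, Rs d V a (z0 - E) (k / (2 * T0)) u →
      ‖((k / (2 * T0) : ℝ) : ℂ) * Xw w u - ((Tk d Q k E : ℝ) : ℂ)‖ ≤ δ)
    (h0 : ∀ E ∈ Sk d κ, ∀ u, Rs d V a (z0 - E) (k / (2 * T0)) u →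
      |k / (2 * T0) * ∑' x, ‖u x‖ ^ 2 - (G0 d E).im| ≤ δ) :
    ‖(∫ τ in Ioi (0 : ℝ), (Real.exp (-k * τ) : ℂ) * Xw w (ψ (T0 * τ))) -
      ((∫ τ in Ioi (0 : ℝ), Real.exp (-k * τ) * Nq d Q τ : ℝ) : ℂ)‖ ≤
      3 * d * δ + 1200 * (2 * κ) ^ (1 / 2 : ℝ) := by
  have hk0 : 0 < k := by linarith
  have hpi0 := Real.pi_pos
  have hTi := Tk_int hO d hd Q k hQ hk0
  have hTS : IntegrableOn (Tk d Q k) (Sk d κ) := by
    have := hTi.integrableOn (s := Sk d κ)
    unfold IntegrableOn at this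
    rwa [res_Sk d κ hκ] at this
  have h2 := lap1 hO hd κ hκ hκ1 h z0 (k / (2 * T0)) δ (by positivity) hδ w hw (Tk d Q k) hTS h1 h0
  rw [resc w T0 k hT0] at h2
  -- the target on the whole band
  have h3 := setIntegral_sdiff (Sk_meas d κ) hTi (Sk_Ba d κ hκ)
  have h4 : 0 ≤ ∫ E in Ba d \ Sk d κ, Tk d Q k E := by
    refine integral_nonneg_of_ae ?_
    exact (ae_restrict_of_ae_restrict_of_subset sdiff_subset (Tk_bd hO d hd Q k hQ hk0)).mono
      fun E hE => hE.1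
  have h5 : ∫ E in Ba d \ Sk d κ, Tk d Q k E ≤ Real.pi * (600 * (2 * κ) ^ (1 / 2 : ℝ)) := by
    refine le_trans ?_ (G0_rest hO d hd κ hκ hκ1)
    refine integral_mono_ae
      (Integrable.mono_measure hTi (Measure.restrict_mono sdiff_subset le_rfl))
      (Integrable.mono_measure (G0_intB hO d hd) (Measure.restrict_mono sdiff_subset le_rfl)) ?_
    exact (ae_restrict_of_ae_restrict_of_subset sdiff_subset (Tk_bd hO d hd Q k hQ hk0)).mono
      fun E hE => hE.2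
  have h6 : k * ∫ τ in Ioi (0 : ℝ), Real.exp (-k * τ) * Nq d Q τ =
      1 / Real.pi * ∫ E in Ba d, Tk d Q k E := by
    rw [Nq_lap hO d hd Q hQ k hk0]
    have h7 : ∀ᵐ E ∂(volume.restrict (Ba d)),
        k * ((G0 d E).im / (k + 2 * Q * Dc d E)) = Tk d Q k E := by
      filter_upwards [Dc_nn hO d hd] with E hE
      unfold Tk
      have h8 : 0 < k + 2 * Q * Dc d E := by positivity
      have h9 : 0 < 1 + 2 * Q / k * Dc d E := by positivity
      field_simp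
    rw [← integral_congr_ae h7, integral_const_mul]
    ring
  obtain ⟨A, hA⟩ : ∃ A : ℂ, A = ∫ τ in Ioi (0 : ℝ), (Real.exp (-k * τ) : ℂ) * Xw w (ψ (T0 * τ)) :=
    ⟨_, rfl⟩
  obtain ⟨B, hB⟩ : ∃ B : ℝ, B = ∫ τ in Ioi (0 : ℝ), Real.exp (-k * τ) * Nq d Q τ := ⟨_, rfl⟩
  rw [← hA] at h2 ⊢
  rw [← hB] at h6 ⊢
  obtain ⟨I1, hI1⟩ : ∃ I1 : ℝ, I1 = ∫ E in Sk d κ, Tk d Q k E := ⟨_, rfl⟩
  obtain ⟨I2, hI2⟩ : ∃ I2 : ℝ, I2 = ∫ E in Ba d, Tk d Q k E := ⟨_, rfl⟩
  rw [← hI1] at h2 h3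
  rw [← hI2] at h3 h6
  rw [h3] at h4 h5
  have h7 : (k : ℂ) * (A - (B : ℂ)) = ((k : ℂ) * A - ((1 / Real.pi * I1 : ℝ) : ℂ)) +
      ((1 / Real.pi * (I1 - I2) : ℝ) : ℂ) := by
    have h8 : (k : ℂ) * (B : ℂ) = ((1 / Real.pi * I2 : ℝ) : ℂ) := by
      rw [← h6]
      push_cast
      ring
    rw [mul_sub, h8]
    push_cast
    ring
  have h8 : ‖(k : ℂ) * (A - (B : ℂ))‖ ≤ 3 * d * δ + 1200 * (2 * κ) ^ (1 / 2 : ℝ) := by
    rw [h7]
    refine (norm_add_le _ _).trans ?_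
    have h9 : ‖((1 / Real.pi * (I1 - I2) : ℝ) : ℂ)‖ ≤ 600 * (2 * κ) ^ (1 / 2 : ℝ) := by
      rw [Complex.norm_real, Real.norm_eq_abs, abs_mul, abs_of_pos (by positivity : 0 < 1 / Real.pi),
        abs_sub_comm, abs_of_nonneg h4]
      calc 1 / Real.pi * (I2 - I1) ≤ 1 / Real.pi * (Real.pi * (600 * (2 * κ) ^ (1 / 2 : ℝ))) := by
            gcongr
        _ = _ := by field_simp
    linarith
  rw [norm_mul, Complex.norm_real, Real.norm_eq_abs, abs_of_pos hk0] at h8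
  have h9 : 1 * ‖A - (B : ℂ)‖ ≤ k * ‖A - (B : ℂ)‖ := by gcongr
  linarith

end Pool.Agent.Q62.QD
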