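import Pool.Agent.Q62.QD.Lap2

/-! General time averages of the evolution. -/

set_option autoImplicit false
set_option linter.unusedSectionVars false

open scoped BigOperators Topology Polynomial
open MeasureTheory Filter Set

namespace Pool.Agent.Q62.QD

open Pool.Agent.W788.BK
open Pool.Agent.W788.LD.Spec (S)
open Pool.Agent.H4R2.LO (Zd)
open Pool.Agent.TH794.QD
open Pool.Agent.TH794.QE
open Pool.Agent.TH794.HK

variable {d : ℕ} {V : Zd d → ℝ} {a : Zd d} {ψ : ℝ → Zd d → ℂ}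

theorem X_meas (h : Sol d V a ψ) (w : Zd d → ℂ) (T0 : ℝ) :
    Measurable fun τ : ℝ => Xw w (ψ (T0 * τ)) := by
  unfold Xw
  refine Measurable.tsum fun x => ?_
  have h1 := h.cont x
  have h2 : Continuous fun τ : ℝ => ψ (T0 * τ) x := h1.comp (by fun_prop)
  exact (Continuous.mul continuous_const
    (Complex.continuous_ofReal.comp (h2.norm.pow 2))).measurable

theorem X_bd (h : Sol d V a ψ) (w : Zd d → ℂ) (hw : ∀ x, ‖w x‖ ≤ 1) (s : ℝ) :
    ‖Xw w (ψ s)‖ ≤ 1 := by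
  refine (Xw_le w _ hw (h.norm s).summable).trans (le_of_eq (h.norm s).tsum_eq)

/-- **general time averages** -/
theorem avg (hO : S_OSC) (hd : 2 ≤ d) (κ : ℝ) (hκ : 0 < κ) (hκ1 : κ ≤ 1)
    (h : Sol d V a ψ) (z0 T0 δ Q : ℝ) (hT0 : 0 < T0) (hδ : 0 ≤ δ) (hQ : 0 ≤ Q)
    (w : Zd d → ℂ) (hw : ∀ x, ‖w x‖ ≤ 1) (p : ℝ[X]) (φ : ℝ → ℝ) (hφ : IntegrableOn φ (Ioi 0))
    (ε1 : ℝ) (hp1 : IntegrableOn (fun τ => φ τ - Real.exp (-τ) * p.eval (Real.exp (-τ))) (Ioi 0))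
    (hp2 : ∫ τ in Ioi (0 : ℝ), |φ τ - Real.exp (-τ) * p.eval (Real.exp (-τ))| ≤ ε1)
    (h1 : ∀ j ∈ Finset.range (p.natDegree + 1), ∀ E ∈ Sk d κ, ∀ u,
      Rs d V a (z0 - E) (((j : ℝ) + 1) / (2 * T0)) u →
      ‖(((((j : ℝ) + 1) / (2 * T0) : ℝ)) : ℂ) * Xw w u - ((Tk d Q ((j : ℝ) + 1) E : ℝ) : ℂ)‖ ≤ δ)
    (h0 : ∀ j ∈ Finset.range (p.natDegree + 1), ∀ E ∈ Sk d κ, ∀ u,
      Rs d V a (z0 - E) (((j : ℝ) + 1) / (2 * T0)) u →
      |((j : ℝ) + 1) / (2 * T0) * ∑' x, ‖u x‖ ^ 2 - (G0 d E).im| ≤ δ) :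
    ‖(∫ τ in Ioi (0 : ℝ), (φ τ : ℂ) * Xw w (ψ (T0 * τ))) -
      ((∫ τ in Ioi (0 : ℝ), φ τ * Nq d Q τ : ℝ) : ℂ)‖ ≤
      2 * ε1 + (∑ j ∈ Finset.range (p.natDegree + 1), |p.coeff j|) *
        (3 * d * δ + 1200 * (2 * κ) ^ (1 / 2 : ℝ)) := by
  obtain ⟨Y, hY⟩ : ∃ Y : ℝ → ℂ, Y = fun τ => Xw w (ψ (T0 * τ)) - ((Nq d Q τ : ℝ) : ℂ) := ⟨_, rfl⟩
  have hXm := (X_meas h w T0).aestronglyMeasurable (μ := volume.restrict (Ioi (0 : ℝ)))
  have hNm := Nq_meas d Q hO hd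
  have hNc : AEStronglyMeasurable (fun τ => ((Nq d Q τ : ℝ) : ℂ)) (volume.restrict (Ioi (0 : ℝ))) :=
    Complex.continuous_ofReal.comp_aestronglyMeasurable hNm
  have hYm : AEStronglyMeasurable Y (volume.restrict (Ioi (0 : ℝ))) := by
    rw [hY]
    exact hXm.sub hNc
  have hNb : ∀ᵐ τ ∂(volume.restrict (Ioi (0 : ℝ))), ‖((Nq d Q τ : ℝ) : ℂ)‖ ≤ 1 := by
    filter_upwards [ae_restrict_mem measurableSet_Ioi] with τ hτ
    have h2 := Nq_bd hO d hd Q hQ τ (le_of_lt hτ)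
    rw [Complex.norm_real, Real.norm_eq_abs, abs_of_nonneg h2.1]
    exact h2.2
  have hYb : ∀ᵐ τ ∂(volume.restrict (Ioi (0 : ℝ))), ‖Y τ‖ ≤ 2 := by
    filter_upwards [hNb] with τ hτ
    rw [hY]
    refine (norm_sub_le _ _).trans ?_
    have := X_bd h w hw (T0 * τ)
    linarith
  -- integrability of products
  have hmul : ∀ g : ℝ → ℝ, IntegrableOn g (Ioi 0) → ∀ Z : ℝ → ℂ,
      AEStronglyMeasurable Z (volume.restrict (Ioi (0 : ℝ))) → ∀ C : ℝ,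
      (∀ᵐ τ ∂(volume.restrict (Ioi (0 : ℝ))), ‖Z τ‖ ≤ C) →
      IntegrableOn (fun τ => ((g τ : ℝ) : ℂ) * Z τ) (Ioi 0) := by
    intro g hg Z hZm C hZb
    exact hg.ofReal.mul_bdd hZm hZb
  have hXb : ∀ᵐ τ ∂(volume.restrict (Ioi (0 : ℝ))), ‖Xw w (ψ (T0 * τ))‖ ≤ 1 :=
    Filter.Eventually.of_forall fun τ => X_bd h w hw _
  have e1 : (∫ τ in Ioi (0 : ℝ), (φ τ : ℂ) * Xw w (ψ (T0 * τ))) -
      ((∫ τ in Ioi (0 : ℝ), φ τ * Nq d Q τ : ℝ) : ℂ) =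
      ∫ τ in Ioi (0 : ℝ), ((φ τ : ℝ) : ℂ) * Y τ := by
    rw [← integral_complex_ofReal]
    simp only [Complex.ofReal_mul]
    rw [← integral_sub (hmul φ hφ _ hXm 1 hXb) (hmul φ hφ _ hNc 1 hNb)]
    refine integral_congr_ae (Filter.Eventually.of_forall fun τ => ?_)
    simp only
    rw [hY]
    ring
  rw [e1]
  -- the polynomial
  have hexp : ∀ j : ℕ, IntegrableOn (fun τ : ℝ => Real.exp (-((j : ℝ) + 1) * τ)) (Ioi 0) :=
    fun j => exp_int ((j : ℝ) + 1) (by positivity)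
  have hP : ∀ τ : ℝ, Real.exp (-τ) * p.eval (Real.exp (-τ)) =
      ∑ j ∈ Finset.range (p.natDegree + 1), p.coeff j * Real.exp (-((j : ℝ) + 1) * τ) := by
    intro τ
    rw [Polynomial.eval_eq_sum_range, Finset.mul_sum]
    refine Finset.sum_congr rfl fun j _ => ?_
    have h3 : -((j : ℝ) + 1) * τ = -τ + (j : ℝ) * (-τ) := by ring
    rw [h3, Real.exp_add, Real.exp_nat_mul]
    ring
  have e2 : ∀ τ : ℝ, ((φ τ : ℝ) : ℂ) * Y τ =
      ((φ τ - Real.exp (-τ) * p.eval (Real.exp (-τ)) : ℝ) : ℂ) * Y τ +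
      ∑ j ∈ Finset.range (p.natDegree + 1),
        (p.coeff j : ℂ) * (((Real.exp (-((j : ℝ) + 1) * τ) : ℝ) : ℂ) * Y τ) := by
    intro τ
    have h4 : φ τ = (φ τ - Real.exp (-τ) * p.eval (Real.exp (-τ))) +
        ∑ j ∈ Finset.range (p.natDegree + 1), p.coeff j * Real.exp (-((j : ℝ) + 1) * τ) := by
      rw [← hP]
      ring
    have h5 : ((φ τ : ℝ) : ℂ) = ((φ τ - Real.exp (-τ) * p.eval (Real.exp (-τ)) : ℝ) : ℂ) +
        ∑ j ∈ Finset.range (p.natDegree + 1),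
          (p.coeff j : ℂ) * ((Real.exp (-((j : ℝ) + 1) * τ) : ℝ) : ℂ) := by
      have h6 := congrArg (fun r : ℝ => (r : ℂ)) h4
      refine h6.trans ?_
      rw [Complex.ofReal_add, Complex.ofReal_sum]
      congr 1
      exact Finset.sum_congr rfl fun j _ => Complex.ofReal_mul _ _
    rw [h5, add_mul, Finset.sum_mul]
    congr 1
    exact Finset.sum_congr rfl fun j _ => by ring
  simp only [e2]
  have hi1 := hmul _ hp1 Y hYm 2 hYb
  have hi2 : ∀ j ∈ Finset.range (p.natDegree + 1), Integrable (fun τ : ℝ => (p.coeff j : ℂ) *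
      (((Real.exp (-((j : ℝ) + 1) * τ) : ℝ) : ℂ) * Y τ)) (volume.restrict (Ioi (0 : ℝ))) :=
    fun j _ => (hmul _ (hexp j) Y hYm 2 hYb).const_mul _
  rw [integral_add hi1 (integrable_finsetSum _ hi2), integral_finsetSum _ hi2]
  refine (norm_add_le _ _).trans (add_le_add ?_ ?_)
  · refine (norm_integral_le_of_norm_le (hp1.norm.const_mul 2) ?_).trans ?_
    · filter_upwards [hYb] with τ hτ
      rw [norm_mul, Complex.norm_real, mul_comm 2]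
      exact mul_le_mul_of_nonneg_left hτ (norm_nonneg _)
    · rw [integral_const_mul]
      simp only [Real.norm_eq_abs]
      linarith
  · rw [Finset.sum_mul]
    refine (norm_sum_le _ _).trans (Finset.sum_le_sum fun j hj => ?_)
    rw [integral_const_mul, norm_mul, Complex.norm_real, Real.norm_eq_abs]
    refine mul_le_mul_of_nonneg_left ?_ (abs_nonneg _)
    have hk : (1 : ℝ) ≤ (j : ℝ) + 1 := by
      have : (0 : ℝ) ≤ j := Nat.cast_nonneg j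
      linarith
    have h6 := one_exp hO hd κ hκ hκ1 h z0 T0 δ Q ((j : ℝ) + 1) hT0 hδ hQ hk w hw (h1 j hj) (h0 j hj)
    refine le_trans (le_of_eq ?_) h6
    congr 1
    rw [← integral_complex_ofReal]
    simp only [Complex.ofReal_mul]
    rw [← integral_sub (hmul _ (hexp j) _ hXm 1 hXb) (hmul _ (hexp j) _ hNc 1 hNb)]
    refine integral_congr_ae (Filter.Eventually.of_forall fun τ => ?_)
    simp only
    rw [hY]
    ring

end Pool.Agent.Q62.QD
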