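import Pool.Agent.Q62.QD.Lap3

/-! Quantum diffusion. -/

set_option autoImplicit false
set_option linter.unusedSectionVars false

open scoped BigOperators Topology Polynomial
open MeasureTheory Filter Set

namespace Pool.Agent.Q62.QD

open Pool.Agent.W788.BK
open Pool.Agent.W788.LD.Spec (S)
open Pool.Agent.H4R2.LO (Zd)
open Pool.Agent.TH794.QD
open Pool.Agent.TH794.QE
open Pool.Agent.TH794.HK

theorem small (A B γ : ℝ) (hB : 0 < B) (hγ : 0 < γ) :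
    ∃ c1 : ℝ, 0 < c1 ∧ ∀ c : ℝ, 0 < c → c ≤ c1 → A * c ^ γ ≤ B := by
  have hc : Continuous fun c : ℝ => A * c ^ γ := by
    have := Real.continuous_rpow_const hγ.le
    fun_prop
  have l1 := hc.tendsto 0
  rw [Real.zero_rpow hγ.ne', mul_zero] at l1
  obtain ⟨δ, hδ, h⟩ := Metric.eventually_nhds_iff.1 (l1.eventually_lt_const hB)
  refine ⟨δ / 2, by positivity, fun c hc0 hc1 => (h ?_).le⟩
  rw [Real.dist_eq, sub_zero, abs_of_pos hc0]
  linarith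

theorem ph_zero {d : ℕ} (x : Zd d) : ph (fun _ => 0) x = 1 := by
  unfold ph
  simp

/-- **quantum diffusion** -/
theorem qd (hES : S_ES) (hTH : S_THIRD) (hFL : S_FLUCT) (hIN : S_INV)
    (hSU : S_SUP) (hQB : S_QB) (hLO : S_LOW) (hAD : S_ADM) (hFA : S_FAC) (hO : S_OSC)
    (d : ℕ) (hd : 2 ≤ d) (φ : ℝ → ℝ) (hφ : IntegrableOn φ (Ioi 0)) (b v K ε : ℝ) (hb : 0 < b)
    (hv : 0 < v) (hK : 0 ≤ K) (hε : 0 < ε) : ∃ c0 : ℝ, 0 < c0 ∧ ∀ c : ℝ, 0 < c → c ≤ c0 →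
    ∀ (μ : Measure ℝ), IsProbabilityMeasure μ → (∀ᵐ s ∂μ, |s| ≤ b) →
    ∀ Mn V : ℝ, ∫ s, s ∂μ = Mn → ∫ s, (s - Mn) ^ 2 ∂μ = V → v ≤ V →
      ∃ G : Set (Zd d → ℝ), MeasurableSet G ∧
        1 - Real.exp (-c ^ (-(1 / 101) : ℝ)) ≤
          (Measure.infinitePi fun _ : Zd d => μ).real G ∧
        ∀ ω ∈ G, (∀ x, |ω x| ≤ b) ∧
          ∀ a : Zd d, ‖a‖ ≤ Real.exp (c ^ (-(1 / 101) : ℝ)) →
          ∀ ψ : ℝ → Zd d → ℂ, Sol d (fun x => 2 * d + c * ω x) a ψ →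
          ∀ T : ℝ, c ^ (-(2 + 1 / 75) : ℝ) ≤ T → T ≤ c ^ (-(2 + 1 / 42) : ℝ) →
          ∀ q : Fin d → ℝ, ∑ i, q i ^ 2 ≤ K →
            ‖(∫ τ in Ioi (0 : ℝ), (φ τ : ℂ) *
                Xw (fun x => ph (fun i => Real.sqrt (c ^ 2 * V / T) * q i) (x - a)) (ψ (T * τ))) -
              ((∫ τ in Ioi (0 : ℝ), φ τ * Nq d (∑ i, q i ^ 2) τ : ℝ) : ℂ)‖ ≤ ε := by
  obtain ⟨p, hp1, hp2⟩ := exp_dense φ hφ (ε / 8) (by positivity)
  obtain ⟨Cp, hCp⟩ : ∃ Cp, Cp = ∑ j ∈ Finset.range (p.natDegree + 1), |p.coeff j| := ⟨_, rfl⟩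
  have hCp0 : 0 ≤ Cp := by rw [hCp]; exact Finset.sum_nonneg fun _ _ => abs_nonneg _
  obtain ⟨r, hr⟩ : ∃ r, r = ε / (4800 * (Cp + 1)) := ⟨_, rfl⟩
  have hr0 : 0 < r := by rw [hr]; positivity
  obtain ⟨κ, hκd⟩ : ∃ κ, κ = min 1 (r ^ 2 / 2) := ⟨_, rfl⟩
  have hκ : 0 < κ := by rw [hκd]; positivity
  have hκ1 : κ ≤ 1 := by rw [hκd]; exact min_le_left _ _
  have hκ2 : (2 * κ) ^ (1 / 2 : ℝ) ≤ r := by
    rw [← Real.sqrt_eq_rpow]
    refine Real.sqrt_le_iff.2 ⟨hr0.le, ?_⟩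
    have : κ ≤ r ^ 2 / 2 := by rw [hκd]; exact min_le_right _ _
    linarith
  have hκ3 : Cp * (1200 * (2 * κ) ^ (1 / 2 : ℝ)) ≤ ε / 4 := by
    calc Cp * (1200 * (2 * κ) ^ (1 / 2 : ℝ)) ≤ (Cp + 1) * (1200 * r) := by
          gcongr
          linarith
      _ = ε / 4 := by
          rw [hr]
          field_simp
          norm_num
  obtain ⟨m, hm, hm2⟩ := G1_low hO d hd κ hκ hκ1
  obtain ⟨c1, hc1, hL⟩ := finL d (Bk d κ) (G0 d) (G1 d) b v (2 * K) hb hv (by positivity)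
    (engP hES hTH hFL hIN hSU hQB hLO hAD hFA hO d hd κ hκ hκ1 (2 * b) v (2 * (2 * K))
      (by positivity) hv (by positivity)) fun E hE => by
      have h1 := bvals hO d hd κ hκ hκ1 E hE.1
      have h2 := hm2 E hE
      exact ⟨by linarith [h1.2.2.2], h1.2.2.1, h1.2.2.2⟩
  obtain ⟨c2, hc2, n2⟩ := small 2 1 (1 / 840) one_pos (by norm_num)
  obtain ⟨c3, hc3, n3⟩ := small (((p.natDegree : ℝ) + 1) / 2) 1 (1 / 1200) one_pos (by norm_num)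
  obtain ⟨c4, hc4, n4⟩ := small (Cp * (3 * d)) (ε / 4) (1 / 200) (by positivity) (by norm_num)
  refine ⟨min (min c1 c2) (min c3 c4), by positivity, ?_⟩
  intro c hc hcc μ hμ hμb Mn V hM hV hvV
  have hcc1 : c ≤ c1 := hcc.trans ((min_le_left _ _).trans (min_le_left _ _))
  have hcc2 : c ≤ c2 := hcc.trans ((min_le_left _ _).trans (min_le_right _ _))
  have hcc3 : c ≤ c3 := hcc.trans ((min_le_right _ _).trans (min_le_left _ _))
  have hcc4 : c ≤ c4 := hcc.trans ((min_le_right _ _).trans (min_le_right _ _))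
  have n2' := n2 c hc hcc2
  have n3' := n3 c hc hcc3
  have n4' := n4 c hc hcc4
  obtain ⟨G, hG, hP, hGL⟩ := hL c hc hcc1 μ hμ hμb Mn V hM hV hvV
  refine ⟨G, hG, hP, fun ω hω => ⟨(hGL ω hω).1, ?_⟩⟩
  intro a ha ψ hψ T hT1 hT2 q hq
  have hV0 : 0 < V := hv.trans_le hvV
  have hT0 : 0 < T := lt_of_lt_of_le (Real.rpow_pos_of_pos hc _) hT1
  have hs0 : 0 < c ^ 2 * V := by positivity
  -- the range of the imaginary parts
  have hTi1 : c ^ (2 + 1 / 42 : ℝ) ≤ T⁻¹ := by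
    have h1 : c ^ (-(2 + 1 / 42) : ℝ) = (c ^ (2 + 1 / 42 : ℝ))⁻¹ := Real.rpow_neg hc.le _
    rw [h1] at hT2
    have h2 := inv_anti₀ hT0 hT2
    rwa [inv_inv] at h2
  have hTi2 : T⁻¹ ≤ c ^ (2 + 1 / 75 : ℝ) := by
    have h1 : c ^ (-(2 + 1 / 75) : ℝ) = (c ^ (2 + 1 / 75 : ℝ))⁻¹ := Real.rpow_neg hc.le _
    rw [h1] at hT1
    have h2 := inv_anti₀ (by positivity) hT1
    rwa [inv_inv] at h2
  have hη : ∀ j ∈ Finset.range (p.natDegree + 1),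
      c ^ (81 / 40 : ℝ) ≤ ((j : ℝ) + 1) / (2 * T) ∧
        ((j : ℝ) + 1) / (2 * T) ≤ c ^ (161 / 80 : ℝ) := by
    intro j hj
    have hj1 : (j : ℝ) ≤ p.natDegree := by
      exact_mod_cast Nat.lt_succ_iff.1 (Finset.mem_range.1 hj)
    have hj0 : (0 : ℝ) ≤ j := Nat.cast_nonneg j
    have e1 : ((j : ℝ) + 1) / (2 * T) = ((j : ℝ) + 1) / 2 * T⁻¹ := by
      rw [div_mul_eq_div_div, div_eq_mul_inv]
    rw [e1]
    constructor
    · have e2 : c ^ (81 / 40 : ℝ) = c ^ (1 / 840 : ℝ) * c ^ (2 + 1 / 42 : ℝ) := by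
        rw [← Real.rpow_add hc]
        norm_num
      rw [e2]
      have h3 : c ^ (1 / 840 : ℝ) ≤ ((j : ℝ) + 1) / 2 := by linarith
      exact mul_le_mul h3 hTi1 (by positivity) (by positivity)
    · have e2 : c ^ (2 + 1 / 75 : ℝ) = c ^ (1 / 1200 : ℝ) * c ^ (161 / 80 : ℝ) := by
        rw [← Real.rpow_add hc]
        norm_num
      calc ((j : ℝ) + 1) / 2 * T⁻¹ ≤ ((p.natDegree : ℝ) + 1) / 2 * c ^ (2 + 1 / 75 : ℝ) := by gcongr
        _ = (((p.natDegree : ℝ) + 1) / 2 * c ^ (1 / 1200 : ℝ)) * c ^ (161 / 80 : ℝ) := by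
            rw [e2]
            ring
        _ ≤ 1 * c ^ (161 / 80 : ℝ) := by gcongr
        _ = _ := one_mul _
  obtain ⟨Q, hQ⟩ : ∃ Q, Q = ∑ i, q i ^ 2 := ⟨_, rfl⟩
  have hQ0 : 0 ≤ Q := by rw [hQ]; exact Finset.sum_nonneg fun i _ => sq_nonneg _
  obtain ⟨δ, hδ⟩ : ∃ δ, δ = c ^ (1 / 200 : ℝ) := ⟨_, rfl⟩
  have hδ0 : 0 ≤ δ := by rw [hδ]; positivity
  have hsum : ∑ i, (Real.sqrt (c ^ 2 * V / T) * q i) ^ 2 = c ^ 2 * V / T * Q := by
    rw [hQ, Finset.mul_sum]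
    refine Finset.sum_congr rfl fun i _ => ?_
    rw [mul_pow, Real.sq_sqrt (by positivity)]
  have key := avg hO hd κ hκ hκ1 hψ (2 * d + c * Mn) T δ Q hT0 hδ0 hQ0
    (fun x => ph (fun i => Real.sqrt (c ^ 2 * V / T) * q i) (x - a)) (fun x => (ph_norm _ _).le)
    p φ hφ (ε / 8) hp1 hp2 ?_ ?_
  · rw [← hQ]
    refine key.trans ?_
    rw [← hCp]
    have h1 : Cp * (3 * d * δ + 1200 * (2 * κ) ^ (1 / 2 : ℝ)) =
        Cp * (3 * d) * δ + Cp * (1200 * (2 * κ) ^ (1 / 2 : ℝ)) := by ring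
    rw [h1, hδ]
    linarith
  · intro j hj E hE u hu
    have hj0 : (0 : ℝ) ≤ j := Nat.cast_nonneg j
    obtain ⟨k1, k2⟩ := hη j hj
    have h1 := (hGL ω hω).2 a ha (2 * d + c * Mn - E) (by
      rw [sub_sub_cancel]
      exact hE) _ k1 k2 u hu (fun i => Real.sqrt (c ^ 2 * V / T) * q i) (by
      rw [hsum]
      have h2 : 2 * K * (((j : ℝ) + 1) / (2 * T) * (c ^ 2 * V)) =
          c ^ 2 * V / T * (((j : ℝ) + 1) * K) := by
        field_simp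
      rw [h2]
      have h3 : Q ≤ ((j : ℝ) + 1) * K := by
        have h4 : 0 ≤ (j : ℝ) * K := by positivity
        have h5 : ((j : ℝ) + 1) * K = j * K + K := by ring
        rw [h5, hQ]
        linarith
      gcongr)
    rw [sub_sub_cancel] at h1
    have h6 : Tg (G0 d) (G1 d) (((j : ℝ) + 1) / (2 * T)) (c ^ 2 * V) E
        (fun i => Real.sqrt (c ^ 2 * V / T) * q i) = Tk d Q ((j : ℝ) + 1) E := by
      unfold Tg Tk Dc
      rw [hsum]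
      congr 3
      field_simp
    rw [h6] at h1
    rw [hδ]
    exact h1
  · intro j hj E hE u hu
    have hj0 : (0 : ℝ) ≤ j := Nat.cast_nonneg j
    obtain ⟨k1, k2⟩ := hη j hj
    have h1 := (hGL ω hω).2 a ha (2 * d + c * Mn - E) (by
      rw [sub_sub_cancel]
      exact hE) _ k1 k2 u hu (fun _ => 0) (by
      simp only [ne_eq, OfNat.ofNat_ne_zero, not_false_eq_true, zero_pow, Finset.sum_const_zero]
      positivity)
    rw [sub_sub_cancel] at h1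
    simp only [ph_zero, one_mul] at h1
    have h6 : Tg (G0 d) (G1 d) (((j : ℝ) + 1) / (2 * T)) (c ^ 2 * V) E
        (fun _ : Fin d => 0) = (G0 d E).im := by
      unfold Tg
      simp
    rw [h6, ← Complex.ofReal_tsum, ← Complex.ofReal_mul, ← Complex.ofReal_sub, Complex.norm_real,
      Real.norm_eq_abs] at h1
    rw [hδ]
    exact h1

end Pool.Agent.Q62.QD
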