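import Pool.Agent.Q62.QD.Dos

/-! The mass of the boundary values of the free resolvent in the bulk. -/

set_option autoImplicit false
set_option linter.unusedSectionVars false

open scoped BigOperators Topology
open MeasureTheory Filter Set

namespace Pool.Agent.Q62.QD

open Pool.Agent.W788.BK
open Pool.Agent.H4R2.LO (Zd)
open Pool.Agent.TH794.QD
open Pool.Agent.TH794.QE
open Pool.Agent.TH794.HK
open Pool.Agent.TH311.LL2D (Bu Bu.near)

theorem RegE_bu {κ E : ℝ} (h : RegE 2 κ E) : Bu κ E := by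
  rcases h with h | h
  · exact h.2
  · exact absurd h.1 (by norm_num)

/-- Hölder continuity up to the boundary -/
theorem hold (hO : S_OSC) (d : ℕ) (hd : 2 ≤ d) (κ : ℝ) (hκ : 0 < κ) (hκ1 : κ ≤ 1) :
    ∃ C : ℝ, 0 ≤ C ∧ (∀ E, RegE d κ E → ∀ t : ℝ, 0 < t → t ≤ 1 →
      ‖GF (F0 d) ((E : ℂ) + (t : ℂ) * Complex.I) - G0 d E‖ ≤ C * t ^ (1 / 8 : ℝ)) ∧
      (∀ E E', RegE d κ E → RegE d κ E' → ‖G0 d E - G0 d E'‖ ≤ C * |E - E'| ^ (1 / 8 : ℝ)) ∧
      (∀ E E', RegE d κ E → RegE d κ E' → ‖G1 d E - G1 d E'‖ ≤ C * |E - E'| ^ (1 / 8 : ℝ)) := by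
  by_cases h2 : d = 2
  · subst h2
    have hCH := Pool.Agent.TH311.LL2D.CH_ge κ
    refine ⟨2 * Pool.Agent.TH311.LL2D.CH κ, by linarith, ?_, ?_, ?_⟩
    · intro E hE t ht ht1
      have h1 := (holS0 κ hκ hκ1).lim ((E : ℂ) + (t : ℂ) * Complex.I)
        (by simpa using RegE_bu hE) (by simpa using ht) (by simpa using ht1) E (RegE_bu hE)
      refine h1.trans (le_of_eq ?_)
      rw [add_sub_cancel_left, norm_mul, Complex.norm_I, mul_one, Complex.norm_real,
        Real.norm_eq_abs, abs_of_pos ht]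
    · intro E E' hE hE'
      exact (holS0 κ hκ hκ1).lip E E' (RegE_bu hE) (RegE_bu hE')
    · intro E E' hE hE'
      exact (holS1 κ hκ hκ1).lip E E' (RegE_bu hE) (RegE_bu hE')
  · have hd3 : 3 ≤ d := by omega
    have e0 : ∀ E, G0 d E = GF (F0 d) (E : ℂ) := fun E => bvl_of (lim3 _ _ (hol0 hO d hd3) E)
    have e1 : ∀ E, G1 d E = GF (F1 d) (E : ℂ) := fun E => bvl_of (lim3 _ _ (hol1 hO d hd3) E)
    refine ⟨Pool.Agent.TH794.QD.CH d, CH_nonneg d, ?_, ?_, ?_⟩
    · intro E hE t ht ht1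
      rw [e0]
      refine (hol0 hO d hd3 _ _ (by simpa using ht.le) (by simp)).trans (le_of_eq ?_)
      rw [add_sub_cancel_left, norm_mul, Complex.norm_I, mul_one, Complex.norm_real,
        Real.norm_eq_abs, abs_of_pos ht]
    · intro E E' hE hE'
      rw [e0, e0]
      refine (hol0 hO d hd3 _ _ (by simp) (by simp)).trans (le_of_eq ?_)
      rw [← Complex.ofReal_sub, Complex.norm_real, Real.norm_eq_abs]
    · intro E E' hE hE'
      rw [e1, e1]
      refine (hol1 hO d hd3 _ _ (by simp) (by simp)).trans (le_of_eq ?_)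
      rw [← Complex.ofReal_sub, Complex.norm_real, Real.norm_eq_abs]

theorem cont_of {S : Set ℝ} {g : ℝ → ℂ} {C : ℝ}
    (h : ∀ E ∈ S, ∀ E' ∈ S, ‖g E - g E'‖ ≤ C * |E - E'| ^ (1 / 8 : ℝ)) : ContinuousOn g S := by
  intro E hE
  rw [ContinuousWithinAt, tendsto_iff_norm_sub_tendsto_zero]
  have hc : Continuous fun E' : ℝ => C * |E' - E| ^ (1 / 8 : ℝ) := by
    have := Real.continuous_rpow_const (show (0 : ℝ) ≤ 1 / 8 by norm_num)
    fun_prop
  have l1 := (hc.tendsto E).mono_left (nhdsWithin_le_nhds (s := S))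
  rw [sub_self, abs_zero, Real.zero_rpow (by norm_num), mul_zero] at l1
  refine squeeze_zero' (Filter.Eventually.of_forall fun t => norm_nonneg _) ?_ l1
  filter_upwards [self_mem_nhdsWithin] with E' hE'
  exact h E' hE' E hE

/-- the bulk as a set -/
def Sk (d : ℕ) (κ : ℝ) : Set ℝ := {E | Bk d κ E}

theorem Reg_closed (d : ℕ) (κ : ℝ) : IsClosed {E | RegE d κ E} := by
  unfold RegE
  have h1 : {E : ℝ | (d = 2 ∧ κ ≤ |E| ∧ |E| ≤ 4 - κ) ∨ (3 ≤ d ∧ |E| ≤ 3 * d)} =
      ({_E : ℝ | d = 2} ∩ ({E : ℝ | κ ≤ |E|} ∩ {E : ℝ | |E| ≤ 4 - κ})) ∪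
        ({_E : ℝ | 3 ≤ d} ∩ {E : ℝ | |E| ≤ 3 * d}) := by
    ext E
    rfl
  rw [h1]
  refine IsClosed.union (IsClosed.inter isClosed_const (IsClosed.inter ?_ ?_))
    (IsClosed.inter isClosed_const ?_)
  · exact isClosed_le continuous_const continuous_abs
  · exact isClosed_le continuous_abs continuous_const
  · exact isClosed_le continuous_abs continuous_const

theorem Sk_closed (d : ℕ) (κ : ℝ) : IsClosed (Sk d κ) := by
  have h1 : Sk d κ = {E | RegE d κ E} ∩ {E : ℝ | |E| ≤ 2 * d - κ} := by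
    ext E
    rfl
  rw [h1]
  exact (Reg_closed d κ).inter (isClosed_le continuous_abs continuous_const)

theorem Sk_sub (d : ℕ) (κ : ℝ) : Sk d κ ⊆ Icc (-(2 * d - κ)) (2 * d - κ) := by
  intro E hE
  exact abs_le.1 hE.2

theorem Sk_compact (d : ℕ) (κ : ℝ) : IsCompact (Sk d κ) :=
  isCompact_Icc.of_isClosed_subset (Sk_closed d κ) (Sk_sub d κ)

theorem Sk_meas (d : ℕ) (κ : ℝ) : MeasurableSet (Sk d κ) := (Sk_closed d κ).measurableSet

theorem Sk_mono (d : ℕ) (κ κ' : ℝ) (h : κ ≤ κ') : Sk d κ' ⊆ Sk d κ := by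
  intro E hE
  obtain ⟨h1, h2⟩ := hE
  refine ⟨?_, by linarith⟩
  rcases h1 with h1 | h1
  · exact Or.inl ⟨h1.1, by linarith [h1.2.1], by linarith [h1.2.2]⟩
  · exact Or.inr h1

theorem vol_Sk (d : ℕ) (κ : ℝ) (hκ : 0 < κ) : volume.real (Sk d κ) ≤ 4 * d := by
  have hd : (0 : ℝ) ≤ d := Nat.cast_nonneg d
  by_cases h : 0 ≤ 2 * (d : ℝ) - κ
  · refine (measureReal_mono (Sk_sub d κ) (by simp)).trans ?_
    rw [Real.volume_real_Icc_of_le (by linarith)]
    linarith
  · have h1 : Sk d κ = ∅ := by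
      ext E
      constructor
      · intro hE
        have := hE.2
        have := abs_nonneg E
        exfalso
        linarith
      · intro hE
        exact absurd hE (notMem_empty E)
    rw [h1]
    simp

theorem G0_cont (hO : S_OSC) (d : ℕ) (hd : 2 ≤ d) (κ : ℝ) (hκ : 0 < κ) (hκ1 : κ ≤ 1) :
    ContinuousOn (G0 d) {E | RegE d κ E} := by
  obtain ⟨C, -, -, h, -⟩ := hold hO d hd κ hκ hκ1
  exact cont_of fun E hE E' hE' => h E E' hE hE'

theorem G1_cont (hO : S_OSC) (d : ℕ) (hd : 2 ≤ d) (κ : ℝ) (hκ : 0 < κ) (hκ1 : κ ≤ 1) :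
    ContinuousOn (G1 d) {E | RegE d κ E} := by
  obtain ⟨C, -, -, -, h⟩ := hold hO d hd κ hκ hκ1
  exact cont_of fun E hE E' hE' => h E E' hE hE'

theorem Sk_Reg (d : ℕ) (κ : ℝ) : Sk d κ ⊆ {E | RegE d κ E} := fun _ hE => hE.1

theorem G0_int (hO : S_OSC) (d : ℕ) (hd : 2 ≤ d) (κ : ℝ) (hκ : 0 < κ) (hκ1 : κ ≤ 1) :
    IntegrableOn (fun E => (G0 d E).im) (Sk d κ) := by
  refine ContinuousOn.integrableOn_compact (Sk_compact d κ) ?_
  exact Complex.continuous_im.comp_continuousOn ((G0_cont hO d hd κ hκ hκ1).mono (Sk_Reg d κ))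

/-- the Poisson integral over an interval -/
theorem pk_val (t x r : ℝ) (ht : 0 < t) (hr : 0 ≤ r) :
    ∫ E in Icc (x - r) (x + r), pk t (x - E) = 2 * Real.arctan (r / t) := by
  rw [integral_Icc_eq_integral_Ioc, ← intervalIntegral.integral_of_le (by linarith)]
  have h1 : ∀ E ∈ uIcc (x - r) (x + r),
      HasDerivAt (fun E => -Real.arctan ((x - E) / t)) (pk t (x - E)) E := by
    intro E _
    have h2 : HasDerivAt (fun E : ℝ => (x - E) / t) ((-1) / t) E := by
      have h3 := ((hasDerivAt_const E x).sub (hasDerivAt_id E)).div_const t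
      rw [zero_sub] at h3
      exact h3
    have h4 := h2.arctan.neg
    refine h4.congr_deriv ?_
    unfold pk
    field_simp
    ring
  rw [intervalIntegral.integral_eq_sub_of_hasDerivAt h1]
  · have h5 : (x - (x + r)) / t = -(r / t) := by ring
    have h6 : (x - (x - r)) / t = r / t := by ring
    rw [h5, h6, Real.arctan_neg]
    ring
  · exact ((pk_cont t ht).comp (continuous_const.sub continuous_id)).intervalIntegrable _ _

theorem arctan_low (y : ℝ) (hy : 0 < y) : Real.pi / 2 - 1 / y ≤ Real.arctan y := by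
  have h1 := Real.arctan_inv_of_pos hy
  have h2 : Real.arctan y⁻¹ ≤ y⁻¹ := by
    have h3 := Real.le_tan (Real.arctan_nonneg.2 (inv_pos.2 hy).le) (Real.arctan_lt_pi_div_two _)
    rwa [Real.tan_arctan] at h3
  rw [one_div]
  linarith

theorem pk_Sint (d : ℕ) (κ t x : ℝ) (ht : 0 < t) : IntegrableOn (fun E => pk t (x - E)) (Sk d κ) :=
  ((pk_cont t ht).comp (continuous_const.sub continuous_id)).continuousOn.integrableOn_compact
    (Sk_compact d κ)

theorem pkS_nonneg (d : ℕ) (κ t x : ℝ) (ht : 0 < t) : 0 ≤ ∫ E in Sk d κ, pk t (x - E) :=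
  integral_nonneg fun E => pk_nonneg _ _ ht

theorem pkS_le (d : ℕ) (κ t x : ℝ) (hκ : 0 < κ) (ht : 0 < t) :
    ∫ E in Sk d κ, pk t (x - E) ≤ Real.pi := by
  have h1 : Sk d κ ⊆ Icc (x - (2 * d + |x|)) (x + (2 * d + |x|)) := by
    intro E hE
    have h2 := Sk_sub d κ hE
    have h3 := le_abs_self x
    have h4 := neg_abs_le x
    exact ⟨by linarith [h2.1], by linarith [h2.2]⟩
  have h2 : ∫ E in Sk d κ, pk t (x - E) ≤
      ∫ E in Icc (x - (2 * d + |x|)) (x + (2 * d + |x|)), pk t (x - E) := by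
    refine setIntegral_mono_set ?_ (Filter.Eventually.of_forall fun E => pk_nonneg _ _ ht)
      h1.eventuallyLE
    exact ((pk_cont t ht).comp (continuous_const.sub continuous_id)).continuousOn.integrableOn_Icc
  refine h2.trans ?_
  rw [pk_val t x _ ht (by positivity)]
  linarith [Real.arctan_lt_pi_div_two ((2 * d + |x|) / t)]

theorem pkS_ge (d : ℕ) (κ t x r : ℝ) (ht : 0 < t) (hr : 0 < r)
    (hx : Icc (x - r) (x + r) ⊆ Sk d κ) :
    Real.pi - 2 * t / r ≤ ∫ E in Sk d κ, pk t (x - E) := by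
  have h2 : ∫ E in Icc (x - r) (x + r), pk t (x - E) ≤ ∫ E in Sk d κ, pk t (x - E) :=
    setIntegral_mono_set (pk_Sint d κ t x ht)
      (Filter.Eventually.of_forall fun E => pk_nonneg _ _ ht) hx.eventuallyLE
  refine le_trans ?_ h2
  rw [pk_val t x r ht hr.le]
  have h3 := arctan_low (r / t) (by positivity)
  have h4 : 1 / (r / t) = t / r := by
    rw [one_div, inv_div]
  rw [h4] at h3
  have h5 : 2 * t / r = 2 * (t / r) := by ring
  linarith

theorem sym_le {d : ℕ} (k : Fin d → ℝ) : |sym k| ≤ 2 * d := by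
  unfold sym
  refine (Finset.abs_sum_le_sum_abs _ _).trans ?_
  have h1 : ∀ i ∈ (Finset.univ : Finset (Fin d)), |2 * Real.cos (2 * Real.pi * k i)| ≤ 2 := by
    intro i _
    rw [abs_mul, abs_two]
    linarith [Real.abs_cos_le_one (2 * Real.pi * k i)]
  refine (Finset.sum_le_sum h1).trans (le_of_eq ?_)
  rw [Finset.sum_const, Finset.card_univ, Fintype.card_fin, nsmul_eq_mul]
  ring

/-- Fubini -/
theorem swap (d : ℕ) (κ t : ℝ) (ht : 0 < t) :
    ∫ E in Sk d κ, (GF (F0 d) ((E : ℂ) + (t : ℂ) * Complex.I)).im =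
      ∫ k, (∫ E in Sk d κ, pk t (sym k - E)) ∂(cube d) := by
  simp only [GF0_im d _ t ht]
  have : IsFiniteMeasure (volume.restrict (Sk d κ)) :=
    ⟨by rw [Measure.restrict_apply_univ]; exact (Sk_compact d κ).measure_lt_top⟩
  refine integral_integral_swap ?_
  refine Integrable.of_bound (C := t⁻¹) ?_ ?_
  · have h1 := sym_cont d
    have h2 := pk_cont t ht
    refine Continuous.aestronglyMeasurable ?_
    unfold Function.uncurry
    fun_prop
  · refine Filter.Eventually.of_forall fun k => ?_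
    rw [Real.norm_eq_abs]
    unfold Function.uncurry
    rw [abs_of_nonneg (pk_nonneg _ _ ht)]
    exact pk_le _ _ ht

/-- the momenta with energies well inside the bulk -/
def Gd (d : ℕ) (κ : ℝ) : Set (Fin d → ℝ) :=
  ({k | |sym k - 2 * d| ≤ 2 * κ} ∪ {k | |sym k - -(2 * d)| ≤ 2 * κ} ∪ {k | |sym k - 0| ≤ 2 * κ})ᶜ

theorem Gd_meas (d : ℕ) (κ : ℝ) : MeasurableSet (Gd d κ) := by
  unfold Gd
  have := sym_cont d
  refine ((MeasurableSet.union ?_ ?_).union ?_).compl
  · exact measurableSet_le (by fun_prop) measurable_const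
  · exact measurableSet_le (by fun_prop) measurable_const
  · exact measurableSet_le (by fun_prop) measurable_const

theorem Gd_ge (hO : S_OSC) (d : ℕ) (hd : 2 ≤ d) (κ : ℝ) (hκ : 0 < κ) :
    1 - 600 * (2 * κ) ^ (1 / 2 : ℝ) ≤ (cube d).real (Gd d κ) := by
  have h0 := probReal_add_probReal_compl (μ := cube d) (Gd_meas d κ)
  have h1 : (cube d).real (Gd d κ)ᶜ ≤ 600 * (2 * κ) ^ (1 / 2 : ℝ) := by
    unfold Gd
    rw [compl_compl]
    refine (measureReal_union_le _ _).trans ?_
    have h2 := measureReal_union_le (μ := cube d) {k | |sym k - 2 * d| ≤ 2 * κ}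
      {k | |sym k - -(2 * d)| ≤ 2 * κ}
    have h3 := dos_reg hO d hd (2 * d) (2 * κ) (by positivity)
    have h4 := dos_reg hO d hd (-(2 * d)) (2 * κ) (by positivity)
    have h5 := dos_reg hO d hd 0 (2 * κ) (by positivity)
    linarith
  linarith

theorem Gd_sub (d : ℕ) (hd : 2 ≤ d) (κ : ℝ) (hκ : 0 < κ) (k : Fin d → ℝ)
    (hk : k ∈ Gd d κ) : Icc (sym k - κ) (sym k + κ) ⊆ Sk d κ := by
  unfold Gd at hk
  rw [mem_compl_iff, mem_union, mem_union, not_or, not_or] at hk
  obtain ⟨⟨h1, h2⟩, h3⟩ := hk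
  simp only [mem_ofPred_eq, not_le, sub_zero] at h1 h2 h3
  have h4 := abs_le.1 (sym_le k)
  rw [abs_of_nonpos (by linarith)] at h1
  rw [abs_of_nonneg (by linarith)] at h2
  intro E hE
  have hE1 : |E| ≤ 2 * d - κ := by
    rw [abs_le]
    exact ⟨by linarith [hE.1], by linarith [hE.2]⟩
  refine ⟨?_, hE1⟩
  by_cases hd2 : d = 2
  · subst hd2
    refine Or.inl ⟨rfl, ?_, ?_⟩
    · rcases abs_cases (sym k) with h | h
      · rw [h.1] at h3
        refine le_trans ?_ (le_abs_self E)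
        linarith [hE.1]
      · rw [h.1] at h3
        refine le_trans ?_ (neg_le_abs E)
        linarith [hE.2]
    · push_cast at hE1
      linarith
  · refine Or.inr ⟨by omega, ?_⟩
    have : (0 : ℝ) ≤ d := Nat.cast_nonneg d
    linarith

/-- **the mass in the bulk** -/
theorem mass (hO : S_OSC) (d : ℕ) (hd : 2 ≤ d) (κ : ℝ) (hκ : 0 < κ) (hκ1 : κ ≤ 1) :
    Real.pi * (1 - 600 * (2 * κ) ^ (1 / 2 : ℝ)) ≤ ∫ E in Sk d κ, (G0 d E).im ∧
    ∫ E in Sk d κ, (G0 d E).im ≤ Real.pi := by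
  obtain ⟨C, hC, hu, -, -⟩ := hold hO d hd κ hκ hκ1
  obtain ⟨v, hv⟩ : ∃ v, v = volume.real (Sk d κ) := ⟨_, rfl⟩
  have hv0 : 0 ≤ v := by rw [hv]; exact measureReal_nonneg
  have hGi := G0_int hO d hd κ hκ hκ1
  have hm := Sk_meas d κ
  have hfin : volume (Sk d κ) < ⊤ := (Sk_compact d κ).measure_lt_top
  -- the approximation
  have key : ∀ t : ℝ, 0 < t → t ≤ 1 →
      |(∫ E in Sk d κ, (GF (F0 d) ((E : ℂ) + (t : ℂ) * Complex.I)).im) -
        ∫ E in Sk d κ, (G0 d E).im| ≤ C * t ^ (1 / 8 : ℝ) * v := by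
    intro t ht ht1
    have hi : IntegrableOn (fun E : ℝ => (GF (F0 d) ((E : ℂ) + (t : ℂ) * Complex.I)).im)
        (Sk d κ) := by
      have hc : Continuous fun E : ℝ => (GF (F0 d) ((E : ℂ) + (t : ℂ) * Complex.I)).im := by
        simp only [GF0_im d _ t ht]
        refine continuous_of_dominated (bound := fun _ => t⁻¹) ?_ ?_ (integrable_const _) ?_
        · intro E
          exact (pk_int t E ht).aestronglyMeasurable
        · intro E
          refine Filter.Eventually.of_forall fun k => ?_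
          rw [Real.norm_eq_abs, abs_of_nonneg (pk_nonneg _ _ ht)]
          exact pk_le _ _ ht
        · refine Filter.Eventually.of_forall fun k => ?_
          have := pk_cont t ht
          fun_prop
      exact hc.continuousOn.integrableOn_compact (Sk_compact d κ)
    rw [← integral_sub hi hGi, ← Real.norm_eq_abs, hv]
    refine norm_setIntegral_le_of_norm_le_const hfin fun E hE => ?_
    rw [Real.norm_eq_abs, ← Complex.sub_im]
    exact (Complex.abs_im_le_norm _).trans (hu E hE.1 t ht ht1)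
  have hc : Continuous fun t : ℝ => C * t ^ (1 / 8 : ℝ) * v := by
    have := Real.continuous_rpow_const (show (0 : ℝ) ≤ 1 / 8 by norm_num)
    fun_prop
  have l0 : Tendsto (fun t : ℝ => C * t ^ (1 / 8 : ℝ) * v) (𝓝[>] 0) (𝓝 0) := by
    have l1 := (hc.tendsto 0).mono_left (nhdsWithin_le_nhds (s := Set.Ioi 0))
    rw [Real.zero_rpow (by norm_num), mul_zero, zero_mul] at l1
    exact l1
  have hmem : Set.Ioc (0 : ℝ) 1 ∈ 𝓝[>] (0 : ℝ) := Ioc_mem_nhdsGT one_pos
  have hPint : ∀ t : ℝ, 0 < t → Integrable (fun k => ∫ E in Sk d κ, pk t (sym k - E)) (cube d) := by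
    intro t ht
    refine Integrable.of_bound (C := Real.pi) ?_ ?_
    · have : IsFiniteMeasure (volume.restrict (Sk d κ)) :=
        ⟨by rw [Measure.restrict_apply_univ]; exact hfin⟩
      refine Continuous.aestronglyMeasurable ?_
      refine continuous_of_dominated (bound := fun _ => t⁻¹) ?_ ?_ (integrable_const _) ?_
      · intro k
        exact (pk_Sint d κ t (sym k) ht).aestronglyMeasurable
      · intro k
        refine Filter.Eventually.of_forall fun E => ?_
        rw [Real.norm_eq_abs, abs_of_nonneg (pk_nonneg _ _ ht)]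
        exact pk_le _ _ ht
      · refine Filter.Eventually.of_forall fun E => ?_
        have h1 := pk_cont t ht
        have h2 := sym_cont d
        fun_prop
    · refine Filter.Eventually.of_forall fun k => ?_
      rw [Real.norm_eq_abs, abs_of_nonneg (pkS_nonneg d κ t _ ht)]
      exact pkS_le d κ t _ hκ ht
  constructor
  · have l1 : Tendsto (fun t : ℝ => (Real.pi - 2 * t / κ) * (cube d).real (Gd d κ) -
        C * t ^ (1 / 8 : ℝ) * v) (𝓝[>] 0) (𝓝 (Real.pi * (cube d).real (Gd d κ))) := by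
      have hc2 : Continuous fun t : ℝ => (Real.pi - 2 * t / κ) * (cube d).real (Gd d κ) := by
        fun_prop
      have l2 := (hc2.tendsto 0).mono_left (nhdsWithin_le_nhds (s := Set.Ioi 0))
      have l3 := l2.sub l0
      simp only [mul_zero, zero_div, sub_zero] at l3
      exact l3
    have h1 : Real.pi * (cube d).real (Gd d κ) ≤ ∫ E in Sk d κ, (G0 d E).im := by
      refine le_of_tendsto l1 ?_
      filter_upwards [hmem] with t ht
      have h2 := key t ht.1 ht.2
      rw [swap d κ t ht.1] at h2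
      have h3 : (Real.pi - 2 * t / κ) * (cube d).real (Gd d κ) ≤
          ∫ k, (∫ E in Sk d κ, pk t (sym k - E)) ∂(cube d) := by
        have h4 : (Real.pi - 2 * t / κ) * (cube d).real (Gd d κ) =
            ∫ _k in Gd d κ, (Real.pi - 2 * t / κ) ∂(cube d) := by
          rw [setIntegral_const, smul_eq_mul, mul_comm]
        rw [h4]
        refine (setIntegral_mono_on (integrable_const _).integrableOn
          (hPint t ht.1).integrableOn (Gd_meas d κ)
          fun k hk => pkS_ge d κ t _ κ ht.1 hκ (Gd_sub d hd κ hκ k hk)).trans ?_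
        exact setIntegral_le_integral (hPint t ht.1)
          (Filter.Eventually.of_forall fun k => pkS_nonneg d κ t _ ht.1)
      have h5 := (abs_le.1 h2).2
      linarith
    refine le_trans ?_ h1
    exact mul_le_mul_of_nonneg_left (Gd_ge hO d hd κ hκ) Real.pi_pos.le
  · have l1 : Tendsto (fun t : ℝ => Real.pi + C * t ^ (1 / 8 : ℝ) * v) (𝓝[>] 0)
        (𝓝 (Real.pi + 0)) := l0.const_add _
    rw [add_zero] at l1
    refine ge_of_tendsto l1 ?_
    filter_upwards [hmem] with t ht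
    have h2 := key t ht.1 ht.2
    rw [swap d κ t ht.1] at h2
    have h3 : ∫ k, (∫ E in Sk d κ, pk t (sym k - E)) ∂(cube d) ≤ Real.pi := by
      refine (integral_mono (hPint t ht.1) (integrable_const Real.pi)
        fun k => pkS_le d κ t _ hκ ht.1).trans (le_of_eq ?_)
      rw [integral_const, probReal_univ, one_smul]
    have h5 := (abs_le.1 h2).1
    linarith

end Pool.Agent.Q62.QD
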