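import Pool.Agent.Q62.QD.Full
import Pool.Agent.Q62.QD.Far
import Pool.Agent.Q62.QD.Base
import Pool.Agent.TH794.QE.FinB
import Pool.Agent.TH794.QE.FinC

/-! The mean square displacement: analytic part. -/

set_option autoImplicit false
set_option linter.unusedSectionVars false

open scoped BigOperators Topology ENNReal
open MeasureTheory Filter Set

namespace Pool.Agent.Q62.QD

open Pool.Agent.W788.BK
open Pool.Agent.W788.LD.Spec (S)
open Pool.Agent.H4R2.LO (Zd)
open Pool.Agent.W788.BK.Num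
open Pool.Agent.TH794.QD
open Pool.Agent.TH794.QE
open Pool.Agent.TH794.HK

/-- outside the band the density of states vanishes -/
theorem G0_out (d : ℕ) (hd : 3 ≤ d) (E : ℝ) (h1 : 2 * (d : ℝ) < |E|) (h2 : |E| ≤ 3 * d) :
    (G0 d E).im = 0 := by
  have hR : RegE d 1 E := Or.inr ⟨hd, h2⟩
  have hb := bvals sO d (by omega) 1 one_pos le_rfl E hR
  have hlim := (Complex.continuous_im.tendsto _).comp hb.1
  refine le_antisymm ?_ (hb.2.2.1.trans hb.2.2.2)
  have hg : 0 < |E| - 2 * d := by linarith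
  have h3 : Tendsto (fun t : ℝ => t / (|E| - 2 * d) ^ 2) (𝓝[>] 0) (𝓝 0) := by
    have h4 : Tendsto (fun t : ℝ => t / (|E| - 2 * d) ^ 2) (𝓝 0) (𝓝 (0 / (|E| - 2 * d) ^ 2)) :=
      (continuous_id.div_const _).tendsto 0
    rw [zero_div] at h4
    exact h4.mono_left nhdsWithin_le_nhds
  refine le_of_tendsto_of_tendsto hlim h3 ?_
  filter_upwards [self_mem_nhdsWithin] with t ht
  have ht0 : 0 < t := ht
  change (GF (F0 d) ((E : ℂ) + (t : ℂ) * Complex.I)).im ≤ t / (|E| - 2 * d) ^ 2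
  rw [GF0_im d E t ht0]
  have h5 : ∀ k : Fin d → ℝ, pk t (sym k - E) ≤ t / (|E| - 2 * d) ^ 2 := by
    intro k
    unfold pk
    have h6 : |E| - 2 * d ≤ |sym k - E| := by
      have h7 := sym_le k
      have h8 := abs_sub_abs_le_abs_sub E (sym k)
      rw [abs_sub_comm] at h8
      linarith
    have h9 : (|E| - 2 * d) ^ 2 ≤ (sym k - E) ^ 2 := by
      rw [← sq_abs (sym k - E)]
      exact pow_le_pow_left₀ hg.le h6 2
    gcongr
    nlinarith [sq_nonneg t]
  calc ∫ k, pk t (sym k - E) ∂(cube d) ≤ ∫ _k, t / (|E| - 2 * d) ^ 2 ∂(cube d) :=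
        integral_mono (pk_int t E ht0) (integrable_const _) h5
    _ = t / (|E| - 2 * d) ^ 2 := by simp

theorem Pg_out (d : ℕ) (hd : 3 ≤ d) (u E : ℝ) (h1 : 2 * (d : ℝ) < |E|) (h2 : |E| ≤ 3 * d) :
    Pg (G0 d) (G1 d) u E = 0 := by
  have hR : RegE d 1 E := Or.inr ⟨hd, h2⟩
  have hb := bvals sO d (by omega) 1 one_pos le_rfl E hR
  have h3 := G0_out d hd E h1 h2
  have h4 : (G1 d E).im = 0 := le_antisymm (hb.2.2.2.trans h3.le) hb.2.2.1
  unfold Pg
  rw [h4, zero_div]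

theorem Reg_Icc (d : ℕ) (hd : 3 ≤ d) : {E : ℝ | RegE d 1 E} = Icc (-(3 * (d : ℝ))) (3 * d) := by
  ext E
  simp only [mem_ofPred_eq, mem_Icc]
  rw [← abs_le]
  constructor
  · rintro (h | h)
    · omega
    · exact h.2
  · intro h
    exact Or.inr ⟨hd, h⟩

theorem Pg_cont (d : ℕ) (hd : 3 ≤ d) (u : ℝ) (hu : 0 < u) :
    ContinuousOn (Pg (G0 d) (G1 d) u) (Icc (-(3 * (d : ℝ))) (3 * d)) := by
  rw [← Reg_Icc d hd]
  unfold Pg
  refine ContinuousOn.div ?_ ?_ ?_
  · exact Complex.continuous_im.comp_continuousOn (G1_cont sO d (by omega) 1 one_pos le_rfl)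
  · exact continuousOn_const.add
      (Complex.continuous_im.comp_continuousOn (G0_cont sO d (by omega) 1 one_pos le_rfl))
  · intro E hE
    have hb := bvals sO d (by omega) 1 one_pos le_rfl E hE
    have : 0 ≤ (G0 d E).im := hb.2.2.1.trans hb.2.2.2
    linarith

theorem Pg_Icc (d : ℕ) (hd : 3 ≤ d) (u : ℝ) :
    ∫ E in Icc (-(3 * (d : ℝ))) (3 * d), Pg (G0 d) (G1 d) u E =
      ∫ E in Ba d, Pg (G0 d) (G1 d) u E := by
  have hd3 : (3 : ℝ) ≤ d := by exact_mod_cast hd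
  have hsub : Icc (-(2 * (d : ℝ))) (2 * d) ⊆ Icc (-(3 * (d : ℝ))) (3 * d) := by
    intro E hE
    constructor <;> linarith [hE.1, hE.2]
  have h1 : ∫ E in Icc (-(3 * (d : ℝ))) (3 * d), Pg (G0 d) (G1 d) u E =
      ∫ E in Icc (-(2 * (d : ℝ))) (2 * d), Pg (G0 d) (G1 d) u E := by
    refine setIntegral_eq_of_subset_of_forall_sdiff_eq_zero measurableSet_Icc hsub ?_
    intro E hE
    refine Pg_out d hd u E ?_ (abs_le.2 hE.1)
    by_contra h
    exact hE.2 (abs_le.1 (not_lt.1 h))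
  rw [h1, integral_Icc_eq_integral_Ioo]
  unfold Ba
  rfl

/-- the abstract comparison -/
theorem msd_cmp (d : ℕ) (hd : 3 ≤ d) (Q : ℝ → ℝ) (hQm : Measurable Q) (hQ0 : ∀ E, 0 ≤ Q E)
    (t s2 κ1 : ℝ) (ht : 0 < t) (hs2 : 0 < s2) (hκ1 : 0 ≤ κ1)
    (hin : ∀ E : ℝ, |2 * (d : ℝ) - E| ≤ 3 * d →
      |t ^ 2 * s2 * Q E - 2 * Pg (G0 d) (G1 d) (t / s2) (2 * d - E)| ≤ κ1)
    (hout : ∀ E : ℝ, 3 * (d : ℝ) < |2 * (d : ℝ) - E| → Q E ≤ 26 * (1 + (2 * (d : ℝ) - E) ^ 2)⁻¹) :
    Integrable Q ∧ |t ^ 2 * s2 * (∫ E, Q E) - 2 * ∫ E in Ba d, Pg (G0 d) (G1 d) (t / s2) E| ≤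
      6 * d * κ1 + t ^ 2 * s2 * (26 * Real.pi) := by
  obtain ⟨P, hP⟩ : ∃ P, P = Pg (G0 d) (G1 d) (t / s2) := ⟨_, rfl⟩
  obtain ⟨D, hD⟩ : ∃ D : ℝ, D = 3 * d := ⟨_, rfl⟩
  obtain ⟨m, hm⟩ : ∃ m : ℝ, m = 2 * d := ⟨_, rfl⟩
  have hD0 : 0 ≤ D := by rw [hD]; positivity
  have hPc := Pg_cont d hd (t / s2) (by positivity)
  have hPI := Pg_Icc d hd (t / s2)
  rw [← hP] at hPc hPI hin ⊢
  rw [← hD] at hPc hPI
  simp only [← hD, ← hm] at hin hout
  have hts : 0 < t ^ 2 * s2 := by positivity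
  -- the set
  obtain ⟨A, hA⟩ : ∃ A : Set ℝ, A = Icc (m - D) (m + D) := ⟨_, rfl⟩
  have hAm : MeasurableSet A := by rw [hA]; exact measurableSet_Icc
  have hmA : ∀ E, E ∈ A ↔ |m - E| ≤ D := by
    intro E
    rw [hA, mem_Icc, abs_le]
    constructor
    · rintro ⟨h1, h2⟩
      constructor <;> linarith
    · rintro ⟨h1, h2⟩
      constructor <;> linarith
  have hPc2 : ContinuousOn (fun E => P (m - E)) A := by
    refine hPc.comp (continuous_const.sub continuous_id).continuousOn fun E hE => ?_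
    exact abs_le.1 ((hmA E).1 hE)
  have hPi : IntegrableOn (fun E => P (m - E)) A := by
    refine hPc2.integrableOn_compact ?_
    rw [hA]
    exact isCompact_Icc
  have hQA : IntegrableOn Q A := by
    have h1 : IntegrableOn (fun E => (2 * |P (m - E)| + κ1) / (t ^ 2 * s2)) A := by
      refine Integrable.div_const (Integrable.add (hPi.abs.const_mul 2) ?_) _
      rw [hA]
      exact integrableOn_const (by simp) (by simp)
    refine h1.mono' hQm.aestronglyMeasurable ?_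
    rw [ae_restrict_iff' hAm]
    refine Filter.Eventually.of_forall fun E hE => ?_
    rw [Real.norm_eq_abs, abs_of_nonneg (hQ0 E), le_div_iff₀ hts]
    have h2 := (abs_le.1 (hin E ((hmA E).1 hE))).2
    have h3 := le_abs_self (P (m - E))
    linarith
  have hbi : Integrable fun E : ℝ => 26 * (1 + (m - E) ^ 2)⁻¹ := by
    have h1 := integrable_inv_one_add_sq.comp_sub_left m
    exact h1.const_mul 26
  have hQc : IntegrableOn Q Aᶜ := by
    refine hbi.integrableOn.mono' hQm.aestronglyMeasurable ?_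
    rw [ae_restrict_iff' hAm.compl]
    refine Filter.Eventually.of_forall fun E hE => ?_
    rw [Real.norm_eq_abs, abs_of_nonneg (hQ0 E)]
    exact hout E (not_le.1 fun h => hE ((hmA E).2 h))
  have hQi : Integrable Q := by
    rw [← integrableOn_univ, ← union_compl_self A]
    exact hQA.union hQc
  refine ⟨hQi, ?_⟩
  have hsplit := integral_add_compl hAm hQi
  have hc1 : 0 ≤ ∫ E in Aᶜ, Q E := setIntegral_nonneg hAm.compl fun E _ => hQ0 E
  have hc2 : ∫ E in Aᶜ, Q E ≤ 26 * Real.pi := by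
    calc ∫ E in Aᶜ, Q E ≤ ∫ E in Aᶜ, 26 * (1 + (m - E) ^ 2)⁻¹ := by
          refine setIntegral_mono_on hQc hbi.integrableOn hAm.compl fun E hE => ?_
          exact hout E (not_le.1 fun h => hE ((hmA E).2 h))
      _ ≤ ∫ E, 26 * (1 + (m - E) ^ 2)⁻¹ :=
          setIntegral_le_integral hbi (Filter.Eventually.of_forall fun E => by positivity)
      _ = 26 * Real.pi := by
          rw [integral_const_mul]
          have h1 := integral_sub_left_eq_self (fun E : ℝ => (1 + E ^ 2)⁻¹) volume m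
          rw [h1, integral_univ_inv_one_add_sq]
  -- the inner part
  have hPA : ∫ E in A, P (m - E) = ∫ E in Ba d, P E := by
    rw [← hPI, ← integral_indicator hAm, ← integral_indicator measurableSet_Icc]
    have h1 := integral_sub_left_eq_self (fun E : ℝ => (Icc (-D) D).indicator P E) volume m
    rw [← h1]
    congr 1
    funext E
    by_cases hE : E ∈ A
    · rw [indicator_of_mem hE, indicator_of_mem (mem_Icc.2 (abs_le.1 ((hmA E).1 hE)))]
    · rw [indicator_of_notMem hE, indicator_of_notMem]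
      intro h
      exact hE ((hmA E).2 (abs_le.2 h))
  have hAv : volume.real A = 2 * D := by
    rw [hA, Real.volume_real_Icc_of_le (by linarith)]
    ring
  have hmain : |t ^ 2 * s2 * (∫ E in A, Q E) - 2 * ∫ E in Ba d, P E| ≤ κ1 * (2 * D) := by
    rw [← hPA, ← integral_const_mul, ← integral_const_mul,
      ← integral_sub (hQA.const_mul _) (hPi.const_mul _), ← hAv, ← Real.norm_eq_abs]
    refine norm_setIntegral_le_of_norm_le_const ?_ fun E hE => ?_
    · rw [hA]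
      simp
    · rw [Real.norm_eq_abs]
      exact hin E ((hmA E).1 hE)
  rw [← hsplit, mul_add]
  have e1 : t ^ 2 * s2 * (∫ E in A, Q E) + t ^ 2 * s2 * (∫ E in Aᶜ, Q E) -
      2 * (∫ E in Ba d, P E) = (t ^ 2 * s2 * (∫ E in A, Q E) - 2 * (∫ E in Ba d, P E)) +
        t ^ 2 * s2 * (∫ E in Aᶜ, Q E) := by ring
  rw [e1]
  refine (abs_add_le _ _).trans ?_
  have h5 : |t ^ 2 * s2 * (∫ E in Aᶜ, Q E)| ≤ t ^ 2 * s2 * (26 * Real.pi) := by
    rw [abs_of_nonneg (by positivity)]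
    gcongr
  have e2 : κ1 * (2 * D) = 6 * d * κ1 := by
    rw [hD]
    ring
  linarith

end Pool.Agent.Q62.QD
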