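import Pool.Agent.Q62.QD.MsdA

/-! The mean square displacement. -/

set_option autoImplicit false
set_option linter.unusedSectionVars false

open scoped BigOperators Topology ENNReal
open MeasureTheory Filter Set

namespace Pool.Agent.Q62.QD

open Pool.Agent.W788.BK
open Pool.Agent.W788.LD.Spec (S)
open Pool.Agent.H4R2.LO (Zd)
open Pool.Agent.W788.BK.Num
open Pool.Agent.TH794.QD
open Pool.Agent.TH794.QE
open Pool.Agent.TH794.HK

/-- the time average of the mean square displacement -/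
noncomputable def Mbar {d : ℕ} (ψ : ℝ → Zd d → ℂ) (a : Zd d) (j : Fin d) (T : ℝ) : ℝ≥0∞ :=
  ENNReal.ofReal (1 / T) * ∫⁻ s in Ioi (0 : ℝ), ENNReal.ofReal (Real.exp (-(s / T))) * M2 ψ a j s

theorem Mbar_eq {d : ℕ} {V : Zd d → ℝ} {a : Zd d} {ψ : ℝ → Zd d → ℂ} (h : Sol d V a ψ)
    (T : ℝ) (hT : 1 ≤ T) (j : Fin d)
    (hQi : Integrable fun E : ℝ => QM a j fun x => Complex.I * La ψ E (1 / (2 * T)) x) :
    Mbar ψ a j T ≠ ⊤ ∧ (Mbar ψ a j T).toReal =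
      1 / (2 * Real.pi * T) * ∫ E : ℝ, QM a j fun x => Complex.I * La ψ E (1 / (2 * T)) x := by
  have hT0 : 0 < T := by linarith
  have hm := mom_lint h (1 / (2 * T)) (by positivity) (by
    rw [div_le_one (by positivity)]
    linarith) j
  have hQ0 : ∀ E : ℝ, 0 ≤ QM a j fun x => Complex.I * La ψ E (1 / (2 * T)) x := fun E =>
    tsum_nonneg fun x => by positivity
  rw [← ofReal_integral_eq_lintegral_ofReal hQi (Filter.Eventually.of_forall hQ0)] at hm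
  have e1 : ∀ s : ℝ, -(2 * (1 / (2 * T))) * s = -(s / T) := by
    intro s
    field_simp
  simp only [e1] at hm
  obtain ⟨X, hX⟩ : ∃ X, X = ∫⁻ s in Ioi (0 : ℝ), ENNReal.ofReal (Real.exp (-(s / T))) *
    M2 ψ a j s := ⟨_, rfl⟩
  obtain ⟨I, hI⟩ : ∃ I : ℝ, I = ∫ E : ℝ, QM a j fun x => Complex.I * La ψ E (1 / (2 * T)) x :=
    ⟨_, rfl⟩
  rw [← hX, ← hI] at hm
  have hI0 : 0 ≤ I := by rw [hI]; exact integral_nonneg hQ0
  have hXt : X ≠ ⊤ := by
    intro hXt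
    rw [hXt, ENNReal.mul_top (by
      rw [Ne, ENNReal.ofReal_eq_zero, not_le]
      positivity)] at hm
    exact ENNReal.ofReal_ne_top hm
  have hXr : I = 2 * Real.pi * X.toReal := by
    have h1 := congrArg ENNReal.toReal hm
    rw [ENNReal.toReal_ofReal hI0, ENNReal.toReal_mul, ENNReal.toReal_ofReal (by positivity)] at h1
    exact h1
  unfold Mbar
  rw [← hX, ← hI]
  refine ⟨ENNReal.mul_ne_top ENNReal.ofReal_ne_top hXt, ?_⟩
  rw [ENNReal.toReal_mul, ENNReal.toReal_ofReal (by positivity), hXr]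
  field_simp

theorem Q_meas {d : ℕ} {V : Zd d → ℝ} {a : Zd d} {ψ : ℝ → Zd d → ℂ} (h : Sol d V a ψ)
    (t : ℝ) (ht : 0 < t) (ht1 : t ≤ 1) (j : Fin d) :
    Measurable fun E : ℝ => QM a j fun x => Complex.I * La ψ E t x := by
  have h1 : ∀ E : ℝ, (QM a j fun x => Complex.I * La ψ E t x) =
      (∑' x, ENNReal.ofReal (((x j : ℝ) - a j) ^ 2) * ‖La ψ E t x‖ₑ ^ 2).toReal := by
    intro E
    have hR : Rs d V a E t (fun x => Complex.I * La ψ E t x) := ⟨La_sum h E t ht, La_eq h E t ht⟩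
    have hs := (QM_eq hR (fun x => -V x) 0 1 (fun x => by ring) ht ht1 j).1
    have hQ0 : 0 ≤ QM a j fun x => Complex.I * La ψ E t x := tsum_nonneg fun x => by positivity
    rw [← ENNReal.toReal_ofReal hQ0]
    congr 1
    unfold QM
    rw [ENNReal.ofReal_tsum_of_nonneg (fun x => by positivity) hs]
    refine tsum_congr fun x => ?_
    rw [ENNReal.ofReal_mul (sq_nonneg _), norm_mul, Complex.norm_I, one_mul,
      ENNReal.ofReal_pow (norm_nonneg _), ofReal_norm]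
  have h2 : (fun E : ℝ => QM a j fun x => Complex.I * La ψ E t x) = fun E =>
      (∑' x, ENNReal.ofReal (((x j : ℝ) - a j) ^ 2) * ‖La ψ E t x‖ₑ ^ 2).toReal := funext h1
  rw [h2]
  refine (Measurable.ennreal_tsum fun x => ?_).ennreal_toReal
  exact ((La_cont h t ht x).measurable.enorm.pow_const 2).const_mul _

/-- **the mean square displacement** -/
theorem msd (d : ℕ) (hd : 3 ≤ d) (v : ℝ) (hv : 0 < v) :
    ∃ c0 : ℝ, 0 < c0 ∧ ∀ c : ℝ, 0 < c → c ≤ c0 →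
    ∀ (μ : Measure ℝ), IsProbabilityMeasure μ → (∀ᵐ s ∂μ, |s| ≤ c) → ∫ s, s ∂μ = 0 →
    ∀ s2 : ℝ, ∫ s, s ^ 2 ∂μ = s2 → v * c ^ 2 ≤ s2 →
      ∃ G : Set (Zd d → ℝ), MeasurableSet G ∧
        1 - Real.exp (-c ^ (-(1 / 101) : ℝ)) ≤
          (Measure.infinitePi fun _ : Zd d => μ).real G ∧
        ∀ ω ∈ G, (∀ x, |ω x| ≤ c) ∧
          ∀ a : Zd d, ‖a‖ ≤ Real.exp (c ^ (-(1 / 101) : ℝ)) →
          ∀ ψ : ℝ → Zd d → ℂ, Sol d (fun x => 2 * d + ω x) a ψ →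
          ∀ T : ℝ, 1 / (2 * s2) ≤ T → T ≤ 1 / (2 * c ^ (81 / 40 : ℝ)) → ∀ j : Fin d,
            Mbar ψ a j T ≠ ⊤ ∧
            |s2 * ((Mbar ψ a j T).toReal / (2 * T)) -
              2 / Real.pi * ∫ E in Ba d, Pg (G0 d) (G1 d) (1 / (2 * T * s2)) E| ≤
                c ^ (1 / 310 : ℝ) := by
  have hd3 : (3 : ℝ) ≤ d := by exact_mod_cast hd
  have hpi := Real.pi_pos
  have hpi3 := Real.pi_gt_three
  obtain ⟨c1, hc1, hL⟩ := finE d (RegE d 1) (Pg (G0 d) (G1 d)) v hv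
    (engM sES sTH sFL sIN sSU sQB sLO sAD sFA sO d (by omega) 1 one_pos le_rfl 1 v one_pos hv)
    (fun u u' E hu hu' hE => by
      have hb := bvals sO d (by omega) 1 one_pos le_rfl E hE
      exact Pg_u _ _ u u' E hu hu' hb.2.2.1 hb.2.2.2)
  -- smallness of the error
  obtain ⟨c2, hc2, hc2'⟩ : ∃ c2 : ℝ, 0 < c2 ∧ ∀ c : ℝ, 0 < c → c ≤ c2 →
      2 * d * c ^ (1 / 300 : ℝ) + 26 * c ^ 6 ≤ c ^ (1 / 310 : ℝ) := by
    have hlim : Tendsto (fun c : ℝ => 2 * (d : ℝ) * c ^ (1 / 9300 : ℝ) +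
        26 * c ^ (6 - 1 / 310 : ℝ)) (𝓝[>] 0) (𝓝 0) := by
      have h1 : Tendsto (fun c : ℝ => c ^ (1 / 9300 : ℝ)) (𝓝[>] 0) (𝓝 0) := by
        have := (Real.continuousAt_rpow_const 0 (1 / 9300 : ℝ) (Or.inr (by norm_num))).tendsto
        rw [Real.zero_rpow (by norm_num)] at this
        exact this.mono_left nhdsWithin_le_nhds
      have h2 : Tendsto (fun c : ℝ => c ^ (6 - 1 / 310 : ℝ)) (𝓝[>] 0) (𝓝 0) := by
        have := (Real.continuousAt_rpow_const 0 (6 - 1 / 310 : ℝ)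
          (Or.inr (by norm_num))).tendsto
        rw [Real.zero_rpow (by norm_num)] at this
        exact this.mono_left nhdsWithin_le_nhds
      have h3 := (h1.const_mul (2 * (d : ℝ))).add (h2.const_mul 26)
      simpa using h3
    have hev := hlim.eventually (gt_mem_nhds (show (0 : ℝ) < 1 by norm_num))
    rw [eventually_nhdsWithin_iff, Metric.eventually_nhds_iff] at hev
    obtain ⟨r, hr, h4⟩ := hev
    refine ⟨r / 2, by positivity, fun c hc hcr => ?_⟩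
    have h5 := h4 (y := c) (by
      rw [Real.dist_eq, sub_zero, abs_of_pos hc]
      linarith) hc
    have e1 : c ^ (1 / 300 : ℝ) = c ^ (1 / 310 : ℝ) * c ^ (1 / 9300 : ℝ) := by
      rw [← Real.rpow_add hc]
      norm_num
    have e2 : c ^ 6 = c ^ (1 / 310 : ℝ) * c ^ (6 - 1 / 310 : ℝ) := by
      rw [← Real.rpow_add hc, ← Real.rpow_natCast]
      norm_num
    rw [e1, e2]
    have h6 : 0 < c ^ (1 / 310 : ℝ) := Real.rpow_pos_of_pos hc _
    calc 2 * (d : ℝ) * (c ^ (1 / 310 : ℝ) * c ^ (1 / 9300 : ℝ)) +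
        26 * (c ^ (1 / 310 : ℝ) * c ^ (6 - 1 / 310 : ℝ)) =
        c ^ (1 / 310 : ℝ) * (2 * (d : ℝ) * c ^ (1 / 9300 : ℝ) +
          26 * c ^ (6 - 1 / 310 : ℝ)) := by ring
      _ ≤ c ^ (1 / 310 : ℝ) * 1 := by gcongr
      _ = _ := mul_one _
  refine ⟨min c1 (min c2 (1 / 2)), lt_min hc1 (lt_min hc2 (by norm_num)),
    fun c hc hcc μ hμ hμb hμ0 s2 hs2 hvs => ?_⟩
  have hcc2 : c ≤ c2 := hcc.trans ((min_le_right _ _).trans (min_le_left _ _))
  have hch : c ≤ 1 / 2 := hcc.trans ((min_le_right _ _).trans (min_le_right _ _))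
  obtain ⟨G, hG, hP, hGL⟩ := hL c hc (hcc.trans (min_le_left _ _)) μ hμ hμb hμ0 s2 hs2 hvs
  refine ⟨G, hG, hP, fun ω hω => ⟨(hGL ω hω).1, ?_⟩⟩
  intro a ha ψ hψ T hT1 hT2 j
  have hωb := (hGL ω hω).1
  have hs20 : 0 < s2 := lt_of_lt_of_le (by positivity) hvs
  have hs2c : s2 ≤ c ^ 2 := by
    rw [← hs2]
    have h1 : ∫ s, s ^ 2 ∂μ ≤ ∫ _s, c ^ 2 ∂μ := by
      apply integral_mono_of_nonneg (Filter.Eventually.of_forall fun s => sq_nonneg _)
        (integrable_const _)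
      filter_upwards [hμb] with s hs
      rw [← sq_abs s]
      exact pow_le_pow_left₀ (abs_nonneg _) hs 2
    rw [integral_const, probReal_univ, one_smul] at h1
    exact h1
  have hT0 : 0 < T := lt_of_lt_of_le (by positivity) hT1
  have hcp : 0 < c ^ (81 / 40 : ℝ) := Real.rpow_pos_of_pos hc _
  obtain ⟨t, ht⟩ : ∃ t, t = 1 / (2 * T) := ⟨_, rfl⟩
  have ht0 : 0 < t := by rw [ht]; positivity
  have ht1 : t ≤ s2 := by
    rw [ht, div_le_iff₀ (by positivity)]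
    rw [div_le_iff₀ (by positivity)] at hT1
    linarith
  have ht2 : c ^ (81 / 40 : ℝ) ≤ t := by
    rw [ht, le_div_iff₀ (by positivity)]
    rw [le_div_iff₀ (by positivity)] at hT2
    linarith
  have hc21 : c ^ 2 ≤ 1 / 4 := by nlinarith
  have hts : t ≤ 1 := by linarith
  have hTt : T = 1 / (2 * t) := by
    rw [ht]
    field_simp
  have hT1' : 1 ≤ T := by
    rw [hTt, le_div_iff₀ (by positivity)]
    linarith
  obtain ⟨Q, hQ⟩ : ∃ Q : ℝ → ℝ, Q = fun E => QM a j fun x => Complex.I * La ψ E t x := ⟨_, rfl⟩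
  have hQm : Measurable Q := by
    rw [hQ]
    exact Q_meas hψ t ht0 hts j
  have hQ0 : ∀ E, 0 ≤ Q E := by
    intro E
    rw [hQ]
    exact tsum_nonneg fun x => by positivity
  have hR : ∀ E, Rs d (fun x => 2 * (d : ℝ) + ω x) a E t (fun x => Complex.I * La ψ E t x) :=
    fun E => ⟨La_sum hψ E t ht0, La_eq hψ E t ht0⟩
  have hin : ∀ E : ℝ, |2 * (d : ℝ) - E| ≤ 3 * d →
      |t ^ 2 * s2 * Q E - 2 * Pg (G0 d) (G1 d) (t / s2) (2 * d - E)| ≤ c ^ (1 / 300 : ℝ) := by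
    intro E hE
    rw [hQ]
    exact ((hGL ω hω).2 a ha E (Or.inr ⟨hd, hE⟩) t ht2 ht1 _ (hR E) j).2
  have hout : ∀ E : ℝ, 3 * (d : ℝ) < |2 * (d : ℝ) - E| →
      Q E ≤ 26 * (1 + (2 * (d : ℝ) - E) ^ 2)⁻¹ := by
    intro E hE
    obtain ⟨x, hx⟩ : ∃ x, x = |2 * (d : ℝ) - E| := ⟨_, rfl⟩
    rw [← hx] at hE
    have hx9 : 9 < x := by linarith
    have hx4 : x / 4 ≤ x - 2 * d - 1 / 2 := by linarith
    have h1 := far (hR E) ht0 hts (δ := x / 4) (by linarith) (fun z => by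
      have h2 := abs_sub_abs_le_abs_sub (2 * (d : ℝ) - E) (-(ω z))
      have h3 : 2 * (d : ℝ) - E - -(ω z) = 2 * (d : ℝ) + ω z - E := by ring
      rw [h3, ← hx, abs_neg] at h2
      have h4 := hωb z
      linarith) j
    rw [hQ]
    refine h1.trans ?_
    have e1 : (2 * (d : ℝ) - E) ^ 2 = x ^ 2 := by rw [hx, sq_abs]
    rw [e1, ← div_eq_mul_inv, div_le_div_iff₀ (by positivity) (by positivity)]
    have h5 : 81 ≤ x ^ 2 := by nlinarith
    have e2 : (x / 4) ^ 4 = x ^ 2 * x ^ 2 / 256 := by ring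
    rw [e2]
    nlinarith
  obtain ⟨hQi, hcmp⟩ := msd_cmp d hd Q hQm hQ0 t s2 (c ^ (1 / 300 : ℝ)) ht0 hs20
    (Real.rpow_nonneg hc.le _) hin hout
  have hM := Mbar_eq hψ T hT1' j (by
    rw [← ht]
    have := hQi
    rw [hQ] at this
    exact this)
  refine ⟨hM.1, ?_⟩
  rw [hM.2, ← ht]
  have eQ : (∫ E : ℝ, QM a j fun x => Complex.I * La ψ E t x) = ∫ E, Q E := by rw [hQ]
  rw [eQ]
  have e1 : 1 / (2 * T * s2) = t / s2 := by
    rw [ht]
    field_simp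
  rw [e1]
  obtain ⟨I, hI⟩ : ∃ I, I = ∫ E, Q E := ⟨_, rfl⟩
  obtain ⟨J, hJ⟩ : ∃ J, J = ∫ E in Ba d, Pg (G0 d) (G1 d) (t / s2) E := ⟨_, rfl⟩
  rw [← hI, ← hJ] at hcmp ⊢
  have e2 : s2 * (1 / (2 * Real.pi * T) * I / (2 * T)) - 2 / Real.pi * J =
      1 / Real.pi * (t ^ 2 * s2 * I - 2 * J) := by
    rw [hTt]
    field_simp
  rw [e2, abs_mul, abs_of_pos (by positivity : 0 < 1 / Real.pi)]
  have h7 : t ^ 2 * s2 ≤ c ^ 6 := by
    calc t ^ 2 * s2 ≤ (c ^ 2) ^ 2 * c ^ 2 := by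
          have := ht1.trans hs2c
          gcongr
      _ = c ^ 6 := by ring
  have hs3 : 0 ≤ c ^ (1 / 300 : ℝ) := Real.rpow_nonneg hc.le _
  calc 1 / Real.pi * |t ^ 2 * s2 * I - 2 * J| ≤
      1 / Real.pi * (6 * d * c ^ (1 / 300 : ℝ) + t ^ 2 * s2 * (26 * Real.pi)) := by gcongr
    _ ≤ 1 / Real.pi * (6 * d * c ^ (1 / 300 : ℝ) + c ^ 6 * (26 * Real.pi)) := by gcongr
    _ = 6 / Real.pi * (d * c ^ (1 / 300 : ℝ)) + 26 * c ^ 6 := by
        field_simp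
    _ ≤ 2 * (d * c ^ (1 / 300 : ℝ)) + 26 * c ^ 6 := by
        have h8 : 6 / Real.pi ≤ 2 := by
          rw [div_le_iff₀ hpi]
          linarith
        gcongr
    _ = 2 * d * c ^ (1 / 300 : ℝ) + 26 * c ^ 6 := by ring
    _ ≤ c ^ (1 / 310 : ℝ) := hc2' c hc hcc2

end Pool.Agent.Q62.QD
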