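import Pool.Agent.Q62.QD.Base

/-! The evolution leaves the neighbourhood of the starting point. -/

set_option autoImplicit false
set_option linter.unusedSectionVars false

open scoped BigOperators Topology
open MeasureTheory Filter Set

namespace Pool.Agent.Q62.QD

open Pool.Agent.W788.BK
open Pool.Agent.W788.LD.Spec (S)
open Pool.Agent.H4R2.LO (Zd)
open Pool.Agent.TH794.QD
open Pool.Agent.TH794.QE
open Pool.Agent.TH794.HK

/-- the averages of the limit tend to zero -/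
theorem nu_small (hO : S_OSC) (d : ℕ) (hd : 2 ≤ d) (ε : ℝ) (hε : 0 < ε) :
    ∃ Q0 : ℝ, 0 < Q0 ∧ ∀ Q : ℝ, Q0 ≤ Q →
      0 ≤ ∫ τ in Ioi (0 : ℝ), Real.exp (-τ) * Nq d Q τ ∧
      ∫ τ in Ioi (0 : ℝ), Real.exp (-τ) * Nq d Q τ ≤ ε := by
  have hpi := Real.pi_pos
  obtain ⟨κ, hκd⟩ : ∃ κ, κ = min 1 ((ε / 1200) ^ 2 / 2) := ⟨_, rfl⟩
  have hκ : 0 < κ := by rw [hκd]; positivity
  have hκ1 : κ ≤ 1 := by rw [hκd]; exact min_le_left _ _
  have hκ2 : 600 * (2 * κ) ^ (1 / 2 : ℝ) ≤ ε / 2 := by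
    rw [← Real.sqrt_eq_rpow]
    have h1 : Real.sqrt (2 * κ) ≤ ε / 1200 := by
      refine Real.sqrt_le_iff.2 ⟨by positivity, ?_⟩
      have : κ ≤ (ε / 1200) ^ 2 / 2 := by rw [hκd]; exact min_le_right _ _
      linarith
    linarith
  obtain ⟨m, hm, hm2⟩ := G1_low hO d hd κ hκ hκ1
  obtain ⟨C, hC⟩ := (Sk_compact d κ).exists_bound_of_continuousOn
    ((G0_cont hO d hd κ hκ hκ1).mono (Sk_Reg d κ))
  obtain ⟨C1, hC1⟩ : ∃ C1, C1 = max C 1 := ⟨_, rfl⟩
  have hC10 : 0 < C1 := by rw [hC1]; positivity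
  obtain ⟨D0, hD0⟩ : ∃ D0, D0 = m / C1 ^ 2 := ⟨_, rfl⟩
  have hD00 : 0 < D0 := by rw [hD0]; positivity
  have hDc : ∀ E ∈ Sk d κ, D0 ≤ Dc d E := by
    intro E hE
    have h1 := hm2 E hE
    have h2 := bvals hO d hd κ hκ hκ1 E hE.1
    have h3 : (G0 d E).im ≤ C1 := by
      refine ((le_abs_self _).trans (Complex.abs_im_le_norm _)).trans ((hC E hE).trans ?_)
      rw [hC1]
      exact le_max_left _ _
    have h4 : 0 < (G0 d E).im := by linarith [h2.2.2.2]
    have h5 : 0 ≤ (G1 d E).im := h2.2.2.1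
    rw [hD0]
    unfold Dc
    gcongr
  refine ⟨1 / (ε * D0), by positivity, fun Q hQ => ?_⟩
  have hQ0 : 0 < Q := lt_of_lt_of_le (by positivity) hQ
  have hlap := Nq_lap hO d hd Q hQ0.le 1 one_pos
  have e1 : ∀ τ : ℝ, Real.exp (-1 * τ) * Nq d Q τ = Real.exp (-τ) * Nq d Q τ := by
    intro τ
    rw [neg_one_mul]
  simp only [e1] at hlap
  rw [hlap]
  have hnn : ∀ᵐ E ∂(volume.restrict (Ba d)), 0 ≤ (G0 d E).im / (1 + 2 * Q * Dc d E) ∧
      (G0 d E).im / (1 + 2 * Q * Dc d E) ≤ (G0 d E).im := by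
    filter_upwards [G0_nn hO d hd, Dc_nn hO d hd] with E h1 h2
    have h3 : 0 ≤ 2 * Q * Dc d E := by positivity
    exact ⟨div_nonneg h1.2.2.le (by linarith), div_le_self h1.2.2.le (by linarith)⟩
  have hint : Integrable (fun E => (G0 d E).im / (1 + 2 * Q * Dc d E))
      (volume.restrict (Ba d)) := by
    refine (G0_intB hO d hd).mono' ?_ ?_
    · exact ((G0_intB hO d hd).aemeasurable.div
        (((Dc_meas hO d hd).const_mul _).const_add _)).aestronglyMeasurable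
    · filter_upwards [hnn] with E hE
      rw [Real.norm_eq_abs, abs_of_nonneg hE.1]
      exact hE.2
  constructor
  · refine mul_nonneg (by positivity) (integral_nonneg_of_ae ?_)
    filter_upwards [hnn] with E hE
    exact hE.1
  have h3 := setIntegral_sdiff (Sk_meas d κ) hint (Sk_Ba d κ hκ)
  have h5 : ∫ E in Ba d \ Sk d κ, (G0 d E).im / (1 + 2 * Q * Dc d E) ≤
      Real.pi * (600 * (2 * κ) ^ (1 / 2 : ℝ)) := by
    refine le_trans ?_ (G0_rest hO d hd κ hκ hκ1)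
    refine integral_mono_ae
      (Integrable.mono_measure hint (Measure.restrict_mono sdiff_subset le_rfl))
      (Integrable.mono_measure (G0_intB hO d hd) (Measure.restrict_mono sdiff_subset le_rfl)) ?_
    exact (ae_restrict_of_ae_restrict_of_subset sdiff_subset hnn).mono fun E hE => hE.2
  have h6 : ∫ E in Sk d κ, (G0 d E).im / (1 + 2 * Q * Dc d E) ≤ Real.pi * (ε / 2) := by
    have h7 : ∫ E in Sk d κ, (G0 d E).im / (1 + 2 * Q * Dc d E) ≤
        ∫ E in Sk d κ, (ε / 2) * (G0 d E).im := by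
      refine setIntegral_mono_on ?_ ((G0_int hO d hd κ hκ hκ1).const_mul _) (Sk_meas d κ)
        fun E hE => ?_
      · have := hint.integrableOn (s := Sk d κ)
        unfold IntegrableOn at this
        rwa [res_Sk d κ hκ] at this
      · have h8 := bvals hO d hd κ hκ hκ1 E hE.1
        have h9 : 0 ≤ (G0 d E).im := h8.2.2.1.trans h8.2.2.2
        have h10 : 2 / ε ≤ 1 + 2 * Q * Dc d E := by
          have h11 := hDc E hE
          have h12 : 1 / (ε * D0) * D0 ≤ Q * Dc d E := by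
            refine mul_le_mul hQ h11 hD00.le hQ0.le
          have h13 : 1 / (ε * D0) * D0 = 1 / ε := by field_simp
          rw [h13] at h12
          have h14 : 2 / ε = 2 * (1 / ε) := by ring
          rw [h14]
          linarith
        have h15 : 0 < 2 / ε := by positivity
        rw [div_le_iff₀ (by linarith)]
        have h16 : 1 ≤ ε / 2 * (1 + 2 * Q * Dc d E) := by
          calc (1 : ℝ) = ε / 2 * (2 / ε) := by field_simp
            _ ≤ _ := by gcongr
        calc (G0 d E).im = (G0 d E).im * 1 := (mul_one _).symm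
          _ ≤ (G0 d E).im * (ε / 2 * (1 + 2 * Q * Dc d E)) := by gcongr
          _ = _ := by ring
    refine h7.trans ?_
    rw [integral_const_mul, mul_comm]
    exact mul_le_mul_of_nonneg_right (mass hO d hd κ hκ hκ1).2 (by positivity)
  have h7 : ∫ E in Ba d, (G0 d E).im / (1 + 2 * Q * Dc d E) ≤ Real.pi * ε := by
    have h8 : Real.pi * (600 * (2 * κ) ^ (1 / 2 : ℝ)) ≤ Real.pi * (ε / 2) := by gcongr
    have h9 : Real.pi * ε = Real.pi * (ε / 2) + Real.pi * (ε / 2) := by ring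
    linarith
  calc 1 / Real.pi * ∫ E in Ba d, (G0 d E).im / (1 + 2 * Q * Dc d E) ≤
      1 / Real.pi * (Real.pi * ε) := by gcongr
    _ = ε := by field_simp

/-- the Fejer kernel -/
theorem fej_low (N : ℕ) (z : ℝ) (hz : (N : ℝ) * |z| ≤ 1) :
    (N : ℝ) ^ 2 / 4 ≤ ‖∑ k ∈ Finset.range N, Complex.exp (Complex.I * ((k * z : ℝ) : ℂ))‖ ^ 2 := by
  have h1 : (N : ℝ) / 2 ≤ ‖∑ k ∈ Finset.range N, Complex.exp (Complex.I * ((k * z : ℝ) : ℂ))‖ := by
    refine le_trans ?_ (Complex.re_le_norm _)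
    rw [Complex.re_sum]
    have h2 : ∀ k ∈ Finset.range N, (1 : ℝ) / 2 ≤
        (Complex.exp (Complex.I * ((k * z : ℝ) : ℂ))).re := by
      intro k hk
      rw [mul_comm, Complex.exp_ofReal_mul_I_re]
      have hk1 : (k : ℝ) ≤ N := by exact_mod_cast (Finset.mem_range.1 hk).le
      have h3 : |(k : ℝ) * z| ≤ 1 := by
        rw [abs_mul, abs_of_nonneg (Nat.cast_nonneg k)]
        exact (mul_le_mul_of_nonneg_right hk1 (abs_nonneg _)).trans hz
      have h4 := Real.one_sub_sq_div_two_le_cos (x := (k : ℝ) * z)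
      have h5 : ((k : ℝ) * z) ^ 2 ≤ 1 := by
        rw [← sq_abs]
        exact pow_le_one₀ (abs_nonneg _) h3
      linarith
    have h6 := Finset.sum_le_sum h2
    rw [Finset.sum_const, Finset.card_range, nsmul_eq_mul] at h6
    linarith
  have h7 := pow_le_pow_left₀ (by positivity) h1 2
  calc (N : ℝ) ^ 2 / 4 = ((N : ℝ) / 2) ^ 2 := by ring
    _ ≤ _ := h7

theorem fej_exp (N : ℕ) (z : ℝ) :
    ((‖∑ k ∈ Finset.range N, Complex.exp (Complex.I * ((k * z : ℝ) : ℂ))‖ ^ 2 : ℝ) : ℂ) =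
      ∑ k ∈ Finset.range N, ∑ l ∈ Finset.range N,
        Complex.exp (Complex.I * (((((k : ℝ) - l) * z : ℝ)) : ℂ)) := by
  rw [← Complex.normSq_eq_norm_sq, Complex.normSq_eq_conj_mul_self, map_sum, Finset.sum_mul_sum,
    Finset.sum_comm]
  refine Finset.sum_congr rfl fun k _ => Finset.sum_congr rfl fun l _ => ?_
  rw [← Complex.exp_conj, map_mul, Complex.conj_I, Complex.conj_ofReal, ← Complex.exp_add]
  congr 1
  push_cast
  ring

/-- the mass near the starting point, in terms of the characteristic function -/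
theorem mass_near {d : ℕ} (N : ℕ) (hN : 1 ≤ N) (z : Zd d → ℝ) (P : Zd d → Prop)
    [DecidablePred P] (hP : ∀ x, P x → (N : ℝ) * |z x| ≤ 1) (u : Zd d → ℂ)
    (hu : Summable fun x => ‖u x‖ ^ 2) :
    ∑' x, (if P x then ‖u x‖ ^ 2 else 0) ≤ 4 / (N : ℝ) ^ 2 *
      ∑ k ∈ Finset.range N, ∑ l ∈ Finset.range N,
        (Xw (fun x => Complex.exp (Complex.I * (((((k : ℝ) - l) * z x : ℝ)) : ℂ))) u).re := by
  have hN0 : (0 : ℝ) < N := by exact_mod_cast (by omega : 0 < N)
  have hn1 : ∀ (r : ℝ), ‖Complex.exp (Complex.I * (r : ℂ))‖ = 1 := by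
    intro r
    rw [mul_comm, Complex.norm_exp_ofReal_mul_I]
  have hs1 : ∀ k l : ℕ, Summable fun x : Zd d =>
      Complex.exp (Complex.I * (((((k : ℝ) - l) * z x : ℝ)) : ℂ)) * ((‖u x‖ ^ 2 : ℝ) : ℂ) := by
    intro k l
    refine Summable.of_norm_bounded hu fun x => ?_
    rw [norm_mul, hn1, one_mul, Complex.norm_real, Real.norm_eq_abs, abs_of_nonneg (sq_nonneg _)]
  have e1 : ∑ k ∈ Finset.range N, ∑ l ∈ Finset.range N,
        (Xw (fun x => Complex.exp (Complex.I * (((((k : ℝ) - l) * z x : ℝ)) : ℂ))) u).re =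
      ∑' x, ‖∑ k ∈ Finset.range N, Complex.exp (Complex.I * ((k * z x : ℝ) : ℂ))‖ ^ 2 *
        ‖u x‖ ^ 2 := by
    have h1 : (∑ k ∈ Finset.range N, ∑ l ∈ Finset.range N,
        Xw (fun x => Complex.exp (Complex.I * (((((k : ℝ) - l) * z x : ℝ)) : ℂ))) u) =
        ((∑' x, ‖∑ k ∈ Finset.range N, Complex.exp (Complex.I * ((k * z x : ℝ) : ℂ))‖ ^ 2 *
        ‖u x‖ ^ 2 : ℝ) : ℂ) := by
      unfold Xw
      have h3 : ∀ x, ((‖∑ k ∈ Finset.range N, Complex.exp (Complex.I * ((k * z x : ℝ) : ℂ))‖ ^ 2 *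
          ‖u x‖ ^ 2 : ℝ) : ℂ) = ∑ k ∈ Finset.range N, ∑ l ∈ Finset.range N,
          Complex.exp (Complex.I * (((((k : ℝ) - l) * z x : ℝ)) : ℂ)) *
            ((‖u x‖ ^ 2 : ℝ) : ℂ) := by
        intro x
        rw [Complex.ofReal_mul, fej_exp, Finset.sum_mul]
        refine Finset.sum_congr rfl fun k _ => ?_
        rw [Finset.sum_mul]
      rw [Complex.ofReal_tsum, tsum_congr h3,
        Summable.tsum_finsetSum fun k _ => summable_sum fun l _ => hs1 k l]
      refine Finset.sum_congr rfl fun k _ => ?_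
      rw [Summable.tsum_finsetSum fun l _ => hs1 k l]
    have h2 := congrArg Complex.re h1
    rw [Complex.ofReal_re] at h2
    rw [← h2, Complex.re_sum]
    refine Finset.sum_congr rfl fun k _ => ?_
    rw [Complex.re_sum]
  rw [e1, ← tsum_mul_left]
  have hb : ∀ x : Zd d, ‖∑ k ∈ Finset.range N, Complex.exp (Complex.I * ((k * z x : ℝ) : ℂ))‖ ≤ N := by
    intro x
    refine (norm_sum_le _ _).trans ?_
    simp only [hn1]
    rw [Finset.sum_const, Finset.card_range, nsmul_eq_mul, mul_one]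
  have hs2 : Summable fun x => 4 / (N : ℝ) ^ 2 *
      (‖∑ k ∈ Finset.range N, Complex.exp (Complex.I * ((k * z x : ℝ) : ℂ))‖ ^ 2 * ‖u x‖ ^ 2) := by
    refine Summable.mul_left _ (Summable.of_nonneg_of_le (fun x => by positivity) (fun x => ?_)
      (hu.mul_left ((N : ℝ) ^ 2)))
    have := hb x
    gcongr
  have hs3 : Summable fun x => (if P x then ‖u x‖ ^ 2 else 0) := by
    refine Summable.of_nonneg_of_le (fun x => ?_) (fun x => ?_) hu
    · split_ifs <;> positivity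
    · split_ifs
      · exact le_rfl
      · positivity
  refine hs3.tsum_le_tsum (fun x => ?_) hs2
  split_ifs with hx
  · have h1 := fej_low N (z x) (hP x hx)
    have h2 : 1 ≤ 4 / (N : ℝ) ^ 2 *
        ‖∑ k ∈ Finset.range N, Complex.exp (Complex.I * ((k * z x : ℝ) : ℂ))‖ ^ 2 := by
      calc (1 : ℝ) = 4 / (N : ℝ) ^ 2 * ((N : ℝ) ^ 2 / 4) := by field_simp
        _ ≤ _ := by gcongr
    calc ‖u x‖ ^ 2 = 1 * ‖u x‖ ^ 2 := (one_mul _).symm
      _ ≤ (4 / (N : ℝ) ^ 2 *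
        ‖∑ k ∈ Finset.range N, Complex.exp (Complex.I * ((k * z x : ℝ) : ℂ))‖ ^ 2) *
          ‖u x‖ ^ 2 := by gcongr
      _ = _ := by ring
  · positivity

end Pool.Agent.Q62.QD
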