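import Pool.Agent.Q62.QD.NonB

/-! Families of localized eigenfunctions: deterministic part. -/

set_option autoImplicit false
set_option linter.unusedSectionVars false

open scoped BigOperators Topology InnerProductSpace
open MeasureTheory Filter Set

namespace Pool.Agent.Q62.QD

open Pool.Agent.W788.LD.Spec (S)
open Pool.Agent.H4R2.LO (Zd)
open Pool.Agent.TH794.QD

variable {d : ℕ}

/-- the exponential on an eigenvector -/
theorem exp_eig (A : HS d →L[ℂ] HS d) (φ : HS d) (z : ℂ) (h : A φ = z • φ) :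
    NormedSpace.exp A φ = Complex.exp z • φ := by
  have h1 : ∀ n : ℕ, (A ^ n) φ = z ^ n • φ := by
    intro n
    induction n with
    | zero => simp
    | succ n ih =>
      rw [pow_succ, ContinuousLinearMap.mul_apply, h, map_smul, ih, smul_smul, pow_succ, mul_comm]
  have h2 := NormedSpace.exp_series_hasSum_exp' (𝕂 := ℂ) A
  have h3 := (ContinuousLinearMap.apply ℂ (HS d) φ).hasSum h2
  have h4 := NormedSpace.exp_series_hasSum_exp' (𝕂 := ℂ) z
  have h5 := h4.smul_const φ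
  have e1 : (fun n : ℕ => (ContinuousLinearMap.apply ℂ (HS d) φ)
      ((((Nat.factorial n : ℕ) : ℂ)⁻¹) • A ^ n)) =
      fun n : ℕ => ((((Nat.factorial n : ℕ) : ℂ)⁻¹) • z ^ n) • φ := by
    funext n
    rw [ContinuousLinearMap.apply_apply, ContinuousLinearMap.smul_apply, h1, smul_smul,
      smul_eq_mul]
  have h6 : HasSum (fun n : ℕ => ((((Nat.factorial n : ℕ) : ℂ)⁻¹) • z ^ n) • φ)
      (NormedSpace.exp A φ) := by
    rw [← e1]
    exact h3
  rw [Complex.exp_eq_exp_ℂ]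
  exact h6.unique h5

/-- **existence of the evolution**, with its overlaps with the eigenvectors -/
theorem sol_over (V : Zd d → ℝ) (B : ℝ) (hB : 0 ≤ B) (hV : ∀ x, |V x| ≤ B) (a : Zd d) :
    ∃ ψ : ℝ → Zd d → ℂ, Sol d V a ψ ∧ ∀ s, ∃ u : HS d, (∀ x, u x = ψ s x) ∧ ‖u‖ = 1 ∧
      ∀ (φ : HS d) (E : ℝ), Hop V B hB hV φ = (E : ℂ) • φ → ‖⟪φ, u⟫_ℂ‖ = ‖φ a‖ := by
  obtain ⟨A, hA⟩ : ∃ A : HS d →L[ℂ] HS d, A = (-Complex.I) • Hop V B hB hV := ⟨_, rfl⟩
  have hs1 : HasSum (fun x : Zd d => ‖if x = a then (1 : ℂ) else 0‖ ^ 2) 1 := by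
    have := hasSum_single (f := fun x : Zd d => ‖if x = a then (1 : ℂ) else 0‖ ^ 2) a
      (fun x hx => by
        rw [if_neg hx]
        simp)
    simp only [if_true, norm_one, one_pow] at this
    exact this
  obtain ⟨δ, hδ⟩ : ∃ δ : HS d, δ = hmk (fun x => if x = a then (1 : ℂ) else 0) hs1.summable :=
    ⟨_, rfl⟩
  have hδ1 : ‖δ‖ ^ 2 = 1 := by
    have h1 := hs_sum δ
    rw [hδ] at h1 ⊢
    exact h1.unique hs1
  have hδ2 : ‖δ‖ = 1 := by
    rw [← pow_left_inj₀ (norm_nonneg _) zero_le_one two_ne_zero, hδ1, one_pow]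
  have hun : ∀ s : ℝ, NormedSpace.exp ((s : ℂ) • A) ∈ unitary (HS d →L[ℂ] HS d) := by
    intro s
    let +nondep : NormedAlgebra ℚ (HS d →L[ℂ] HS d) := NormedAlgebra.restrictScalars ℚ ℂ _
    apply NormedSpace.exp_mem_unitary_of_mem_skewAdjoint
    rw [hA]
    exact gen_skew V B hB hV s
  refine ⟨fun s x => NormedSpace.exp ((s : ℂ) • A) δ x, ⟨?_, ?_, ?_⟩, ?_⟩
  · intro x
    simp only [Complex.ofReal_zero, zero_smul, NormedSpace.exp_zero]
    rw [hδ]
    rfl
  · intro s x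
    have h1 := hasDerivAt_exp_smul_const' (𝕂 := ℂ) A (s : ℂ)
    have h2 : HasDerivAt (fun z : ℂ => ((evl x).comp (ContinuousLinearMap.apply ℂ (HS d) δ))
        (NormedSpace.exp (z • A))) (((evl x).comp (ContinuousLinearMap.apply ℂ (HS d) δ))
        (A * NormedSpace.exp ((s : ℂ) • A))) (s : ℂ) :=
      (ContinuousLinearMap.hasFDerivAt _).comp_hasDerivAt (s : ℂ) h1
    have h3 := h2.comp_ofReal
    have e1 : ∀ L : HS d →L[ℂ] HS d,
        ((evl x).comp (ContinuousLinearMap.apply ℂ (HS d) δ)) L = L δ x := fun L => rfl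
    simp only [e1] at h3
    refine h3.congr_deriv ?_
    rw [ContinuousLinearMap.mul_apply]
    obtain ⟨w, hw⟩ : ∃ w, w = NormedSpace.exp ((s : ℂ) • A) δ := ⟨_, rfl⟩
    rw [← hw, hA, ← Hop_apply V B hB hV w x, ← evl_apply x, ContinuousLinearMap.smul_apply,
      map_smul, smul_eq_mul, evl_apply]
  · intro s
    have h1 := hs_sum (NormedSpace.exp ((s : ℂ) • A) δ)
    have h2 : ‖NormedSpace.exp ((s : ℂ) • A) δ‖ = ‖δ‖ :=
      ContinuousLinearMap.norm_map_of_mem_unitary (hun s) δ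
    rw [h2, hδ1] at h1
    exact h1
  · intro s
    refine ⟨NormedSpace.exp ((s : ℂ) • A) δ, fun x => rfl, ?_, ?_⟩
    · rw [ContinuousLinearMap.norm_map_of_mem_unitary (hun s) δ, hδ2]
    · intro φ E hE
      have h1 : ((s : ℂ) • A) φ = ((s : ℂ) * (-Complex.I * E)) • φ := by
        rw [ContinuousLinearMap.smul_apply, hA, ContinuousLinearMap.smul_apply, hE, smul_smul,
          smul_smul, mul_assoc]
      have h2 := exp_eig _ φ _ h1
      obtain ⟨U, hU⟩ : ∃ U, U = NormedSpace.exp ((s : ℂ) • A) := ⟨_, rfl⟩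
      rw [← hU] at h2 ⊢
      obtain ⟨z, hz⟩ : ∃ z, z = Complex.exp ((s : ℂ) * (-Complex.I * E)) := ⟨_, rfl⟩
      rw [← hz] at h2
      have hz1 : ‖z‖ = 1 := by
        rw [hz]
        have e1 : (s : ℂ) * (-Complex.I * E) = ((-(s * E) : ℝ) : ℂ) * Complex.I := by
          push_cast
          ring
        rw [e1, Complex.norm_exp_ofReal_mul_I]
      have h3 : ⟪U φ, U δ⟫_ℂ = ⟪φ, δ⟫_ℂ := by
        have h4 := hun s
        rw [← hU] at h4
        exact ContinuousLinearMap.inner_map_map_of_mem_unitary h4 φ δ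
      rw [h2, inner_smul_left] at h3
      have h5 : ‖⟪φ, U δ⟫_ℂ‖ = ‖⟪φ, δ⟫_ℂ‖ := by
        rw [← h3, norm_mul, RCLike.norm_conj, hz1, one_mul]
      rw [h5]
      have h6 := lp.hasSum_inner (𝕜 := ℂ) φ δ
      have h7 : ⟪φ, δ⟫_ℂ = ⟪φ a, δ a⟫_ℂ := by
        refine h6.unique (hasSum_single a fun x hx => ?_)
        have h8 : δ x = 0 := by
          rw [hδ, hmk_apply, if_neg hx]
        rw [h8, inner_zero_right]
      have h8 : δ a = 1 := by
        rw [hδ, hmk_apply, if_pos rfl]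
      rw [h7, h8, RCLike.inner_apply, one_mul, RCLike.norm_conj]

end Pool.Agent.Q62.QD
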