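import Pool.Agent.Q62.QD.NonC

/-! Families of localized eigenfunctions: the bound by the mass near the starting point. -/

set_option autoImplicit false
set_option linter.unusedSectionVars false

open scoped BigOperators Topology InnerProductSpace
open MeasureTheory Filter Set

namespace Pool.Agent.Q62.QD

open Pool.Agent.W788.LD.Spec (S)
open Pool.Agent.H4R2.LO (Zd)
open Pool.Agent.TH794.QD

variable {d : ℕ}

/-- the ball -/
noncomputable def bal (a : Zd d) (R : ℝ) : Finset (Zd d) :=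
  Finset.Icc (fun i => a i - (⌊R⌋₊ : ℤ)) (fun i => a i + (⌊R⌋₊ : ℤ))

theorem bal_mem (a : Zd d) (R : ℝ) (hR : 0 ≤ R) (x : Zd d) : x ∈ bal a R ↔ ‖x - a‖ ≤ R := by
  unfold bal
  rw [Finset.mem_Icc, pi_norm_le_iff_of_nonneg hR, Pi.le_def, Pi.le_def, ← forall_and]
  refine forall_congr' fun i => ?_
  rw [Pi.sub_apply, Int.norm_eq_abs]
  have h1 : |((x i - a i : ℤ) : ℝ)| ≤ R ↔ |x i - a i| ≤ (⌊R⌋₊ : ℤ) := by
    have e1 : |((x i - a i : ℤ) : ℝ)| = (((x i - a i).natAbs : ℕ) : ℝ) := by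
      rw [Nat.cast_natAbs, Int.cast_abs]
    rw [e1, ← Nat.le_floor_iff hR, Int.abs_eq_natAbs]
    exact_mod_cast Iff.rfl
  rw [h1, abs_le]
  constructor
  · rintro ⟨h2, h3⟩
    constructor <;> linarith
  · rintro ⟨h2, h3⟩
    constructor <;> linarith

theorem bal_card (a : Zd d) (R : ℝ) (hR : 0 ≤ R) : ((bal a R).card : ℝ) ≤ (2 * R + 1) ^ d := by
  unfold bal
  rw [Pi.card_Icc]
  push_cast
  have h1 : ∀ i : Fin d, (((Finset.Icc (a i - (⌊R⌋₊ : ℤ)) (a i + (⌊R⌋₊ : ℤ))).card : ℕ) : ℝ) ≤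
      2 * R + 1 := by
    intro i
    rw [Int.card_Icc]
    have h2 : (a i + (⌊R⌋₊ : ℤ) + 1 - (a i - (⌊R⌋₊ : ℤ))).toNat = 2 * ⌊R⌋₊ + 1 := by omega
    rw [h2]
    push_cast
    have := Nat.floor_le hR
    linarith
  refine (Finset.prod_le_prod (fun i _ => Nat.cast_nonneg _) fun i _ => h1 i).trans ?_
  rw [Finset.prod_const, Finset.card_univ, Fintype.card_fin]

theorem cut_sum (P : Zd d → Prop) [DecidablePred P] (u : HS d) :
    Summable fun x => ‖if P x then u x else 0‖ ^ 2 := by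
  refine Summable.of_nonneg_of_le (fun x => by positivity) (fun x => ?_) (hs_sum u).summable
  split_ifs
  · exact le_rfl
  · rw [norm_zero, zero_pow two_ne_zero]
    positivity

/-- the restriction -/
def cutv (P : Zd d → Prop) [DecidablePred P] (u : HS d) : HS d :=
  hmk (fun x => if P x then u x else 0) (cut_sum P u)

theorem cutv_norm (P : Zd d → Prop) [DecidablePred P] (u : HS d) :
    ‖cutv P u‖ ^ 2 = ∑' x, if P x then ‖u x‖ ^ 2 else 0 := by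
  rw [← (hs_sum (cutv P u)).tsum_eq]
  refine tsum_congr fun x => ?_
  unfold cutv
  rw [hmk_apply]
  split_ifs
  · rfl
  · rw [norm_zero]
    norm_num

theorem cutv_add (P : Zd d → Prop) [DecidablePred P] (u : HS d) :
    cutv P u + cutv (fun x => ¬ P x) u = u := by
  ext x
  change (if P x then u x else 0) + (if ¬ P x then u x else 0) = u x
  by_cases h : P x
  · rw [if_pos h, if_neg (not_not.2 h), add_zero]
  · rw [if_neg h, if_pos h, zero_add]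

theorem cutv_inner (P : Zd d → Prop) [DecidablePred P] (u v : HS d) :
    ⟪u, cutv P v⟫_ℂ = ⟪cutv P u, v⟫_ℂ := by
  have h1 := lp.hasSum_inner (𝕜 := ℂ) u (cutv P v)
  have h2 := lp.hasSum_inner (𝕜 := ℂ) (cutv P u) v
  have e1 : (fun x => ⟪cutv P u x, v x⟫_ℂ) = fun x => ⟪u x, cutv P v x⟫_ℂ := by
    funext x
    unfold cutv
    rw [hmk_apply, hmk_apply]
    split_ifs
    · rfl
    · rw [inner_zero_left, inner_zero_right]
  rw [e1] at h2
  exact h1.unique h2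

open Classical in
/-- the family bound at one time -/
theorem fam_one (a : Zd d) {ι : Type} [Fintype ι] (φ : ι → HS d) (ho : Orthonormal ℂ φ) (P : Zd d → Prop)
    (θ : ℝ) (ht : ∀ i, ∑' x, (if P x then 0 else ‖φ i x‖ ^ 2) ≤ θ) (u : HS d) (hu : ‖u‖ = 1)
    (hov : ∀ i, ‖⟪φ i, u⟫_ℂ‖ = ‖φ i a‖) :
    ∑ i, ‖φ i a‖ ^ 2 ≤ 2 * ∑' x, (if P x then ‖u x‖ ^ 2 else 0) + 2 * Fintype.card ι * θ := by
  have h1 : ∀ i, ‖φ i a‖ ^ 2 ≤ 2 * ‖⟪φ i, cutv P u⟫_ℂ‖ ^ 2 + 2 * θ := by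
    intro i
    have e1 : ⟪φ i, u⟫_ℂ = ⟪φ i, cutv P u⟫_ℂ + ⟪cutv (fun x => ¬ P x) (φ i), u⟫_ℂ := by
      rw [← cutv_inner, ← inner_add_right, cutv_add]
    have h2 : ‖⟪cutv (fun x => ¬ P x) (φ i), u⟫_ℂ‖ ^ 2 ≤ θ := by
      have h3 := norm_inner_le_norm (𝕜 := ℂ) (cutv (fun x => ¬ P x) (φ i)) u
      rw [hu, mul_one] at h3
      refine (pow_le_pow_left₀ (norm_nonneg _) h3 2).trans ?_
      rw [cutv_norm]
      refine le_trans (le_of_eq (tsum_congr fun x => ?_)) (ht i)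
      by_cases h : P x
      · rw [if_neg (not_not.2 h), if_pos h]
      · rw [if_pos h, if_neg h]
    rw [← hov i, e1]
    have h4 := norm_add_le (⟪φ i, cutv P u⟫_ℂ) (⟪cutv (fun x => ¬ P x) (φ i), u⟫_ℂ)
    have h5 := pow_le_pow_left₀ (norm_nonneg _) h4 2
    have h6 := add_sq_le (a := ‖⟪φ i, cutv P u⟫_ℂ‖) (b := ‖⟪cutv (fun x => ¬ P x) (φ i), u⟫_ℂ‖)
    linarith
  refine (Finset.sum_le_sum fun i _ => h1 i).trans ?_
  rw [Finset.sum_add_distrib, ← Finset.mul_sum, Finset.sum_const, Finset.card_univ,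
    nsmul_eq_mul, ← cutv_norm]
  have h2 := ho.sum_inner_products_le (cutv P u) (s := Finset.univ)
  have h3 : (Fintype.card ι : ℝ) * (2 * θ) = 2 * Fintype.card ι * θ := by ring
  rw [h3]
  linarith

open Classical in
/-- the size of the family -/
theorem fam_card (a : Zd d) (R : ℝ) (hR : 0 ≤ R) {ι : Type} [Fintype ι] (φ : ι → HS d)
    (ho : Orthonormal ℂ φ) (θ : ℝ) (hθ : θ ≤ 1 / 2)
    (ht : ∀ i, ∑' x, (if ‖x - a‖ ≤ R then 0 else ‖φ i x‖ ^ 2) ≤ θ) :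
    (Fintype.card ι : ℝ) ≤ 2 * (2 * R + 1) ^ d := by
  have h1 : ∀ i, 1 / 2 ≤ ∑ x ∈ bal a R, ‖φ i x‖ ^ 2 := by
    intro i
    have h2 : ‖φ i‖ ^ 2 = 1 := by rw [ho.1 i, one_pow]
    have h3 := cutv_norm (fun x => ‖x - a‖ ≤ R) (φ i)
    have h4 := cutv_norm (fun x => ¬ ‖x - a‖ ≤ R) (φ i)
    have h5 : ∑' x, (if ‖x - a‖ ≤ R then ‖φ i x‖ ^ 2 else 0) = ∑ x ∈ bal a R, ‖φ i x‖ ^ 2 := by
      rw [tsum_eq_sum (s := bal a R)]
      · refine Finset.sum_congr rfl fun x hx => ?_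
        rw [if_pos ((bal_mem a R hR x).1 hx)]
      · intro x hx
        rw [if_neg fun h => hx ((bal_mem a R hR x).2 h)]
    have h6 : ∑' x, (if ¬ ‖x - a‖ ≤ R then ‖φ i x‖ ^ 2 else 0) ≤ θ := by
      refine le_trans (le_of_eq (tsum_congr fun x => ?_)) (ht i)
      by_cases h : ‖x - a‖ ≤ R
      · rw [if_neg (not_not.2 h), if_pos h]
      · rw [if_pos h, if_neg h]
    have h7 : ∑' x, (if ‖x - a‖ ≤ R then ‖φ i x‖ ^ 2 else 0) +
        ∑' x, (if ¬ ‖x - a‖ ≤ R then ‖φ i x‖ ^ 2 else 0) = 1 := by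
      rw [← Summable.tsum_add, ← h2, ← (hs_sum (φ i)).tsum_eq]
      · refine tsum_congr fun x => ?_
        by_cases h : ‖x - a‖ ≤ R
        · rw [if_pos h, if_neg (not_not.2 h), add_zero]
        · rw [if_neg h, if_pos h, zero_add]
      · refine Summable.of_nonneg_of_le (fun x => ?_) (fun x => ?_) (hs_sum (φ i)).summable
        · split_ifs <;> positivity
        · split_ifs
          · exact le_rfl
          · positivity
      · refine Summable.of_nonneg_of_le (fun x => ?_) (fun x => ?_) (hs_sum (φ i)).summable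
        · split_ifs <;> positivity
        · split_ifs
          · positivity
          · exact le_rfl
    rw [h5] at h7
    linarith
  have h2 : ∀ x : Zd d, ∑ i, ‖φ i x‖ ^ 2 ≤ 1 := by
    intro x
    have hs1 : HasSum (fun y : Zd d => ‖if y = x then (1 : ℂ) else 0‖ ^ 2) 1 := by
      have := hasSum_single (f := fun y : Zd d => ‖if y = x then (1 : ℂ) else 0‖ ^ 2) x
        (fun y hy => by
          rw [if_neg hy]
          simp)
      simp only [if_true, norm_one, one_pow] at this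
      exact this
    obtain ⟨δ, hδ⟩ : ∃ δ : HS d, δ = hmk (fun y => if y = x then (1 : ℂ) else 0) hs1.summable :=
      ⟨_, rfl⟩
    have hδ1 : ‖δ‖ ^ 2 = 1 := by
      have h1 := hs_sum δ
      rw [hδ] at h1 ⊢
      exact h1.unique hs1
    have h3 := ho.sum_inner_products_le δ (s := Finset.univ)
    rw [hδ1] at h3
    refine le_trans (le_of_eq (Finset.sum_congr rfl fun i _ => ?_)) h3
    have h6 := lp.hasSum_inner (𝕜 := ℂ) (φ i) δ
    have h7 : ⟪φ i, δ⟫_ℂ = ⟪φ i x, δ x⟫_ℂ := by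
      refine h6.unique (hasSum_single x fun y hy => ?_)
      have h8 : δ y = 0 := by
        rw [hδ, hmk_apply, if_neg hy]
      rw [h8, inner_zero_right]
    have h8 : δ x = 1 := by
      rw [hδ, hmk_apply, if_pos rfl]
    rw [h7, h8, RCLike.inner_apply, one_mul, RCLike.norm_conj]
  have h3 : (Fintype.card ι : ℝ) * (1 / 2) ≤ ∑ i, ∑ x ∈ bal a R, ‖φ i x‖ ^ 2 := by
    refine le_trans (le_of_eq ?_) (Finset.sum_le_sum fun i _ => h1 i)
    rw [Finset.sum_const, Finset.card_univ, nsmul_eq_mul]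
  rw [Finset.sum_comm] at h3
  have h4 : ∑ x ∈ bal a R, ∑ i, ‖φ i x‖ ^ 2 ≤ ((bal a R).card : ℝ) := by
    refine (Finset.sum_le_sum fun x _ => h2 x).trans ?_
    rw [Finset.sum_const, nsmul_eq_mul, mul_one]
  have h5 := bal_card a R hR
  linarith

open Classical in
/-- the family bound, averaged in time -/
theorem fam_near (a : Zd d) (R : ℝ) (hR : 0 ≤ R) {ι : Type} [Fintype ι] (φ : ι → HS d)
    (ho : Orthonormal ℂ φ) (θ : ℝ) (hθ : θ ≤ 1 / 2)
    (ht : ∀ i, ∑' x, (if ‖x - a‖ ≤ R then 0 else ‖φ i x‖ ^ 2) ≤ θ)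
    {V : Zd d → ℝ} (ψ : ℝ → Zd d → ℂ) (hψ : Sol d V a ψ)
    (hov : ∀ s, ∃ u : HS d, (∀ x, u x = ψ s x) ∧ ‖u‖ = 1 ∧ ∀ i, ‖⟪φ i, u⟫_ℂ‖ = ‖φ i a‖)
    (T : ℝ) (hθ0 : 0 ≤ θ) :
    ∑ i, ‖φ i a‖ ^ 2 ≤ 2 * near ψ a T R + 4 * (2 * R + 1) ^ d * θ := by
  have hn := fam_card a R hR φ ho θ hθ ht
  have hM : ∀ τ : ℝ, ∑' x, (if ‖x - a‖ ≤ R then ‖ψ (T * τ) x‖ ^ 2 else 0) =
      ∑ x ∈ bal a R, ‖ψ (T * τ) x‖ ^ 2 := by
    intro τ
    rw [tsum_eq_sum (s := bal a R)]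
    · refine Finset.sum_congr rfl fun x hx => ?_
      rw [if_pos ((bal_mem a R hR x).1 hx)]
    · intro x hx
      rw [if_neg fun h => hx ((bal_mem a R hR x).2 h)]
  have hc : Continuous fun τ : ℝ => ∑ x ∈ bal a R, ‖ψ (T * τ) x‖ ^ 2 := by
    refine continuous_finsetSum _ fun x _ => ?_
    exact (((hψ.cont x).comp (continuous_const.mul continuous_id)).norm).pow 2
  have hb : ∀ τ : ℝ, ‖∑ x ∈ bal a R, ‖ψ (T * τ) x‖ ^ 2‖ ≤ 1 := by
    intro τ
    rw [Real.norm_eq_abs, abs_of_nonneg (Finset.sum_nonneg fun x _ => sq_nonneg _)]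
    have h1 := (hψ.norm (T * τ)).summable.sum_le_tsum (bal a R) fun x _ => sq_nonneg _
    rwa [(hψ.norm (T * τ)).tsum_eq] at h1
  have hi : IntegrableOn (fun τ : ℝ => Real.exp (-τ) * ∑ x ∈ bal a R, ‖ψ (T * τ) x‖ ^ 2)
      (Ioi 0) :=
    exp1_int.mul_bdd hc.aestronglyMeasurable (Filter.Eventually.of_forall hb)
  have h1 : ∀ τ : ℝ, Real.exp (-τ) * ∑ i, ‖φ i a‖ ^ 2 ≤
      2 * (Real.exp (-τ) * ∑ x ∈ bal a R, ‖ψ (T * τ) x‖ ^ 2) + Real.exp (-τ) * (2 * Fintype.card ι * θ) := by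
    intro τ
    obtain ⟨u, hu1, hu2, hu3⟩ := hov (T * τ)
    have h2 := fam_one a φ ho (fun x => ‖x - a‖ ≤ R) θ ht u hu2 hu3
    simp only [hu1] at h2
    rw [hM τ] at h2
    have h3 := Real.exp_pos (-τ)
    calc Real.exp (-τ) * ∑ i, ‖φ i a‖ ^ 2 ≤
        Real.exp (-τ) * (2 * ∑ x ∈ bal a R, ‖ψ (T * τ) x‖ ^ 2 + 2 * Fintype.card ι * θ) := by gcongr
      _ = _ := by ring
  have h2 : ∫ τ in Ioi (0 : ℝ), Real.exp (-τ) * ∑ i, ‖φ i a‖ ^ 2 ≤
      ∫ τ in Ioi (0 : ℝ), (2 * (Real.exp (-τ) * ∑ x ∈ bal a R, ‖ψ (T * τ) x‖ ^ 2) +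
        Real.exp (-τ) * (2 * Fintype.card ι * θ)) := by
    refine integral_mono (exp1_int.mul_const _) ((hi.const_mul 2).add (exp1_int.mul_const _)) ?_
    intro τ
    exact h1 τ
  rw [integral_add (hi.const_mul 2) (exp1_int.mul_const _), integral_mul_const,
    integral_mul_const, integral_const_mul, exp1_val, one_mul, one_mul] at h2
  refine h2.trans ?_
  unfold near
  simp only [hM]
  have h3 : 2 * (Fintype.card ι : ℝ) * θ ≤ 4 * (2 * R + 1) ^ d * θ := by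
    have : 2 * (Fintype.card ι : ℝ) ≤ 4 * (2 * R + 1) ^ d := by linarith
    gcongr
  linarith

end Pool.Agent.Q62.QD
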