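import Pool.Agent.Q62.QD.NonD

/-! Lower bounds for the localization length beyond the kinetic scale. -/

set_option autoImplicit false
set_option linter.unusedSectionVars false

open scoped BigOperators Topology InnerProductSpace
open MeasureTheory Filter Set

namespace Pool.Agent.Q62.QD

open Pool.Agent.W788.LD.Spec (S)
open Pool.Agent.H4R2.LO (Zd)
open Pool.Agent.TH794.QD

variable {d : ℕ}

/-- an orthonormal family of eigenfunctions -/
structure Fam (d : ℕ) (V : Zd d → ℝ) {ι : Type} (φ : ι → Zd d → ℂ) : Prop where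
  norm : ∀ i, HasSum (fun x => ‖φ i x‖ ^ 2) 1
  orth : ∀ i j, i ≠ j → ∑' x, (starRingEnd ℂ) (φ i x) * φ j x = 0
  eig : ∀ i, ∃ E : ℝ, ∀ x, -S (φ i) x + (V x : ℂ) * φ i x = (E : ℂ) * φ i x

open Classical in
/-- the deterministic bound -/
theorem Fam.bound {V : Zd d → ℝ} {B : ℝ} (hV : ∀ x, |V x| ≤ B) {a : Zd d} {T R ε : ℝ}
    (hR : 0 ≤ R) (hnear : ∀ ψ : ℝ → Zd d → ℂ, Sol d V a ψ → near ψ a T R ≤ ε)
    {ι : Type} [Fintype ι] {φ : ι → Zd d → ℂ} (hφ : Fam d V φ) {θ : ℝ} (hθ0 : 0 ≤ θ)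
    (hθ : θ ≤ 1 / 2) (ht : ∀ i, ∑' x, (if ‖x - a‖ ≤ R then 0 else ‖φ i x‖ ^ 2) ≤ θ) :
    ∑ i, ‖φ i a‖ ^ 2 ≤ 2 * ε + 4 * (2 * R + 1) ^ d * θ := by
  have hB : 0 ≤ B := (abs_nonneg _).trans (hV 0)
  obtain ⟨Φ, hΦ⟩ : ∃ Φ : ι → HS d, Φ = fun i => hmk (φ i) (hφ.norm i).summable := ⟨_, rfl⟩
  have hΦa : ∀ i x, Φ i x = φ i x := by
    intro i x
    rw [hΦ]
    rfl
  have ho : Orthonormal ℂ Φ := by
    constructor
    · intro i
      have h1 := hs_sum (Φ i)
      simp only [hΦa] at h1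
      have h2 := h1.unique (hφ.norm i)
      rw [← pow_left_inj₀ (norm_nonneg _) zero_le_one two_ne_zero, h2, one_pow]
    · intro i j hij
      have h1 := lp.hasSum_inner (𝕜 := ℂ) (Φ i) (Φ j)
      rw [← h1.tsum_eq, ← hφ.orth i j hij]
      refine tsum_congr fun x => ?_
      rw [RCLike.inner_apply, hΦa, hΦa, mul_comm]
  have he : ∀ i, ∃ E : ℝ, Hop V B hB hV (Φ i) = (E : ℂ) • Φ i := by
    intro i
    obtain ⟨E, hE⟩ := hφ.eig i
    refine ⟨E, ?_⟩
    ext x
    rw [Hop_apply]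
    have e1 : (fun y => (Φ i) y) = φ i := by
      funext y
      exact hΦa i y
    rw [e1, hΦa, hE x]
    change (E : ℂ) * φ i x = (E : ℂ) * Φ i x
    rw [hΦa]
  obtain ⟨ψ, hψ, hov⟩ := sol_over V B hB hV a
  have h1 := fam_near a R hR Φ ho θ hθ (by simpa only [hΦa] using ht) ψ hψ (by
    intro s
    obtain ⟨u, hu1, hu2, hu3⟩ := hov s
    refine ⟨u, hu1, hu2, fun i => ?_⟩
    obtain ⟨E, hE⟩ := he i
    exact hu3 (Φ i) E hE) T hθ0
  simp only [hΦa] at h1
  have h2 := hnear ψ hψ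
  linarith

open Classical in
/-- **few localized eigenfunctions**, internal form -/
theorem few (hd : 2 ≤ d) (b v ε : ℝ) (hb : 0 < b) (hv : 0 < v) (hε : 0 < ε) :
    ∃ δ : ℝ, 0 < δ ∧ ∃ c0 : ℝ, 0 < c0 ∧ c0 ≤ 1 ∧ ∀ c : ℝ, 0 < c → c ≤ c0 →
    ∀ (μ : Measure ℝ), IsProbabilityMeasure μ → (∀ᵐ s ∂μ, |s| ≤ b) →
    ∀ Mn V : ℝ, ∫ s, s ∂μ = Mn → ∫ s, (s - Mn) ^ 2 ∂μ = V → v ≤ V →
      ∃ G : Set (Zd d → ℝ), MeasurableSet G ∧
        1 - Real.exp (-c ^ (-(1 / 101) : ℝ)) ≤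
          (Measure.infinitePi fun _ : Zd d => μ).real G ∧
        ∀ ω ∈ G, ∀ a : Zd d, ‖a‖ ≤ Real.exp (c ^ (-(1 / 101) : ℝ)) →
          ∀ R : ℝ, 1 / c ≤ R → R ≤ 2 * δ * c ^ (-(2 + 1 / 84) : ℝ) →
          ∀ (ι : Type) [Fintype ι] (φ : ι → Zd d → ℂ), Fam d (fun x => 2 * d + c * ω x) φ →
          (∀ i, ∑' x, (if ‖x - a‖ ≤ R then 0 else ‖φ i x‖ ^ 2) ≤ (2 / R) ^ (d + 1)) →
          ∑ i, ‖φ i a‖ ^ 2 ≤ ε := by
  obtain ⟨δ, hδ, c0, hc0, hL⟩ := leave d hd b v (ε / 4) hb hv (by positivity)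
  have hK : (0 : ℝ) < 4 * 3 ^ d * 2 ^ (d + 1) := by positivity
  refine ⟨δ / (4 * b), by positivity,
    min c0 (min (1 / 4) (ε / (2 * (4 * 3 ^ d * 2 ^ (d + 1))))), ?_, ?_, ?_⟩
  · exact lt_min hc0 (lt_min (by norm_num) (by positivity))
  · exact (min_le_right _ _).trans ((min_le_left _ _).trans (by norm_num))
  intro c hc hcc μ hμ hμb Mn V hM hV hvV
  have hcc0 : c ≤ c0 := hcc.trans (min_le_left _ _)
  have hcc1 : c ≤ 1 / 4 := hcc.trans ((min_le_right _ _).trans (min_le_left _ _))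
  have hcc2 : c ≤ ε / (2 * (4 * 3 ^ d * 2 ^ (d + 1))) :=
    hcc.trans ((min_le_right _ _).trans (min_le_right _ _))
  obtain ⟨G, hG, hP, hGL⟩ := hL c hc hcc0 μ hμ hμb Mn V hM hV hvV
  refine ⟨G, hG, hP, ?_⟩
  intro ω hω a ha R hR1 hR2 ι _ φ hφ ht
  obtain ⟨hωb, hnear⟩ := hGL ω hω
  have hV0 : 0 < V := lt_of_lt_of_le hv hvV
  have hVb : V ≤ (2 * b) ^ 2 := by
    have hsi : Integrable (fun s : ℝ => s) μ :=
      Integrable.of_bound (by fun_prop) b (by simpa [Real.norm_eq_abs] using hμb)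
    have hMb : |Mn| ≤ b := by
      rw [← hM]
      have h1 := norm_integral_le_of_norm_le_const (μ := μ) (f := fun s : ℝ => s) (C := b)
        (by simpa [Real.norm_eq_abs] using hμb)
      simpa using h1
    rw [← hV]
    have h2 : ∫ s, (s - Mn) ^ 2 ∂μ ≤ ∫ s, (2 * b) ^ 2 ∂μ := by
      refine integral_mono_of_nonneg (Filter.Eventually.of_forall fun s => sq_nonneg _)
        (integrable_const _) ?_
      filter_upwards [hμb] with s hs
      rw [← sq_abs (s - Mn)]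
      refine pow_le_pow_left₀ (abs_nonneg _) ?_ 2
      have := abs_sub s Mn
      linarith [abs_sub s Mn]
    simpa using h2
  have hR0 : 0 < R := lt_of_lt_of_le (by positivity) hR1
  have hR4 : 4 ≤ R := by
    refine le_trans ?_ hR1
    rw [le_div_iff₀ hc]
    linarith
  have hc1 : c ≤ 1 := by linarith
  obtain ⟨T, hT⟩ : ∃ T, T = c ^ (-(2 + 1 / 42) : ℝ) := ⟨_, rfl⟩
  have hT0 : 0 < T := by rw [hT]; positivity
  have hT1 : c ^ (-(2 + 1 / 75) : ℝ) ≤ T := by
    rw [hT]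
    exact Real.rpow_le_rpow_of_exponent_ge hc hc1 (by norm_num)
  have hkey : R * Real.sqrt (c ^ 2 * V / T) ≤ δ := by
    have e1 : Real.sqrt (c ^ 2 * V / T) ≤ 2 * b * c ^ (2 + 1 / 84 : ℝ) := by
      refine Real.sqrt_le_iff.2 ⟨by positivity, ?_⟩
      rw [mul_pow, ← Real.rpow_natCast (c ^ (2 + 1 / 84 : ℝ)), ← Real.rpow_mul hc.le, hT,
        Real.rpow_neg hc.le, div_inv_eq_mul]
      have e2 : c ^ 2 * V * c ^ (2 + 1 / 42 : ℝ) = V * c ^ ((2 + 1 / 84) * (2 : ℕ) : ℝ) := by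
        have e3 : ((2 + 1 / 84) * (2 : ℕ) : ℝ) = 2 + (2 + 1 / 42) := by norm_num
        rw [e3, Real.rpow_add hc 2 (2 + 1 / 42), Real.rpow_two]
        ring
      rw [e2]
      gcongr
    calc R * Real.sqrt (c ^ 2 * V / T) ≤
        (2 * (δ / (4 * b)) * c ^ (-(2 + 1 / 84) : ℝ)) * (2 * b * c ^ (2 + 1 / 84 : ℝ)) := by
          gcongr
      _ = δ * (c ^ (-(2 + 1 / 84) : ℝ) * c ^ (2 + 1 / 84 : ℝ)) := by
          field_simp
          ring
      _ = δ := by
          rw [← Real.rpow_add hc]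
          norm_num
  have hθ : (2 / R) ^ (d + 1) ≤ 1 / 2 := by
    have h1 : 2 / R ≤ 1 / 2 := by
      rw [div_le_div_iff₀ hR0 (by norm_num)]
      linarith
    calc (2 / R) ^ (d + 1) ≤ (1 / 2) ^ (d + 1) := pow_le_pow_left₀ (by positivity) h1 _
      _ ≤ (1 / 2) ^ 1 := pow_le_pow_of_le_one (by norm_num) (by norm_num) (by omega)
      _ = 1 / 2 := pow_one _
  have hVbd : ∀ x : Zd d, |(2 * d + c * ω x : ℝ)| ≤ 2 * d + c * b := by
    intro x
    refine (abs_add_le _ _).trans ?_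
    rw [abs_mul c, abs_of_pos hc, abs_of_nonneg (by positivity : (0 : ℝ) ≤ 2 * d)]
    have := hωb x
    gcongr
  have h1 := hφ.bound (T := T) hVbd hR0.le (fun ψ hψ => hnear a ha ψ hψ T hT1 hT.le R hkey)
    (by positivity) hθ ht
  refine h1.trans ?_
  have h2 : 4 * (2 * R + 1) ^ d * (2 / R) ^ (d + 1) ≤ ε / 2 := by
    calc 4 * (2 * R + 1) ^ d * (2 / R) ^ (d + 1) ≤ 4 * (3 * R) ^ d * (2 / R) ^ (d + 1) := by
          have : 2 * R + 1 ≤ 3 * R := by linarith
          gcongr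
      _ = 4 * 3 ^ d * 2 ^ (d + 1) * (1 / R) := by
          rw [mul_pow, div_pow, pow_succ R]
          field_simp
      _ ≤ 4 * 3 ^ d * 2 ^ (d + 1) * c := by
          have : 1 / R ≤ c := by
            rw [div_le_iff₀ hR0]
            rw [div_le_iff₀ hc] at hR1
            linarith
          gcongr
      _ ≤ 4 * 3 ^ d * 2 ^ (d + 1) * (ε / (2 * (4 * 3 ^ d * 2 ^ (d + 1)))) := by gcongr
      _ = ε / 2 := by field_simp
  linarith

open Classical in
/-- **few localized eigenfunctions** -/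
theorem loclen (hd : 2 ≤ d) (b v ε : ℝ) (hb : 0 < b) (hv : 0 < v) (hε : 0 < ε) :
    ∃ δ : ℝ, 0 < δ ∧ ∃ c0 : ℝ, 0 < c0 ∧ ∀ c : ℝ, 0 < c → c ≤ c0 →
    ∀ (μ : Measure ℝ), IsProbabilityMeasure μ → (∀ᵐ s ∂μ, |s| ≤ b) →
    ∀ Mn V : ℝ, ∫ s, s ∂μ = Mn → ∫ s, (s - Mn) ^ 2 ∂μ = V → v ≤ V →
      ∃ G : Set (Zd d → ℝ), MeasurableSet G ∧
        1 - Real.exp (-c ^ (-(1 / 101) : ℝ)) ≤
          (Measure.infinitePi fun _ : Zd d => μ).real G ∧
        ∀ ω ∈ G, ∀ R : ℝ, 1 / c ≤ R → R ≤ δ * c ^ (-(2 + 1 / 84) : ℝ) →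
          (∀ a : Zd d, ‖a‖ ≤ Real.exp (c ^ (-(1 / 101) : ℝ)) →
            ∀ (ι : Type) [Fintype ι] (φ : ι → Zd d → ℂ), Fam d (fun x => 2 * d + c * ω x) φ →
            (∀ i, ∑' x, (if ‖x - a‖ ≤ R then 0 else ‖φ i x‖ ^ 2) ≤ (1 / R) ^ (d + 1)) →
            ∑ i, ‖φ i a‖ ^ 2 ≤ ε) ∧
          ∀ L : ℝ, R ≤ L → L + R ≤ Real.exp (c ^ (-(1 / 101) : ℝ)) →
            ∀ (n : ℕ) (φ : Fin n → Zd d → ℂ) (y : Fin n → Zd d),
            Fam d (fun x => 2 * d + c * ω x) φ → (∀ i, ‖y i‖ ≤ L) →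
            (∀ i, ∑' x, (if ‖x - y i‖ ≤ R then 0 else ‖φ i x‖ ^ 2) ≤ (1 / R) ^ (d + 1)) →
            (n : ℝ) ≤ ε * (2 * L + 1) ^ d := by
  have h2d : (1 : ℝ) ≤ 2 * 2 ^ d := by
    have : (1 : ℝ) ≤ 2 ^ d := one_le_pow₀ (by norm_num)
    linarith
  obtain ⟨δ, hδ, c0, hc0, hc01, hL⟩ := few (d := d) hd b v (ε / (2 * 2 ^ d)) hb hv (by positivity)
  refine ⟨δ, hδ, min c0 (1 / 2), lt_min hc0 (by norm_num),
    fun c hc hcc' μ hμ hμb Mn V hM hV hvV => ?_⟩
  have hcc : c ≤ c0 := hcc'.trans (min_le_left _ _)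
  have hc2 : c ≤ 1 / 2 := hcc'.trans (min_le_right _ _)
  obtain ⟨G, hG, hP, hGL⟩ := hL c hc hcc μ hμ hμb Mn V hM hV hvV
  refine ⟨G, hG, hP, fun ω hω R hR1 hR2 => ?_⟩
  have hR0 : 0 < R := lt_of_lt_of_le (by positivity) hR1
  have hc1 : c ≤ 1 := hcc.trans hc01
  constructor
  · intro a ha ι _ φ hφ ht
    refine (hGL ω hω a ha R hR1 (hR2.trans ?_) ι φ hφ fun i => (ht i).trans ?_).trans
      (div_le_self hε.le h2d)
    · have : 0 ≤ δ * c ^ (-(2 + 1 / 84) : ℝ) := by positivity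
      linarith
    · gcongr
      norm_num
  · intro L hRL hLR n φ y hφ hy ht
    have h1 : ∀ i, 1 / 2 ≤ ∑ x ∈ bal (y i) R, ‖φ i x‖ ^ 2 := by
      intro i
      have hs := (hφ.norm i)
      have s1 : Summable fun x => if ‖x - y i‖ ≤ R then ‖φ i x‖ ^ 2 else 0 := by
        refine Summable.of_nonneg_of_le (fun x => ?_) (fun x => ?_) hs.summable
        · split_ifs <;> positivity
        · split_ifs
          · exact le_rfl
          · positivity
      have s2 : Summable fun x => if ‖x - y i‖ ≤ R then 0 else ‖φ i x‖ ^ 2 := by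
        refine Summable.of_nonneg_of_le (fun x => ?_) (fun x => ?_) hs.summable
        · split_ifs <;> positivity
        · split_ifs
          · positivity
          · exact le_rfl
      have h5 : ∑' x, (if ‖x - y i‖ ≤ R then ‖φ i x‖ ^ 2 else 0) =
          ∑ x ∈ bal (y i) R, ‖φ i x‖ ^ 2 := by
        rw [tsum_eq_sum (s := bal (y i) R)]
        · refine Finset.sum_congr rfl fun x hx => ?_
          rw [if_pos ((bal_mem (y i) R hR0.le x).1 hx)]
        · intro x hx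
          rw [if_neg fun h => hx ((bal_mem (y i) R hR0.le x).2 h)]
      have h7 : ∑' x, (if ‖x - y i‖ ≤ R then ‖φ i x‖ ^ 2 else 0) +
          ∑' x, (if ‖x - y i‖ ≤ R then 0 else ‖φ i x‖ ^ 2) = 1 := by
        rw [← s1.tsum_add s2, ← hs.tsum_eq]
        refine tsum_congr fun x => ?_
        split_ifs
        · rw [add_zero]
        · rw [zero_add]
      have h8 : (1 / R) ^ (d + 1) ≤ 1 / 2 := by
        have h9 : 1 / R ≤ 1 / 2 := by
          rw [div_le_div_iff₀ hR0 (by norm_num)]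
          rw [div_le_iff₀ hc] at hR1
          nlinarith
        calc (1 / R) ^ (d + 1) ≤ (1 / 2) ^ (d + 1) := pow_le_pow_left₀ (by positivity) h9 _
          _ ≤ (1 / 2) ^ 1 := pow_le_pow_of_le_one (by norm_num) (by norm_num) (by omega)
          _ = 1 / 2 := pow_one _
      have := ht i
      rw [h5] at h7
      linarith
    have h2 : ∀ i, ∑ x ∈ bal (y i) R, ‖φ i x‖ ^ 2 ≤
        ∑ x ∈ bal (0 : Zd d) (L + R), (if ‖x - y i‖ ≤ R then ‖φ i x‖ ^ 2 else 0) := by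
      intro i
      rw [← Finset.sum_filter]
      refine Finset.sum_le_sum_of_subset_of_nonneg ?_ fun x _ _ => sq_nonneg _
      intro x hx
      have hx1 := (bal_mem (y i) R hR0.le x).1 hx
      rw [Finset.mem_filter, bal_mem _ _ (by linarith)]
      refine ⟨?_, hx1⟩
      rw [sub_zero]
      calc ‖x‖ = ‖(x - y i) + y i‖ := by rw [sub_add_cancel]
        _ ≤ ‖x - y i‖ + ‖y i‖ := norm_add_le _ _
        _ ≤ R + L := add_le_add hx1 (hy i)
        _ = L + R := add_comm _ _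
    have h3 : ∀ x ∈ bal (0 : Zd d) (L + R),
        ∑ i, (if ‖x - y i‖ ≤ R then ‖φ i x‖ ^ 2 else 0) ≤ ε / (2 * 2 ^ d) := by
      intro x hx
      rw [bal_mem _ _ (by linarith), sub_zero] at hx
      have hsub : Fam d (fun x => 2 * d + c * ω x)
          (fun i : {i : Fin n // ‖x - y i‖ ≤ R} => φ i.1) := by
        refine ⟨fun i => hφ.norm i.1, fun i j hij => hφ.orth i.1 j.1 fun h => hij (Subtype.ext h),
          fun i => hφ.eig i.1⟩
      have h4 := hGL ω hω x (hx.trans hLR) (2 * R) (by linarith) (by linarith)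
        {i : Fin n // ‖x - y i‖ ≤ R} (fun i => φ i.1) hsub (by
          intro i
          have e1 : (2 / (2 * R)) = 1 / R := by field_simp
          rw [e1]
          refine le_trans ?_ (ht i.1)
          refine Summable.tsum_le_tsum (fun z => ?_) ?_ ?_
          · by_cases hz : ‖z - x‖ ≤ 2 * R
            · rw [if_pos hz]
              split_ifs <;> positivity
            · rw [if_neg hz]
              have hz2 : ¬ ‖z - y i.1‖ ≤ R := by
                intro hz3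
                apply hz
                calc ‖z - x‖ = ‖(z - y i.1) - (x - y i.1)‖ := by
                      congr 1
                      abel
                  _ ≤ ‖z - y i.1‖ + ‖x - y i.1‖ := norm_sub_le _ _
                  _ ≤ R + R := add_le_add hz3 i.2
                  _ = 2 * R := by ring
              rw [if_neg hz2]
          · refine Summable.of_nonneg_of_le (fun x => ?_) (fun x => ?_) (hφ.norm i.1).summable
            · split_ifs <;> positivity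
            · split_ifs
              · positivity
              · exact le_rfl
          · refine Summable.of_nonneg_of_le (fun x => ?_) (fun x => ?_) (hφ.norm i.1).summable
            · split_ifs <;> positivity
            · split_ifs
              · positivity
              · exact le_rfl)
      refine le_trans (le_of_eq ?_) h4
      rw [← Finset.sum_filter]
      exact (Finset.sum_subtype _ (by simp) _)
    have h4 : (n : ℝ) * (1 / 2) ≤ ∑ x ∈ bal (0 : Zd d) (L + R), ε / (2 * 2 ^ d) := by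
      calc (n : ℝ) * (1 / 2) = ∑ i : Fin n, (1 / 2 : ℝ) := by
            rw [Finset.sum_const, Finset.card_univ, Fintype.card_fin, nsmul_eq_mul]
        _ ≤ ∑ i : Fin n, ∑ x ∈ bal (0 : Zd d) (L + R),
            (if ‖x - y i‖ ≤ R then ‖φ i x‖ ^ 2 else 0) :=
            Finset.sum_le_sum fun i _ => (h1 i).trans (h2 i)
        _ = ∑ x ∈ bal (0 : Zd d) (L + R), ∑ i : Fin n,
            (if ‖x - y i‖ ≤ R then ‖φ i x‖ ^ 2 else 0) := Finset.sum_comm
        _ ≤ _ := Finset.sum_le_sum h3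
    rw [Finset.sum_const, nsmul_eq_mul] at h4
    have h5 := bal_card (0 : Zd d) (L + R) (by linarith)
    have h6 : (2 * (L + R) + 1) ^ d ≤ (2 * (2 * L + 1)) ^ d := by
      refine pow_le_pow_left₀ (by linarith) ?_ d
      linarith
    have h7 : ((bal (0 : Zd d) (L + R)).card : ℝ) * (ε / (2 * 2 ^ d)) ≤
        ε / 2 * (2 * L + 1) ^ d := by
      calc ((bal (0 : Zd d) (L + R)).card : ℝ) * (ε / (2 * 2 ^ d)) ≤
          (2 * (2 * L + 1)) ^ d * (ε / (2 * 2 ^ d)) := by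
            have := h5.trans h6
            gcongr
        _ = _ := by
            rw [mul_pow]
            field_simp
    linarith

end Pool.Agent.Q62.QD
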