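import Pool.Agent.Q62.QD.NonE

/-! The resolvent leaves the neighbourhood of the starting point, at every energy of the bulk. -/

set_option autoImplicit false
set_option linter.unusedSectionVars false

open scoped BigOperators Topology InnerProductSpace
open MeasureTheory Filter Set

namespace Pool.Agent.Q62.QD

open Pool.Agent.W788.BK
open Pool.Agent.W788.LD.Spec (S)
open Pool.Agent.H4R2.LO (Zd)
open Pool.Agent.TH794.QD
open Pool.Agent.TH794.QE
open Pool.Agent.TH794.HK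

open Classical in
/-- **the resolvent leaves the neighbourhood of the starting point** -/
theorem leaveR (d : ℕ) (hd : 2 ≤ d) (κ : ℝ) (hκ : 0 < κ) (hκ1 : κ ≤ 1) :
    ∃ C : ℝ, 0 < C ∧ ∀ b v ε : ℝ, 0 < b → 0 < v → 0 < ε →
    ∃ δ : ℝ, 0 < δ ∧ ∃ c0 : ℝ, 0 < c0 ∧ ∀ c : ℝ, 0 < c → c ≤ c0 →
    ∀ (μ : Measure ℝ), IsProbabilityMeasure μ → (∀ᵐ s ∂μ, |s| ≤ b) →
    ∀ Mn V : ℝ, ∫ s, s ∂μ = Mn → ∫ s, (s - Mn) ^ 2 ∂μ = V → v ≤ V →
      ∃ G : Set (Zd d → ℝ), MeasurableSet G ∧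
        1 - Real.exp (-c ^ (-(1 / 101) : ℝ)) ≤
          (Measure.infinitePi fun _ : Zd d => μ).real G ∧
        ∀ ω ∈ G, (∀ x, |ω x| ≤ b) ∧
          ∀ a : Zd d, ‖a‖ ≤ Real.exp (c ^ (-(1 / 101) : ℝ)) →
          ∀ e : ℝ, Bk d κ (2 * d + c * Mn - e) → ∀ η : ℝ, c ^ (81 / 40 : ℝ) ≤ η →
          η ≤ c ^ (161 / 80 : ℝ) →
          ∀ u : Zd d → ℂ, Rs d (fun x => 2 * d + c * ω x) a e η u →
          (η * ∑' x, ‖u x‖ ^ 2 ≤ C) ∧
          ∀ R : ℝ, R * Real.sqrt (η * (c ^ 2 * V)) ≤ δ →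
            η * ∑' x, (if ‖x - a‖ ≤ R then ‖u x‖ ^ 2 else 0) ≤ ε := by
  obtain ⟨m, hm, hm2⟩ := G1_low sO d hd κ hκ hκ1
  obtain ⟨Cb, hCb⟩ := (Sk_compact d κ).exists_bound_of_continuousOn
    ((G0_cont sO d hd κ hκ hκ1).mono (Sk_Reg d κ))
  obtain ⟨C1, hC1⟩ : ∃ C1, C1 = max Cb 1 := ⟨_, rfl⟩
  have hC10 : 0 < C1 := by rw [hC1]; positivity
  have hG0b : ∀ E, Bk d κ E → 0 < (G0 d E).im ∧ (G0 d E).im ≤ C1 := by
    intro E hE
    have h1 := hm2 E hE
    have h2 := bvals sO d hd κ hκ hκ1 E hE.1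
    refine ⟨by linarith [h2.2.2.2], ?_⟩
    refine ((le_abs_self _).trans (Complex.abs_im_le_norm _)).trans ((hCb E hE).trans ?_)
    rw [hC1]
    exact le_max_left _ _
  obtain ⟨D0, hD0⟩ : ∃ D0, D0 = m / C1 ^ 2 := ⟨_, rfl⟩
  have hD00 : 0 < D0 := by rw [hD0]; positivity
  have hDc : ∀ E, Bk d κ E → D0 ≤ (G1 d E).im / (G0 d E).im ^ 2 := by
    intro E hE
    have h1 := hm2 E hE
    obtain ⟨h3, h4⟩ := hG0b E hE
    have h5 : 0 ≤ (G1 d E).im := hm.le.trans h1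
    rw [hD0]
    gcongr
  refine ⟨C1 + 1, by positivity, fun b v ε hb hv hε => ?_⟩
  obtain ⟨N, hNd⟩ : ∃ N : ℕ, N = ⌈8 * (C1 + 1) / ε⌉₊ + 1 := ⟨_, rfl⟩
  have hN1 : 1 ≤ N := by omega
  have hN2 : 8 * (C1 + 1) / ε ≤ N := by
    have := Nat.le_ceil (8 * (C1 + 1) / ε)
    rw [hNd]
    push_cast
    linarith
  have hN0 : (0 : ℝ) < N := by exact_mod_cast (by omega : 0 < N)
  obtain ⟨θ, hθ⟩ : ∃ θ, θ = Real.sqrt (16 * C1 / (ε * D0)) := ⟨_, rfl⟩
  have hθ0 : 0 < θ := by rw [hθ]; exact Real.sqrt_pos.2 (by positivity)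
  have hθ2 : θ ^ 2 = 16 * C1 / (ε * D0) := by rw [hθ, Real.sq_sqrt (by positivity)]
  obtain ⟨c0, hc0, hL⟩ := finL d (Bk d κ) (G0 d) (G1 d) b v ((N : ℝ) ^ 2 * θ ^ 2) hb hv
    (by positivity)
    (engP sES sTH sFL sIN sSU sQB sLO sAD sFA sO d hd κ hκ hκ1 (2 * b) v
      (2 * ((N : ℝ) ^ 2 * θ ^ 2)) (by positivity) hv (by positivity)) fun E hE => by
      have h1 := bvals sO d hd κ hκ hκ1 E hE.1
      exact ⟨(hG0b E hE).1, h1.2.2.1, h1.2.2.2⟩
  obtain ⟨s0, hs0⟩ : ∃ s0, s0 = min 1 (ε / 16) := ⟨_, rfl⟩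
  have hs00 : 0 < s0 := by rw [hs0]; exact lt_min one_pos (by positivity)
  refine ⟨1 / (N * θ), by positivity, min c0 (s0 ^ 200), lt_min hc0 (by positivity),
    fun c hc hcc μ hμ hμb Mn V hM hV hvV => ?_⟩
  obtain ⟨G, hG, hP, hGL⟩ := hL c hc (hcc.trans (min_le_left _ _)) μ hμ hμb Mn V hM hV hvV
  refine ⟨G, hG, hP, fun ω hω => ⟨(hGL ω hω).1, ?_⟩⟩
  intro a ha e he η hη1 hη2 u hu
  have hkey := (hGL ω hω).2 a ha e he η hη1 hη2 u hu
  obtain ⟨s, hs⟩ : ∃ s, s = c ^ (1 / 200 : ℝ) := ⟨_, rfl⟩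
  have hss : s ≤ s0 := by
    rw [hs]
    have h1 := Real.rpow_le_rpow hc.le (hcc.trans (min_le_right _ _))
      (by norm_num : (0 : ℝ) ≤ 1 / 200)
    refine h1.trans (le_of_eq ?_)
    rw [← Real.rpow_natCast, ← Real.rpow_mul hs00.le]
    norm_num
  have hs1 : s ≤ 1 := hss.trans (by rw [hs0]; exact min_le_left _ _)
  have hsε : s ≤ ε / 16 := hss.trans (by rw [hs0]; exact min_le_right _ _)
  rw [← hs] at hkey
  have hη0 : 0 < η := lt_of_lt_of_le (Real.rpow_pos_of_pos hc _) hη1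
  have hV0 : 0 < V := hv.trans_le hvV
  obtain ⟨r, hr⟩ : ∃ r, r = Real.sqrt (η * (c ^ 2 * V)) := ⟨_, rfl⟩
  have hr2 : r ^ 2 = η * (c ^ 2 * V) := by
    rw [hr, Real.sq_sqrt (by positivity)]
  have hr0 : 0 < r := by rw [hr]; exact Real.sqrt_pos.2 (by positivity)
  obtain ⟨i0, hi0⟩ : ∃ i0 : Fin d, i0 = ⟨0, by omega⟩ := ⟨_, rfl⟩
  obtain ⟨z, hz⟩ : ∃ z : Zd d → ℝ, z = fun x => θ * r * ((x i0 : ℝ) - a i0) := ⟨_, rfl⟩
  obtain ⟨w, hw⟩ : ∃ w : ℕ → ℕ → Zd d → ℂ, w = fun (k l : ℕ) (x : Zd d) =>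
    Complex.exp (Complex.I * (((((k : ℝ) - l) * z x : ℝ)) : ℂ)) := ⟨_, rfl⟩
  obtain ⟨E, hE⟩ : ∃ E, E = 2 * (d : ℝ) + c * Mn - e := ⟨_, rfl⟩
  rw [← hE] at hkey he
  -- one pair
  have hone : ∀ k ∈ Finset.range N, ∀ l ∈ Finset.range N,
      η * (Xw (w k l) u).re ≤ (if k = l then C1 + 1 else 0) + ε / 8 := by
    intro k hk l hl
    have hk1 : (k : ℝ) ≤ N := by exact_mod_cast (Finset.mem_range.1 hk).le
    have hl1 : (l : ℝ) ≤ N := by exact_mod_cast (Finset.mem_range.1 hl).le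
    have hk0 : (0 : ℝ) ≤ k := Nat.cast_nonneg k
    have hl0 : (0 : ℝ) ≤ l := Nat.cast_nonneg l
    have hkl2 : ((k : ℝ) - l) ^ 2 ≤ (N : ℝ) ^ 2 := by
      rw [← sq_abs ((k : ℝ) - l)]
      refine pow_le_pow_left₀ (abs_nonneg _) ?_ 2
      rw [abs_le]
      constructor <;> linarith
    obtain ⟨p, hp⟩ : ∃ p : Fin d → ℝ, p = fun i => if i = i0 then ((k : ℝ) - l) * (θ * r) else 0 :=
      ⟨_, rfl⟩
    have hps : ∑ i, p i ^ 2 = ((k : ℝ) - l) ^ 2 * θ ^ 2 * (η * (c ^ 2 * V)) := by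
      rw [hp, ← hr2]
      have h1 : ∀ i : Fin d, (if i = i0 then ((k : ℝ) - l) * (θ * r) else 0) ^ 2 =
          if i = i0 then ((k : ℝ) - l) ^ 2 * θ ^ 2 * r ^ 2 else 0 := by
        intro i
        split_ifs
        · ring
        · norm_num
      simp only [h1]
      rw [Finset.sum_ite_eq' Finset.univ i0, if_pos (Finset.mem_univ _)]
    have h2 := hkey p (by
      rw [hps]
      gcongr)
    have hph : (fun x => ph p (x - a)) = w k l := by
      funext x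
      rw [hw, hz, hp]
      unfold ph
      simp only
      congr 3
      rw [Finset.sum_eq_single i0]
      · rw [if_pos rfl]
        simp only [Pi.sub_apply, Int.cast_sub]
        ring
      · intro i _ hi
        rw [if_neg hi]
        ring
      · intro h
        exact absurd (Finset.mem_univ _) h
    have hX : ∑' x, ph p (x - a) * ((‖u x‖ ^ 2 : ℝ) : ℂ) = Xw (w k l) u := by
      unfold Xw
      rw [← hph]
    rw [hX] at h2
    have hT : Tg (G0 d) (G1 d) η (c ^ 2 * V) E p ≤ if k = l then C1 else ε / 16 := by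
      unfold Tg
      obtain ⟨h3, h4⟩ := hG0b E he
      have h5 := hDc E he
      have hx : 0 ≤ (∑ i, p i ^ 2) / (η * (c ^ 2 * V)) * ((G1 d E).im / (G0 d E).im ^ 2) := by
        have : 0 ≤ (G1 d E).im / (G0 d E).im ^ 2 := hD00.le.trans h5
        have h6 : 0 ≤ ∑ i, p i ^ 2 := Finset.sum_nonneg fun i _ => sq_nonneg _
        positivity
      split_ifs with hkl
      · exact (div_le_self h3.le (by linarith)).trans h4
      · have hkl1 : 1 ≤ ((k : ℝ) - l) ^ 2 := by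
          have h1 : (1 : ℤ) ≤ ((k : ℤ) - l) ^ 2 := by
            have h2 : ((k : ℤ) - l) ≠ 0 := by omega
            have h3 : 0 < ((k : ℤ) - l) ^ 2 := by positivity
            omega
          exact_mod_cast h1
        have e1 : (∑ i, p i ^ 2) / (η * (c ^ 2 * V)) = ((k : ℝ) - l) ^ 2 * θ ^ 2 := by
          rw [hps]
          have h6 : η * (c ^ 2 * V) ≠ 0 := by positivity
          rw [mul_div_assoc, div_self h6, mul_one]
        rw [e1] at hx ⊢
        rw [div_le_iff₀ (by linarith)]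
        have h7 : 16 * C1 / ε ≤ ((k : ℝ) - l) ^ 2 * θ ^ 2 * ((G1 d E).im / (G0 d E).im ^ 2) := by
          calc 16 * C1 / ε = 1 * θ ^ 2 * D0 := by
                rw [hθ2]
                field_simp
            _ ≤ _ := by gcongr
        calc (G0 d E).im ≤ C1 := h4
          _ = ε / 16 * (16 * C1 / ε) := by field_simp
          _ ≤ ε / 16 * (1 + ((k : ℝ) - l) ^ 2 * θ ^ 2 * ((G1 d E).im / (G0 d E).im ^ 2)) := by
              have : 16 * C1 / ε ≤ 1 + ((k : ℝ) - l) ^ 2 * θ ^ 2 *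
                ((G1 d E).im / (G0 d E).im ^ 2) := by linarith
              gcongr
    have h8 : η * (Xw (w k l) u).re - Tg (G0 d) (G1 d) η (c ^ 2 * V) E p ≤ s := by
      refine le_trans ?_ h2
      refine le_trans (le_of_eq ?_) (Complex.re_le_norm _)
      rw [Complex.sub_re, Complex.re_ofReal_mul, Complex.ofReal_re]
    split_ifs at hT ⊢ with hkl
    · linarith
    · linarith
  constructor
  · have h1 := hkey (fun _ => 0) (by
      simp only [ne_eq, OfNat.ofNat_ne_zero, not_false_eq_true, zero_pow, Finset.sum_const_zero]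
      positivity)
    have e1 : ∀ x : Zd d, ph (fun _ => (0 : ℝ)) (x - a) = 1 := by
      intro x
      unfold ph
      simp
    simp only [e1, one_mul] at h1
    have e2 : Tg (G0 d) (G1 d) η (c ^ 2 * V) E (fun _ : Fin d => (0 : ℝ)) = (G0 d E).im := by
      unfold Tg
      simp
    rw [e2, ← Complex.ofReal_tsum, ← Complex.ofReal_mul, ← Complex.ofReal_sub, Complex.norm_real,
      Real.norm_eq_abs] at h1
    have h2 := (abs_le.1 h1).2
    have h3 := (hG0b E he).2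
    linarith
  · intro R hR
    rw [← hr] at hR
    have hzP : ∀ x : Zd d, ‖x - a‖ ≤ R → (N : ℝ) * |z x| ≤ 1 := by
      intro x hx
      have h1 : |(x i0 : ℝ) - a i0| ≤ R := by
        refine le_trans ?_ hx
        have h2 := coord_le (x - a) i0
        simpa using h2
      rw [hz]
      simp only
      rw [abs_mul, abs_of_nonneg (by positivity)]
      calc (N : ℝ) * (θ * r * |(x i0 : ℝ) - a i0|) ≤ N * (θ * r * R) := by gcongr
        _ = N * θ * (R * r) := by ring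
        _ ≤ N * θ * (1 / (N * θ)) := by gcongr
        _ = 1 := by field_simp
    have hmn := mass_near N hN1 z (fun x => ‖x - a‖ ≤ R) hzP u hu.sq
    have hmn2 : ∑' x, (if ‖x - a‖ ≤ R then ‖u x‖ ^ 2 else 0) ≤
        4 / (N : ℝ) ^ 2 * ∑ k ∈ Finset.range N, ∑ l ∈ Finset.range N, (Xw (w k l) u).re := by
      rw [hw]
      exact hmn
    have h6 : ∑ k ∈ Finset.range N, ∑ l ∈ Finset.range N, η * (Xw (w k l) u).re ≤
        N * (C1 + 1) + (N : ℝ) ^ 2 * (ε / 8) := by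
      have h7 : ∀ k ∈ Finset.range N, ∑ l ∈ Finset.range N, η * (Xw (w k l) u).re ≤
          (C1 + 1) + N * (ε / 8) := by
        intro k hk
        refine (Finset.sum_le_sum fun l hl => hone k hk l hl).trans ?_
        rw [Finset.sum_add_distrib, Finset.sum_ite_eq, if_pos hk, Finset.sum_const,
          Finset.card_range, nsmul_eq_mul]
      refine (Finset.sum_le_sum h7).trans (le_of_eq ?_)
      rw [Finset.sum_const, Finset.card_range, nsmul_eq_mul]
      ring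
    calc η * ∑' x, (if ‖x - a‖ ≤ R then ‖u x‖ ^ 2 else 0) ≤
        η * (4 / (N : ℝ) ^ 2 *
          ∑ k ∈ Finset.range N, ∑ l ∈ Finset.range N, (Xw (w k l) u).re) := by gcongr
      _ = 4 / (N : ℝ) ^ 2 *
          ∑ k ∈ Finset.range N, ∑ l ∈ Finset.range N, η * (Xw (w k l) u).re := by
          simp only [← Finset.mul_sum]
          ring
      _ ≤ 4 / (N : ℝ) ^ 2 * (N * (C1 + 1) + (N : ℝ) ^ 2 * (ε / 8)) := by gcongr
      _ = 4 * (C1 + 1) / N + ε / 2 := by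
          field_simp
          ring
      _ ≤ ε / 2 + ε / 2 := by
          have h8 : 4 * (C1 + 1) / (N : ℝ) ≤ ε / 2 := by
            rw [div_le_div_iff₀ hN0 (by norm_num)]
            rw [div_le_iff₀ hε] at hN2
            linarith
          linarith
      _ = ε := by ring

end Pool.Agent.Q62.QD
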