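import Pool.Agent.Q62.QD.NonG

/-! Few localized eigenfunctions in every short energy window of the bulk. -/

set_option autoImplicit false
set_option linter.unusedSectionVars false

open scoped BigOperators Topology InnerProductSpace
open MeasureTheory Filter Set

namespace Pool.Agent.Q62.QD

open Pool.Agent.W788.LD.Spec (S)
open Pool.Agent.H4R2.LO (Zd)
open Pool.Agent.TH794.QD
open Pool.Agent.TH794.QE

variable {d : ℕ}

open Classical in
/-- **few localized eigenfunctions in every energy window** -/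
theorem windows (hd : 2 ≤ d) (κ : ℝ) (hκ : 0 < κ) (hκ1 : κ ≤ 1) (b v ε : ℝ) (hb : 0 < b)
    (hv : 0 < v) (hε : 0 < ε) :
    ∃ δ : ℝ, 0 < δ ∧ ∃ c0 : ℝ, 0 < c0 ∧ ∀ c : ℝ, 0 < c → c ≤ c0 →
    ∀ (μ : Measure ℝ), IsProbabilityMeasure μ → (∀ᵐ s ∂μ, |s| ≤ b) →
    ∀ Mn V : ℝ, ∫ s, s ∂μ = Mn → ∫ s, (s - Mn) ^ 2 ∂μ = V → v ≤ V →
      ∃ G : Set (Zd d → ℝ), MeasurableSet G ∧
        1 - Real.exp (-c ^ (-(1 / 101) : ℝ)) ≤
          (Measure.infinitePi fun _ : Zd d => μ).real G ∧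
        ∀ ω ∈ G, ∀ e : ℝ, Bk d κ (2 * d + c * Mn - e) →
          ∀ η : ℝ, c ^ (81 / 40 : ℝ) ≤ η → η ≤ c ^ (161 / 80 : ℝ) →
          ∀ R : ℝ, 1 / c ≤ R → R * Real.sqrt (η * c ^ 2) ≤ δ →
          (∀ a : Zd d, ‖a‖ ≤ Real.exp (c ^ (-(1 / 101) : ℝ)) →
            ∀ (ι : Type) [Fintype ι] (φ : ι → Zd d → ℂ),
            FamW d (fun x => 2 * d + c * ω x) e η φ →
            (∀ i, ∑' x, (if ‖x - a‖ ≤ R then 0 else ‖φ i x‖ ^ 2) ≤ (1 / R) ^ (d + 1)) →
            ∑ i, ‖φ i a‖ ^ 2 ≤ ε * η) ∧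
          ∀ L : ℝ, R ≤ L → L + R ≤ Real.exp (c ^ (-(1 / 101) : ℝ)) →
            ∀ (n : ℕ) (φ : Fin n → Zd d → ℂ) (y : Fin n → Zd d),
            FamW d (fun x => 2 * d + c * ω x) e η φ → (∀ i, ‖y i‖ ≤ L) →
            (∀ i, ∑' x, (if ‖x - y i‖ ≤ R then 0 else ‖φ i x‖ ^ 2) ≤ (1 / R) ^ (d + 1)) →
            (n : ℝ) ≤ ε * η * (2 * L + 1) ^ d := by
  have h2d : (1 : ℝ) ≤ 2 * 2 ^ d := by
    have : (1 : ℝ) ≤ 2 ^ d := one_le_pow₀ (by norm_num)
    linarith
  obtain ⟨ε', hε'⟩ : ∃ ε', ε' = ε / (2 * 2 ^ d) := ⟨_, rfl⟩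
  have hε'0 : 0 < ε' := by rw [hε']; positivity
  have hε'1 : ε' ≤ ε := by rw [hε']; exact div_le_self hε.le h2d
  obtain ⟨C, hC, hlv⟩ := leaveR d hd κ hκ hκ1
  obtain ⟨δ1, hδ1, c0, hc0, hL⟩ := hlv b v (ε' / 8) hb hv (by positivity)
  obtain ⟨K, hK⟩ : ∃ K : ℝ, K = 3 ^ d * 2 ^ (d + 1) := ⟨_, rfl⟩
  have hK0 : 0 < K := by rw [hK]; positivity
  refine ⟨δ1 / (4 * b), by positivity, min c0 (min (1 / 4) (ε' / (16 * C * K))),
    lt_min hc0 (lt_min (by norm_num) (by positivity)),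
    fun c hc hcc μ hμ hμb Mn V hM hV hvV => ?_⟩
  have hcc0 : c ≤ c0 := hcc.trans (min_le_left _ _)
  have hcc1 : c ≤ 1 / 4 := hcc.trans ((min_le_right _ _).trans (min_le_left _ _))
  have hcc2 : c ≤ ε' / (16 * C * K) := hcc.trans ((min_le_right _ _).trans (min_le_right _ _))
  obtain ⟨G, hG, hP, hGL⟩ := hL c hc hcc0 μ hμ hμb Mn V hM hV hvV
  refine ⟨G, hG, hP, fun ω hω e he η hη1 hη2 R hR1 hR2 => ?_⟩
  obtain ⟨hωb, hres⟩ := hGL ω hω
  have hη0 : 0 < η := lt_of_lt_of_le (Real.rpow_pos_of_pos hc _) hη1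
  have hV0 : 0 < V := lt_of_lt_of_le hv hvV
  have hVb : V ≤ (2 * b) ^ 2 := by
    have hMb : |Mn| ≤ b := by
      rw [← hM]
      have h1 := norm_integral_le_of_norm_le_const (μ := μ) (f := fun s : ℝ => s) (C := b)
        (by simpa [Real.norm_eq_abs] using hμb)
      simpa using h1
    rw [← hV]
    have h2 : ∫ s, (s - Mn) ^ 2 ∂μ ≤ ∫ s, (2 * b) ^ 2 ∂μ := by
      refine integral_mono_of_nonneg (Filter.Eventually.of_forall fun s => sq_nonneg _)
        (integrable_const _) ?_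
      filter_upwards [hμb] with s hs
      rw [← sq_abs (s - Mn)]
      refine pow_le_pow_left₀ (abs_nonneg _) ?_ 2
      linarith [abs_sub s Mn]
    simpa using h2
  have hR0 : 0 < R := lt_of_lt_of_le (by positivity) hR1
  have hR4 : 4 ≤ R := by
    refine le_trans ?_ hR1
    rw [le_div_iff₀ hc]
    linarith
  have hkey : (2 * R) * Real.sqrt (η * (c ^ 2 * V)) ≤ δ1 := by
    have e1 : Real.sqrt (η * (c ^ 2 * V)) ≤ 2 * b * Real.sqrt (η * c ^ 2) := by
      refine Real.sqrt_le_iff.2 ⟨by positivity, ?_⟩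
      rw [mul_pow, Real.sq_sqrt (by positivity)]
      calc η * (c ^ 2 * V) = V * (η * c ^ 2) := by ring
        _ ≤ (2 * b) ^ 2 * (η * c ^ 2) := by gcongr
    calc (2 * R) * Real.sqrt (η * (c ^ 2 * V)) ≤ (2 * R) * (2 * b * Real.sqrt (η * c ^ 2)) := by
          gcongr
      _ = 4 * b * (R * Real.sqrt (η * c ^ 2)) := by ring
      _ ≤ 4 * b * (δ1 / (4 * b)) := by gcongr
      _ = δ1 := by field_simp
  have hθ : (1 / R) ^ (d + 1) ≤ 1 / 2 := by
    have h1 : 1 / R ≤ 1 / 2 := by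
      rw [div_le_div_iff₀ hR0 (by norm_num)]
      linarith
    calc (1 / R) ^ (d + 1) ≤ (1 / 2) ^ (d + 1) := pow_le_pow_left₀ (by positivity) h1 _
      _ ≤ (1 / 2) ^ 1 := pow_le_pow_of_le_one (by norm_num) (by norm_num) (by omega)
      _ = 1 / 2 := pow_one _
  have hVbd : ∀ x : Zd d, |(2 * d + c * ω x : ℝ)| ≤ 2 * d + c * b := by
    intro x
    refine (abs_add_le _ _).trans ?_
    rw [abs_mul c, abs_of_pos hc, abs_of_nonneg (by positivity : (0 : ℝ) ≤ 2 * d)]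
    have := hωb x
    gcongr
  -- the local bound, with the radius `2 R`
  have hmain : ∀ a : Zd d, ‖a‖ ≤ Real.exp (c ^ (-(1 / 101) : ℝ)) →
      ∀ (ι : Type) [Fintype ι] (φ : ι → Zd d → ℂ),
      FamW d (fun x => 2 * d + c * ω x) e η φ →
      (∀ i, ∑' x, (if ‖x - a‖ ≤ 2 * R then 0 else ‖φ i x‖ ^ 2) ≤ (1 / R) ^ (d + 1)) →
      ∑ i, ‖φ i a‖ ^ 2 ≤ ε' * η := by
    intro a ha ι _ φ hφ ht
    obtain ⟨u, hu⟩ := rs_exists (fun x => 2 * (d : ℝ) + c * ω x) (2 * d + c * b) hVbd a e η hη0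
    obtain ⟨h1, h2⟩ := hres a ha e he η hη1 hη2 u hu
    refine (hφ.bound hVbd hη0 (by positivity) hu h1 (h2 (2 * R) hkey) (by positivity) hθ
      ht).trans ?_
    have h3 : (2 * (2 * R) + 1) ^ d * (1 / R) ^ (d + 1) ≤ K * c := by
      have h4 : 1 / R ≤ c := by
        rw [div_le_iff₀ hR0]
        rw [div_le_iff₀ hc] at hR1
        linarith
      calc (2 * (2 * R) + 1) ^ d * (1 / R) ^ (d + 1) ≤ (6 * R) ^ d * (1 / R) ^ (d + 1) := by
            have : 2 * (2 * R) + 1 ≤ 6 * R := by linarith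
            gcongr
        _ = 6 ^ d * (1 / R) := by
            rw [mul_pow, div_pow, pow_succ R, one_pow]
            field_simp
        _ ≤ K * (1 / R) := by
            rw [hK]
            have h5 : (6 : ℝ) ^ d ≤ 3 ^ d * 2 ^ (d + 1) := by
              have h6 : (6 : ℝ) ^ d = 3 ^ d * 2 ^ d := by
                rw [← mul_pow]
                norm_num
              rw [h6, pow_succ]
              have : (0 : ℝ) ≤ 3 ^ d * 2 ^ d := by positivity
              nlinarith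
            gcongr
        _ ≤ K * c := by gcongr
    have h4 : 8 * C * ((2 * (2 * R) + 1) ^ d * (1 / R) ^ (d + 1)) ≤ ε' / 2 := by
      calc 8 * C * ((2 * (2 * R) + 1) ^ d * (1 / R) ^ (d + 1)) ≤ 8 * C * (K * c) := by gcongr
        _ ≤ 8 * C * (K * (ε' / (16 * C * K))) := by gcongr
        _ = ε' / 2 := by
            field_simp
            norm_num
    have h5 : 4 * (ε' / 8) + 8 * C * ((2 * (2 * R) + 1) ^ d * (1 / R) ^ (d + 1)) ≤ ε' := by
      linarith
    gcongr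
  have htail : ∀ (u : Zd d → ℂ) (x y : Zd d), (Summable fun z => ‖u z‖ ^ 2) → ‖x - y‖ ≤ R →
      ∑' z, (if ‖z - x‖ ≤ 2 * R then 0 else ‖u z‖ ^ 2) ≤
        ∑' z, (if ‖z - y‖ ≤ R then 0 else ‖u z‖ ^ 2) := by
    intro u x y hs hxy
    refine Summable.tsum_le_tsum (fun z => ?_) ?_ ?_
    · by_cases hz : ‖z - x‖ ≤ 2 * R
      · rw [if_pos hz]
        split_ifs <;> positivity
      · rw [if_neg hz]
        have hz2 : ¬ ‖z - y‖ ≤ R := by
          intro hz3
          apply hz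
          calc ‖z - x‖ = ‖(z - y) - (x - y)‖ := by
                congr 1
                abel
            _ ≤ ‖z - y‖ + ‖x - y‖ := norm_sub_le _ _
            _ ≤ R + R := add_le_add hz3 hxy
            _ = 2 * R := by ring
        rw [if_neg hz2]
    · refine Summable.of_nonneg_of_le (fun x => ?_) (fun x => ?_) hs
      · split_ifs <;> positivity
      · split_ifs
        · positivity
        · exact le_rfl
    · refine Summable.of_nonneg_of_le (fun x => ?_) (fun x => ?_) hs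
      · split_ifs <;> positivity
      · split_ifs
        · positivity
        · exact le_rfl
  constructor
  · intro a ha ι _ φ hφ ht
    refine (hmain a ha ι φ hφ fun i => ?_).trans (by gcongr)
    refine (htail (φ i) a a (hφ.norm i).summable ?_).trans (ht i)
    rw [sub_self, norm_zero]
    exact hR0.le
  · intro L hRL hLR n φ y hφ hy ht
    have h1 := count (ε := ε' * η) (by linarith) hRL n φ y hφ.norm hy ht (by positivity)
      fun x hx => ?_
    · refine h1.trans (le_of_eq ?_)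
      rw [hε']
      field_simp
    · refine hmain x (hx.trans hLR) {i : Fin n // ‖x - y i‖ ≤ R} (fun i => φ i.1) ?_ ?_
      · exact ⟨fun i => hφ.norm i.1, fun i j hij => hφ.orth i.1 j.1 fun h => hij (Subtype.ext h),
          fun i => hφ.eig i.1⟩
      · intro i
        exact (htail (φ i.1) x (y i.1) (hφ.norm i.1).summable i.2).trans (ht i.1)

end Pool.Agent.Q62.QD
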