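import Pool.Agent.TH794.QE.FinA
import Pool.Agent.TH794.QD.Planch

/-! Time and energy: Plancherel for the evolution. -/

set_option autoImplicit false
set_option linter.unusedSectionVars false

open scoped BigOperators Topology ENNReal FourierTransform
open MeasureTheory Filter Set

namespace Pool.Agent.Q62.QD

open Pool.Agent.W788.LD.Spec (S)
open Pool.Agent.H4R2.LO (Zd)
open Pool.Agent.TH794.QD
open Pool.Agent.TH794.QE

variable {d : ℕ} {V : Zd d → ℝ} {a : Zd d} {ψ : ℝ → Zd d → ℂ}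

theorem lint_scale (g : ℝ → ℝ≥0∞) (c : ℝ) (hc : 0 < c) :
    ∫⁻ ξ, g (-c * ξ) = ENNReal.ofReal c⁻¹ * ∫⁻ E, g E := by
  have hc' : -c ≠ 0 := by linarith
  have h1 := (Homeomorph.mulLeft₀ (-c) hc').measurableEmbedding.lintegral_map g (μ := volume)
  have h2 : Measure.map (Homeomorph.mulLeft₀ (-c) hc') (volume : Measure ℝ) =
      ENNReal.ofReal |(-c)⁻¹| • volume := by
    have := Real.map_volume_mul_left hc'
    exact this
  rw [h2, lintegral_smul_measure] at h1
  have h3 : |(-c)⁻¹| = c⁻¹ := by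
    rw [abs_inv, abs_neg, abs_of_pos hc]
  rw [h3] at h1
  simp only [smul_eq_mul] at h1
  rw [h1]
  rfl

/-- **Plancherel at one site** -/
theorem site_lint (h : Sol d V a ψ) (t : ℝ) (ht : 0 < t) (x : Zd d) :
    ∫⁻ E : ℝ, ‖La ψ E t x‖ₑ ^ 2 = ENNReal.ofReal (2 * Real.pi) *
      ∫⁻ s in Ioi (0 : ℝ), ENNReal.ofReal (Real.exp (-(2 * t) * s) * ‖ψ s x‖ ^ 2) := by
  obtain ⟨f, hf⟩ : ∃ f : ℝ → ℂ, f = (Ioi (0 : ℝ)).indicator fun s => ew 0 t s * ψ s x := ⟨_, rfl⟩
  have hm : MeasurableSet (Ioi (0 : ℝ)) := measurableSet_Ioi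
  have hfi : Integrable f := by
    rw [hf, integrable_indicator_iff hm]
    exact La_int h 0 t ht x
  have hf2 : ∀ s, ‖f s‖ₑ ^ 2 = (Ioi (0 : ℝ)).indicator
      (fun s => ENNReal.ofReal (Real.exp (-(2 * t) * s) * ‖ψ s x‖ ^ 2)) s := by
    intro s
    rw [hf]
    by_cases hs : s ∈ Ioi (0 : ℝ)
    · rw [indicator_of_mem hs, indicator_of_mem hs, ← ofReal_norm, ← ENNReal.ofReal_pow
        (norm_nonneg _), norm_mul, ew_norm, mul_pow, ← Real.exp_nat_mul]
      congr 3
      push_cast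
      ring
    · rw [indicator_of_notMem hs, indicator_of_notMem hs]
      simp
  have hL : ∫⁻ s, ‖f s‖ₑ ^ 2 =
      ∫⁻ s in Ioi (0 : ℝ), ENNReal.ofReal (Real.exp (-(2 * t) * s) * ‖ψ s x‖ ^ 2) := by
    simp only [hf2]
    exact lintegral_indicator hm _
  have hfin : ∫⁻ s, ‖f s‖ₑ ^ 2 ≠ ⊤ := by
    rw [hL]
    have h1 : IntegrableOn (fun s => Real.exp (-(2 * t) * s) * ‖ψ s x‖ ^ 2) (Ioi (0 : ℝ)) := by
      refine Integrable.mono' (exp_int (2 * t) (by linarith)) ?_ ?_
      · exact (Continuous.mul (by fun_prop) ((h.cont x).norm.pow 2)).aestronglyMeasurable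
      · refine Filter.Eventually.of_forall fun s => ?_
        rw [norm_mul, Real.norm_eq_abs, abs_of_pos (Real.exp_pos _), norm_pow, norm_norm]
        exact mul_le_of_le_one_right (Real.exp_pos _).le
          (pow_le_one₀ (norm_nonneg _) (h.le_one s x))
    exact h1.lintegral_lt_top.ne
  have hMem : MemLp f 2 := by
    refine ⟨hfi.aestronglyMeasurable, ?_⟩
    rw [eLpNorm_lt_top_iff_lintegral_rpow_enorm_lt_top (by norm_num) (by norm_num)]
    have h2 : ∫⁻ s, ‖f s‖ₑ ^ ((2 : ℝ≥0∞).toReal) = ∫⁻ s, ‖f s‖ₑ ^ 2 := by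
      refine lintegral_congr fun s => ?_
      simp
    rw [h2]
    exact lt_top_iff_ne_top.2 hfin
  have hP := plancherel f hfi hMem
  have hF : ∀ ξ, 𝓕 f ξ = La ψ (-(2 * Real.pi) * ξ) t x := by
    intro ξ
    rw [Real.fourier_real_eq_integral_exp_smul]
    unfold La
    rw [← integral_indicator hm]
    refine integral_congr_ae (Filter.Eventually.of_forall fun s => ?_)
    simp only
    rw [hf]
    by_cases hs : s ∈ Ioi (0 : ℝ)
    · rw [indicator_of_mem hs, indicator_of_mem hs, smul_eq_mul, ← mul_assoc]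
      congr 1
      unfold ew
      rw [← Complex.exp_add]
      congr 1
      push_cast
      ring
    · rw [indicator_of_notMem hs, indicator_of_notMem hs, smul_zero]
  simp only [hF] at hP
  rw [lint_scale (fun E => ‖La ψ E t x‖ₑ ^ 2) (2 * Real.pi) (by positivity), hL] at hP
  rw [← hP, ← mul_assoc, ← ENNReal.ofReal_mul (by positivity),
    mul_inv_cancel₀ (by positivity : (2 * Real.pi) ≠ 0), ENNReal.ofReal_one, one_mul]

theorem La_cont (h : Sol d V a ψ) (t : ℝ) (ht : 0 < t) (x : Zd d) :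
    Continuous fun E => La ψ E t x := by
  unfold La
  refine continuous_of_dominated (bound := fun s => Real.exp (-t * s)) ?_ ?_ ?_ ?_
  · intro E
    exact ((ew_cont E t).mul (h.cont x)).aestronglyMeasurable
  · intro E
    refine Filter.Eventually.of_forall fun s => ?_
    rw [norm_mul, ew_norm]
    exact mul_le_of_le_one_right (Real.exp_pos _).le (h.le_one s x)
  · exact exp_int t ht
  · refine Filter.Eventually.of_forall fun s => ?_
    unfold ew
    fun_prop

/-- the second moment of the evolution -/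
noncomputable def M2 (ψ : ℝ → Zd d → ℂ) (a : Zd d) (j : Fin d) (s : ℝ) : ℝ≥0∞ :=
  ∑' x, ENNReal.ofReal (((x j : ℝ) - a j) ^ 2 * ‖ψ s x‖ ^ 2)

/-- **Plancherel for the second moment** -/
theorem mom_lint (h : Sol d V a ψ) (t : ℝ) (ht : 0 < t) (ht1 : t ≤ 1) (j : Fin d) :
    ∫⁻ E : ℝ, ENNReal.ofReal (QM a j fun x => Complex.I * La ψ E t x) =
      ENNReal.ofReal (2 * Real.pi) *
      ∫⁻ s in Ioi (0 : ℝ), ENNReal.ofReal (Real.exp (-(2 * t) * s)) * M2 ψ a j s := by
  have h1 : ∀ E : ℝ, ENNReal.ofReal (QM a j fun x => Complex.I * La ψ E t x) =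
      ∑' x, ENNReal.ofReal (((x j : ℝ) - a j) ^ 2) * ‖La ψ E t x‖ₑ ^ 2 := by
    intro E
    have hR : Rs d V a E t (fun x => Complex.I * La ψ E t x) := ⟨La_sum h E t ht, La_eq h E t ht⟩
    have hs := (QM_eq hR (fun x => -V x) 0 1 (fun x => by ring) ht ht1 j).1
    unfold QM
    rw [ENNReal.ofReal_tsum_of_nonneg (fun x => by positivity) hs]
    refine tsum_congr fun x => ?_
    rw [ENNReal.ofReal_mul (sq_nonneg _), norm_mul, Complex.norm_I, one_mul,
      ENNReal.ofReal_pow (norm_nonneg _), ofReal_norm]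
  simp only [h1]
  rw [lintegral_tsum fun x => ?_]
  · have h2 : ∀ x : Zd d, ∫⁻ E : ℝ, ENNReal.ofReal (((x j : ℝ) - a j) ^ 2) *
        ‖La ψ E t x‖ₑ ^ 2 = ENNReal.ofReal (2 * Real.pi) *
        ∫⁻ s in Ioi (0 : ℝ), ENNReal.ofReal (Real.exp (-(2 * t) * s)) *
          ENNReal.ofReal (((x j : ℝ) - a j) ^ 2 * ‖ψ s x‖ ^ 2) := by
      intro x
      rw [lintegral_const_mul' _ _ ENNReal.ofReal_ne_top, site_lint h t ht x, ← mul_assoc,
        mul_comm (ENNReal.ofReal _) (ENNReal.ofReal (2 * Real.pi)), mul_assoc,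
        ← lintegral_const_mul' _ _ ENNReal.ofReal_ne_top]
      congr 1
      refine lintegral_congr fun s => ?_
      rw [← ENNReal.ofReal_mul (sq_nonneg _), ← ENNReal.ofReal_mul (Real.exp_pos _).le]
      congr 1
      ring
    simp only [h2]
    rw [ENNReal.tsum_mul_left]
    congr 1
    rw [← lintegral_tsum fun x => ?_]
    · refine lintegral_congr fun s => ?_
      rw [ENNReal.tsum_mul_left]
      rfl
    · have := h.cont x
      fun_prop
  · have := La_cont h t ht x
    fun_prop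

end Pool.Agent.Q62.QD
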