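import Pool.Agent.Q62.QD.NonE
import Pool.Agent.W788.BK.Unif

/-! The uniform law. -/

set_option autoImplicit false
set_option linter.unusedSectionVars false

open scoped BigOperators Topology
open MeasureTheory Filter Set

namespace Pool.Agent.Q62.QD

open Pool.Agent.H4R2.LO (Zd)
open Pool.Agent.W788.LD.Uni (unif unif_prob unif_bdd unif_mean)

theorem unif_var : ∫ s, (s - 0) ^ 2 ∂(unif 1) = 1 / 3 := by
  unfold unif
  rw [integral_smul_measure, integral_Icc_eq_integral_Ioc,
    ← intervalIntegral.integral_of_le (by norm_num)]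
  simp only [sub_zero]
  rw [integral_pow, ENNReal.toReal_ofReal (by norm_num)]
  norm_num

/-- transfer of an event from the law on `[-1, 1]` to the law on `[-c, c]` -/
theorem unif_transfer {d : ℕ} (c : ℝ) (hc : 0 < c) (G : Set (Zd d → ℝ)) (hG : MeasurableSet G)
    (p : ℝ) (hP : p ≤ (Measure.infinitePi fun _ : Zd d => unif 1).real G) :
    MeasurableSet ((fun (ω : Zd d → ℝ) x => ω x / c) ⁻¹' G) ∧
      p ≤ (Measure.infinitePi fun _ : Zd d => unif c).real
        ((fun (ω : Zd d → ℝ) x => ω x / c) ⁻¹' G) := by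
  have hu1 := unif_prob 1 one_pos
  have huc := unif_prob c hc
  have hTm : Measurable (fun (ω : Zd d → ℝ) x => ω x / c) := by fun_prop
  have hlaw : (Measure.infinitePi fun _ : Zd d => unif c).map (fun ω x => ω x / c) =
      Measure.infinitePi fun _ : Zd d => unif 1 := by
    have h1 := Measure.infinitePi_map_pi (μ := fun _ : Zd d => unif c)
      (f := fun _ (s : ℝ) => s / c) (fun _ => by fun_prop)
    rw [h1]
    congr 1
    funext _
    exact Pool.Agent.W788.BK.Unif.unif_scale c hc
  refine ⟨hTm hG, ?_⟩
  have h1 : (Measure.infinitePi fun _ : Zd d => unif c).real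
      ((fun ω x => ω x / c) ⁻¹' G) =
      (Measure.infinitePi fun _ : Zd d => unif 1).real G := by
    rw [← hlaw, map_measureReal_apply hTm hG]
  rw [h1]
  exact hP

end Pool.Agent.Q62.QD
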